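import Pool.Agent.Helper20.C5.Sys

/-!
# Systems with blocks of at most four points: the potential `Ps`, components, removal of a set
-/

set_option linter.unusedSectionVars false
set_option autoImplicit false

open Finset
open Pool.Agent.Helper20.C5

namespace Pool.Agent.Helper34.C5

variable {α ι : Type} [DecidableEq α] [DecidableEq ι] [Fintype ι]

/-- the number of blocks which have exactly one point in `U` -/
def n1 (b : ι → Finset α) (U : Finset α) : ℕ := (univ.filter fun i => (b i ∩ U).card = 1).card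

/-- the potential -/
noncomputable def Ph (b : ι → Finset α) (U : Finset α) : ℤ :=
  44 * (nb b U : ℤ) + 53 * (U.card : ℤ) - 256 * (tau b U : ℤ)

/-- the potential minus the number of singletons -/
noncomputable def Ps (b : ι → Finset α) (U : Finset α) : ℤ := Ph b U - (n1 b U : ℤ)

/-- the trace on `U` is a system: five blocks at every point, at most four points in a block -/
structure Sys4 (b : ι → Finset α) (U : Finset α) : Prop where
  deg : ∀ x ∈ U, (univ.filter fun i => x ∈ b i).card = 5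
  sz : ∀ i, (b i ∩ U).card ≤ 4

theorem Sys4.mono {b : ι → Finset α} {U W : Finset α} (h : Sys4 b U) (hW : W ⊆ U) : Sys4 b W :=
  ⟨fun x hx => h.deg x (hW hx), fun i => (card_le_card (inter_subset_inter_left hW)).trans (h.sz i)⟩

theorem Sys4.cb {b : ι → Finset α} {U : Finset α} (h : Sys4 b U) : Cb b U := by
  intro x hx
  have h1 := h.deg x hx
  have h2 : (univ.filter fun i => x ∈ b i).Nonempty := card_pos.mp (by omega)
  obtain ⟨i, hi⟩ := h2
  exact ⟨i, (mem_filter.mp hi).2⟩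

/-! ## Additivity -/

theorem n1_sep {b : ι → Finset α} {A B : Finset α} (h : Sep b A B) :
    n1 b (A ∪ B) = n1 b A + n1 b B := by
  have key : ∀ i, (b i ∩ (A ∪ B)).card = (b i ∩ A).card + (b i ∩ B).card ∧
      ((b i ∩ A).card = 0 ∨ (b i ∩ B).card = 0) := by
    intro i
    by_cases h1 : (b i ∩ A).Nonempty
    · obtain ⟨x, hx⟩ := h1
      rw [mem_inter] at hx
      have h2 : b i ∩ B = ∅ := by
        ext y
        rw [mem_inter]
        exact ⟨fun hy => absurd hy.1 (h i x hx.2 y hy.2 hx.1), fun hy => absurd hy (notMem_empty y)⟩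
      rw [inter_union_distrib_left, h2, union_empty, card_empty]
      exact ⟨rfl, Or.inr rfl⟩
    · rw [not_nonempty_iff_eq_empty] at h1
      rw [inter_union_distrib_left, h1, empty_union, card_empty, zero_add]
      exact ⟨rfl, Or.inl rfl⟩
  unfold n1
  rw [← card_union_of_disjoint]
  · congr 1
    ext i
    rw [mem_union, mem_filter, mem_filter, mem_filter]
    have := key i
    constructor
    · rintro ⟨-, h1⟩
      have : (b i ∩ A).card = 1 ∨ (b i ∩ B).card = 1 := by omega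
      exact this.imp (fun h => ⟨mem_univ _, h⟩) (fun h => ⟨mem_univ _, h⟩)
    · rintro (⟨-, h1⟩ | ⟨-, h1⟩)
      · exact ⟨mem_univ _, by omega⟩
      · exact ⟨mem_univ _, by omega⟩
  · rw [disjoint_left]
    intro i hi hi2
    rw [mem_filter] at hi hi2
    have := key i
    omega

theorem Ph_sep {b : ι → Finset α} {A B : Finset α} (h : Sep b A B) (hA : Cb b A)
    (hB : Cb b B) : Ph b (A ∪ B) = Ph b A + Ph b B := by
  unfold Ph
  rw [nb_sep h, tau_sep h hA hB, card_union_of_disjoint (h.disj hA)]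
  push_cast
  ring

theorem Ps_sep {b : ι → Finset α} {A B : Finset α} (h : Sep b A B) (hA : Cb b A)
    (hB : Cb b B) : Ps b (A ∪ B) = Ps b A + Ps b B := by
  unfold Ps
  rw [Ph_sep h hA hB, n1_sep h]
  push_cast
  ring

theorem nb_empty {b : ι → Finset α} : nb b ∅ = 0 := by
  unfold nb
  rw [card_eq_zero]
  ext i
  rw [mem_mt]
  exact ⟨fun ⟨x, hx, _⟩ => absurd hx (notMem_empty x), fun h => absurd h (notMem_empty i)⟩

theorem n1_empty {b : ι → Finset α} : n1 b ∅ = 0 := by
  unfold n1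
  rw [card_eq_zero]
  ext i
  rw [mem_filter, inter_empty, card_empty]
  exact ⟨fun h => absurd h.2 (by omega), fun h => absurd h (notMem_empty i)⟩

theorem Ph_empty {b : ι → Finset α} : Ph b ∅ = 0 := by
  unfold Ph
  rw [nb_empty, tau_empty, card_empty]
  rfl

theorem Ps_empty {b : ι → Finset α} : Ps b ∅ = 0 := by
  unfold Ps
  rw [Ph_empty, n1_empty]
  rfl

theorem Ps_cps {b : ι → Finset α} {U : Finset α} (hc : Cb b U) :
    Ps b U = ∑ C ∈ cps b U, Ps b C :=
  sum_cps hc (Ps b) Ps_empty fun _ _ hA hB _ hs => Ps_sep hs (hc.mono hA) (hc.mono hB)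

theorem Ph_cps {b : ι → Finset α} {U : Finset α} (hc : Cb b U) :
    Ph b U = ∑ C ∈ cps b U, Ph b C :=
  sum_cps hc (Ph b) Ph_empty fun _ _ hA hB _ hs => Ph_sep hs (hc.mono hA) (hc.mono hB)

/-! ## Connectivity -/

/-- a block which leaves `A` -/
theorem con_exit {b : ι → Finset α} {U A : Finset α} (hc : Con b U) {x y : α} (hx : x ∈ U)
    (hxA : x ∈ A) (hy : y ∈ U) (hyA : y ∉ A) :
    ∃ i, ∃ u ∈ U, u ∈ A ∧ u ∈ b i ∧ ∃ w ∈ U, w ∉ A ∧ w ∈ b i := by
  have key : ∀ (x y : α) (_ : (Bg b U).Walk x y), x ∈ A → y ∉ A →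
      ∃ i, ∃ u ∈ U, u ∈ A ∧ u ∈ b i ∧ ∃ w ∈ U, w ∉ A ∧ w ∈ b i := by
    intro x y p
    induction p with
    | nil => exact fun h1 h2 => absurd h1 h2
    | @cons x w y hadj q ih =>
      intro h1 h2
      obtain ⟨h3, h4, h5, i, h6, h7⟩ := hadj
      by_cases hw : w ∈ A
      · exact ih hw h2
      · exact ⟨i, x, h4, h1, h6, w, h5, hw, h7⟩
  obtain ⟨p⟩ := hc x hx y hy
  exact key x y p hxA hyA

/-- a criterion for connectivity -/
theorem con_of_exit {b : ι → Finset α} {U : Finset α} (h : ∀ A, A ⊆ U → A.Nonempty → A ≠ U →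
    ∃ i, ∃ u ∈ A, u ∈ b i ∧ ∃ w ∈ U, w ∉ A ∧ w ∈ b i) : Con b U := by
  intro x hx y hy
  by_contra hcon
  have h1 : Cmp b U x ⊆ U := Cmp_sub
  have h2 : (Cmp b U x).Nonempty := ⟨x, self_Cmp hx⟩
  have h3 : Cmp b U x ≠ U := by
    intro h4
    rw [← h4] at hy
    exact hcon (mem_Cmp.mp hy).2
  obtain ⟨i, u, hu, hui, w, hw, hwA, hwi⟩ := h _ h1 h2 h3
  exact Cmp_sep i u hu w (mem_sdiff.mpr ⟨hw, hwA⟩) hui hwi

/-- the union of a connected set and attached sets -/
theorem con_union {b : ι → Finset α} {A B : Finset α} (hA : Con b A) (hB : Con b B) {i : ι} {x y : α}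
    (hx : x ∈ A) (hxi : x ∈ b i) (hy : y ∈ B) (hyi : y ∈ b i) : Con b (A ∪ B) := by
  apply con_of_exit
  intro D hD hne hDne
  by_contra hcon
  have hcl : ∀ j, ∀ u ∈ D, u ∈ b j → ∀ w ∈ A ∪ B, w ∈ b j → w ∈ D := by
    intro j u hu huj w hw hwj
    by_contra h1
    exact hcon ⟨j, u, hu, huj, w, hw, h1, hwj⟩
  have hAD : ∀ u ∈ A, u ∈ D → A ⊆ D := by
    intro u hu huD w hw
    by_contra h1
    obtain ⟨j, u', hu', hu'D, hu'j, w', hw', hw'D, hw'j⟩ := con_exit hA hu huD hw h1
    exact hw'D (hcl j u' hu'D hu'j w' (mem_union_left _ hw') hw'j)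
  have hBD : ∀ u ∈ B, u ∈ D → B ⊆ D := by
    intro u hu huD w hw
    by_contra h1
    obtain ⟨j, u', hu', hu'D, hu'j, w', hw', hw'D, hw'j⟩ := con_exit hB hu huD hw h1
    exact hw'D (hcl j u' hu'D hu'j w' (mem_union_right _ hw') hw'j)
  apply hDne
  apply Subset.antisymm hD
  obtain ⟨u, hu⟩ := hne
  rcases mem_union.mp (hD hu) with h1 | h1
  · have h2 := hAD u h1 hu
    have h3 : y ∈ D := hcl i x (h2 hx) hxi y (mem_union_right _ hy) hyi
    exact union_subset h2 (hBD y hy h3)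
  · have h2 := hBD u h1 hu
    have h3 : x ∈ D := hcl i y (h2 hy) hyi x (mem_union_left _ hx) hxi
    exact union_subset (hAD x hx h3) h2

/-- a connected separated set is a component -/
theorem mem_cps_of {b : ι → Finset α} {W N : Finset α} (hN : N ⊆ W) (hne : N.Nonempty)
    (hc : Con b N) (hs : Sep b N (W \ N)) : N ∈ cps b W := by
  obtain ⟨x, hx⟩ := hne
  rw [mem_cps]
  refine ⟨x, hN hx, ?_⟩
  ext y
  constructor
  · intro hy
    by_contra hyN
    have hCW : Con b (Cmp b W x) := Cmp_con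
    obtain ⟨j, u, _, huN, huj, w, hw, hwN, hwj⟩ := con_exit hCW (self_Cmp (hN hx)) hx hy hyN
    exact hs j u huN w (mem_sdiff.mpr ⟨Cmp_sub hw, hwN⟩) huj hwj
  · intro hy
    by_contra hyC
    obtain ⟨j, u, _, huC, huj, w, hw, hwC, hwj⟩ := con_exit hc hx (self_Cmp (hN hx)) hy hyC
    exact Cmp_sep j u huC w (mem_sdiff.mpr ⟨hN hw, hwC⟩) huj hwj

/-- a component of the rest is attached to the removed set -/
theorem att {b : ι → Finset α} {U T : Finset α} (hc : Con b U) (hT : (T ∩ U).Nonempty)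
    {N : Finset α} (hN : N ∈ cps b (U \ T)) : ∃ i ∈ mt b N, i ∈ mt b (T ∩ U) := by
  obtain ⟨x, hx⟩ := cps_ne hN
  obtain ⟨y, hy⟩ := hT
  rw [mem_inter] at hy
  have h1 := cps_sub hN
  have hxU : x ∈ U := (mem_sdiff.mp (h1 hx)).1
  have hyN : y ∉ N := fun h => (mem_sdiff.mp (h1 h)).2 hy.1
  obtain ⟨i, u, hu, huN, hui, w, hw, hwN, hwi⟩ := con_exit hc hxU hx hy.2 hyN
  refine ⟨i, mem_mt.mpr ⟨u, huN, hui⟩, mem_mt.mpr ⟨w, ?_, hwi⟩⟩
  rw [mem_inter]
  refine ⟨?_, hw⟩
  by_contra hwT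
  exact cps_sep hN i u huN w (mem_sdiff.mpr ⟨mem_sdiff.mpr ⟨hw, hwT⟩, hwN⟩) hui hwi

/-- a block meets at most one component -/
theorem cps_unique {b : ι → Finset α} {W C C' : Finset α} (hC : C ∈ cps b W) (hC' : C' ∈ cps b W)
    {i : ι} (hi : i ∈ mt b C) (hi' : i ∈ mt b C') : C = C' := by
  by_contra hne
  obtain ⟨x, hx, hxi⟩ := mem_mt.mp hi
  obtain ⟨y, hy, hyi⟩ := mem_mt.mp hi'
  have h1 : y ∉ C := fun h => (disjoint_left.mp (cps_disj hC hC' hne)) h hy
  exact cps_sep hC i x hx y (mem_sdiff.mpr ⟨cps_sub hC' hy, h1⟩) hxi hyi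

/-- the number of components is bounded by the number of blocks which serve them -/
theorem cps_card_le {b : ι → Finset α} {W : Finset α} {S : Finset (Finset α)} (hS : S ⊆ cps b W)
    (L : Finset ι) (h : ∀ C ∈ S, ∃ i ∈ L, i ∈ mt b C) : S.card ≤ L.card := by
  classical
  rcases S.eq_empty_or_nonempty with h0 | ⟨C0, hC0⟩
  · rw [h0, card_empty]
    exact Nat.zero_le _
  have : Nonempty ι := ⟨(h C0 hC0).choose⟩
  choose! f hf hf2 using h
  apply card_le_card_of_injOn f hf
  intro C hC C' hC' hff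
  have hff' : f C = f C' := hff
  have h1 := hf2 C hC
  rw [hff'] at h1
  exact cps_unique (hS hC) (hS hC') h1 (hf2 C' hC')

/-- a set is the disjoint union of a component and the rest -/
theorem cps_rest {b : ι → Finset α} {W N : Finset α} (hN : N ∈ cps b W) :
    cps b (W \ N) = (cps b W).erase N := by
  ext C
  rw [mem_erase]
  constructor
  · intro hC
    have h1 := cps_sub hC
    have h2 : C ≠ N := by
      rintro rfl
      obtain ⟨x, hx⟩ := cps_ne hC
      exact (mem_sdiff.mp (h1 hx)).2 hx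
    refine ⟨h2, mem_cps_of (h1.trans sdiff_subset) (cps_ne hC) (cps_con hC) ?_⟩
    intro i x hx y hy hxi hyi
    rw [mem_sdiff] at hy
    by_cases hyN : y ∈ N
    · exact cps_sep hN i y hyN x (h1 hx) hyi hxi
    · exact cps_sep hC i x hx y (mem_sdiff.mpr ⟨mem_sdiff.mpr ⟨hy.1, hyN⟩, hy.2⟩) hxi hyi
  · rintro ⟨hne, hC⟩
    have h3 : C ⊆ W \ N := by
      intro x hx
      rw [mem_sdiff]
      exact ⟨cps_sub hC hx, fun h => (disjoint_left.mp (cps_disj hC hN hne)) hx h⟩
    refine mem_cps_of h3 (cps_ne hC) (cps_con hC) ?_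
    exact (cps_sep hC).mono (Subset.refl _) (sdiff_subset_sdiff sdiff_subset (Subset.refl _))

theorem cps_self {b : ι → Finset α} {U : Finset α} (hc : Con b U) (hne : U.Nonempty) :
    cps b U = {U} := by
  have h1 : U ∈ cps b U := mem_cps_of (Subset.refl _) hne hc (by
    intro i x _ y hy
    rw [sdiff_self] at hy
    exact absurd hy (notMem_empty y))
  ext C
  rw [mem_singleton]
  constructor
  · intro hC
    obtain ⟨x, hx⟩ := cps_ne hC
    exact (cps_mem_eq hC hx).symm.trans (cps_mem_eq h1 (cps_sub hC hx))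
  · rintro rfl
    exact h1

/-! ## Removing a set -/

/-- the blocks which meet `U` only inside `T` -/
def inn (b : ι → Finset α) (U T : Finset α) : Finset ι :=
  univ.filter fun i => (b i ∩ U).Nonempty ∧ b i ∩ U ⊆ T

theorem mem_inn {b : ι → Finset α} {U T : Finset α} {i : ι} :
    i ∈ inn b U T ↔ (b i ∩ U).Nonempty ∧ b i ∩ U ⊆ T := by
  unfold inn
  rw [mem_filter]
  exact ⟨fun h => h.2, fun h => ⟨mem_univ _, h⟩⟩

/-- those with one point -/
def in1 (b : ι → Finset α) (U T : Finset α) : Finset ι :=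
  univ.filter fun i => (b i ∩ U).card = 1 ∧ b i ∩ U ⊆ T

theorem mem_in1 {b : ι → Finset α} {U T : Finset α} {i : ι} :
    i ∈ in1 b U T ↔ (b i ∩ U).card = 1 ∧ b i ∩ U ⊆ T := by
  unfold in1
  rw [mem_filter]
  exact ⟨fun h => h.2, fun h => ⟨mem_univ _, h⟩⟩

theorem in1_sub {b : ι → Finset α} {U T : Finset α} : in1 b U T ⊆ inn b U T := by
  intro i hi
  rw [mem_in1] at hi
  rw [mem_inn]
  exact ⟨card_pos.mp (by omega), hi.2⟩

/-- the new singletons -/
def nw (b : ι → Finset α) (U T : Finset α) : Finset ι :=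
  univ.filter fun i => (b i ∩ (U \ T)).card = 1 ∧ 2 ≤ (b i ∩ U).card

theorem mem_nw {b : ι → Finset α} {U T : Finset α} {i : ι} :
    i ∈ nw b U T ↔ (b i ∩ (U \ T)).card = 1 ∧ 2 ≤ (b i ∩ U).card := by
  unfold nw
  rw [mem_filter]
  exact ⟨fun h => h.2, fun h => ⟨mem_univ _, h⟩⟩

theorem nb_rem (b : ι → Finset α) (U T : Finset α) :
    nb b U = nb b (U \ T) + (inn b U T).card := by
  unfold nb
  rw [← card_union_of_disjoint]
  · congr 1
    ext i
    rw [mem_union, mem_mt, mem_mt, mem_inn]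
    constructor
    · rintro ⟨x, hx, hxi⟩
      by_cases h : b i ∩ U ⊆ T
      · exact Or.inr ⟨⟨x, mem_inter.mpr ⟨hxi, hx⟩⟩, h⟩
      · left
        rw [not_subset] at h
        obtain ⟨y, hy, hyT⟩ := h
        rw [mem_inter] at hy
        exact ⟨y, mem_sdiff.mpr ⟨hy.2, hyT⟩, hy.1⟩
    · rintro (⟨x, hx, hxi⟩ | ⟨⟨x, hx⟩, -⟩)
      · exact ⟨x, (mem_sdiff.mp hx).1, hxi⟩
      · rw [mem_inter] at hx
        exact ⟨x, hx.2, hx.1⟩
  · rw [disjoint_left]
    intro i hi hi2
    rw [mem_inn] at hi2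
    obtain ⟨x, hx, hxi⟩ := mem_mt.mp hi
    rw [mem_sdiff] at hx
    exact hx.2 (hi2.2 (mem_inter.mpr ⟨hxi, hx.1⟩))

theorem n1_rem (b : ι → Finset α) (U T : Finset α) :
    n1 b U + (nw b U T).card = n1 b (U \ T) + (in1 b U T).card := by
  have h1 : n1 b U = (in1 b U T).card +
      (univ.filter fun i => (b i ∩ U).card = 1 ∧ ¬ b i ∩ U ⊆ T).card := by
    unfold n1 in1
    rw [← card_union_of_disjoint]
    · congr 1
      ext i
      rw [mem_union, mem_filter, mem_filter, mem_filter]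
      by_cases h : b i ∩ U ⊆ T
      · exact ⟨fun h1 => Or.inl ⟨h1.1, h1.2, h⟩, fun h1 => ⟨mem_univ _, h1.elim (fun h => h.2.1)
          (fun h => h.2.1)⟩⟩
      · exact ⟨fun h1 => Or.inr ⟨h1.1, h1.2, h⟩, fun h1 => ⟨mem_univ _, h1.elim (fun h => h.2.1)
          (fun h => h.2.1)⟩⟩
    · rw [disjoint_left]
      intro i hi hi2
      exact (mem_filter.mp hi2).2.2 (mem_filter.mp hi).2.2
  have h2 : n1 b (U \ T) = (nw b U T).card +
      (univ.filter fun i => (b i ∩ U).card = 1 ∧ ¬ b i ∩ U ⊆ T).card := by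
    unfold n1 nw
    rw [← card_union_of_disjoint]
    · congr 1
      ext i
      rw [mem_union, mem_filter, mem_filter, mem_filter]
      have h3 : b i ∩ (U \ T) = (b i ∩ U) \ T := by
        ext x
        simp only [mem_inter, mem_sdiff]
        tauto
      constructor
      · rintro ⟨-, h4⟩
        by_cases h5 : 2 ≤ (b i ∩ U).card
        · exact Or.inl ⟨mem_univ _, h4, h5⟩
        · right
          have h6 : (b i ∩ (U \ T)).card ≤ (b i ∩ U).card :=
            card_le_card (inter_subset_inter_left sdiff_subset)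
          refine ⟨mem_univ _, by omega, fun h7 => ?_⟩
          rw [h3, sdiff_eq_empty_iff_subset.mpr h7, card_empty] at h4
          omega
      · rintro (⟨-, h4, -⟩ | ⟨-, h4, h5⟩)
        · exact ⟨mem_univ _, h4⟩
        · refine ⟨mem_univ _, ?_⟩
          have h6 : ((b i ∩ U) \ T).card ≤ (b i ∩ U).card := card_le_card sdiff_subset
          have h7 : 0 < ((b i ∩ U) \ T).card := by
            rw [card_pos, sdiff_nonempty]
            exact h5
          rw [h3]
          omega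
    · rw [disjoint_left]
      intro i hi hi2
      have h3 := (mem_filter.mp hi).2.2
      have h4 := (mem_filter.mp hi2).2.1
      omega
  omega

theorem card_rem {U T : Finset α} (h : T ⊆ U) : (U.card : ℤ) = (U \ T).card + T.card := by
  have h1 := card_sdiff_add_card_eq_card h
  push_cast [← h1]
  ring

/-- exact change of the potential -/
theorem Ps_rem (b : ι → Finset α) {U T : Finset α} (h : T ⊆ U) :
    Ps b U = Ps b (U \ T) + 53 * (T.card : ℤ) + 44 * ((inn b U T).card : ℤ) -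
      256 * ((tau b U : ℤ) - (tau b (U \ T) : ℤ)) - ((in1 b U T).card : ℤ) +
      ((nw b U T).card : ℤ) := by
  unfold Ps Ph
  rw [nb_rem b U T, card_rem h]
  have h1 : (n1 b U : ℤ) + ((nw b U T).card : ℤ) = (n1 b (U \ T) : ℤ) + ((in1 b U T).card : ℤ) := by
    exact_mod_cast n1_rem b U T
  push_cast
  linarith

/-- **F2** -/
theorem Ps_rem_le {b : ι → Finset α} {U W : Finset α} (hc : Cb b U) (h : W ⊆ U) {s : ℕ}
    (hs : Cv b W s) : Ps b (U \ W) + 53 * (W.card : ℤ) + 44 * ((inn b U W).card : ℤ) -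
      256 * (s : ℤ) - ((in1 b U W).card : ℤ) + ((nw b U W).card : ℤ) ≤ Ps b U := by
  have h1 : tau b U ≤ tau b (U \ W) + s := by
    have h2 := cv_union (tau_cv (hc.mono (sdiff_subset (s := U) (t := W)))) hs
    rw [sdiff_union_of_subset h] at h2
    exact tau_le h2
  have h2 : (tau b U : ℤ) ≤ (tau b (U \ W) : ℤ) + (s : ℤ) := by exact_mod_cast h1
  rw [Ps_rem b h]
  linarith

/-- the degree splits -/
theorem deg_split {b : ι → Finset α} {U : Finset α} (h : Sys4 b U) {x : α} (hx : x ∈ U)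
    (P : ι → Prop) [DecidablePred P] :
    (univ.filter fun i => x ∈ b i ∧ P i).card + (univ.filter fun i => x ∈ b i ∧ ¬ P i).card = 5 := by
  rw [← h.deg x hx, ← card_union_of_disjoint]
  · congr 1
    ext i
    rw [mem_union, mem_filter, mem_filter, mem_filter]
    by_cases hP : P i
    · exact ⟨fun h1 => ⟨mem_univ _, h1.elim (fun h => h.2.1) (fun h => h.2.1)⟩,
        fun h1 => Or.inl ⟨mem_univ _, h1.2, hP⟩⟩
    · exact ⟨fun h1 => ⟨mem_univ _, h1.elim (fun h => h.2.1) (fun h => h.2.1)⟩,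
        fun h1 => Or.inr ⟨mem_univ _, h1.2, hP⟩⟩
  · rw [disjoint_left]
    intro i hi hi2
    exact (mem_filter.mp hi2).2.2 (mem_filter.mp hi).2.2

end Pool.Agent.Helper34.C5
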