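import Pool.Agent.Helper34.C5.CapG
import Pool.Agent.Helper34.C5.Bas

/-!
# Theorem K for critical connected systems
-/

set_option linter.unusedSectionVars false
set_option autoImplicit false

open Finset
open Pool.Agent.Helper20.C5 Pool.Agent.Helper74.C5

namespace Pool.Agent.Helper34.C5

variable {α ι : Type} [DecidableEq α] [DecidableEq ι] [Fintype ι]

/-- A cut at a face. -/
structure FG (b : ι → Finset α) (V U : Finset α) (i0 : ι) (k : ℕ) : Prop where
  sub : U ⊆ V
  p3 : (b i0 ∩ V).card = 3
  pu : b i0 ∩ U = ∅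
  tt : tau b U + 1 = tau b V
  card : U.card + 3 + k = V.card
  typ : ∀ C ∈ cps b U, Vc b C

theorem Vc.erase_le {b : ι → Finset α} {V W : Finset α} (hc : Cb b V) (hv : Vc b V) (hW : W ⊆ V)
    {x : α} (hx : x ∈ V) (hxW : x ∉ W) : tau b W + 1 ≤ tau b V := by
  have h1 := hv x hx
  have h2 : tau b W ≤ tau b (V.erase x) := by
    apply tau_mono (hc.mono (erase_subset _ _))
    intro y hy
    exact mem_erase.mpr ⟨fun h => hxW (h ▸ hy), hW hy⟩
  omega

theorem exists_FG {b : ι → Finset α} {V : Finset α} (hsys : Sys b V) (hvc : Vc b V) {i0 : ι}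
    (hi0 : (b i0 ∩ V).card = 3) : ∃ U k, FG b V U i0 k := by
  classical
  have hP3 : (b i0 ∩ V).card = 3 := hi0
  have hPV : b i0 ∩ V ⊆ V := inter_subset_right
  have hcb := hsys.cb
  obtain ⟨p, hp⟩ : (b i0 ∩ V).Nonempty := card_pos.mp (by omega)
  have hpV := hPV hp
  have ht : tau b (V \ (b i0 ∩ V)) + 1 = tau b V := by
    have h1 := Vc.erase_le hcb hvc (sdiff_subset : V \ (b i0 ∩ V) ⊆ V) hpV
      (fun h => (mem_sdiff.mp h).2 hp)
    have h3 := tau_union (hcb.mono (sdiff_subset : V \ (b i0 ∩ V) ⊆ V))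
      (hcb.mono hPV)
    rw [sdiff_union_of_subset hPV] at h3
    have h4 : tau b (b i0 ∩ V) ≤ 1 := tau_le (cv_block i0 inter_subset_left)
    omega
  have hcb' : Cb b (V \ (b i0 ∩ V)) := hcb.mono sdiff_subset
  obtain ⟨A, hA, hA2, hcr⟩ := exists_crit hcb'
  have hcb'' : Cb b ((V \ (b i0 ∩ V)) \ A) := hcb'.mono sdiff_subset
  refine ⟨(V \ (b i0 ∩ V)) \ A, A.card, ⟨sdiff_subset.trans sdiff_subset, hP3, ?_, ?_, ?_, ?_⟩⟩
  · rw [eq_empty_iff_forall_notMem]
    intro x hx
    rw [mem_inter, mem_sdiff, mem_sdiff] at hx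
    exact hx.2.1.2 (mem_inter.mpr ⟨hx.1, hx.2.1.1⟩)
  · rw [hA2]
    exact ht
  · rw [card_sdiff_of_subset hA, card_sdiff_of_subset hPV, hP3]
    have h1 := card_le_card hA
    rw [card_sdiff_of_subset hPV, hP3] at h1
    have h2 := card_le_card hPV
    rw [hP3] at h2
    omega
  · intro C hC c hc
    have h1 := crit_cps hcb'' hcr hC {c} (singleton_subset_iff.mpr hc) (singleton_nonempty c)
    rw [sdiff_singleton_eq_erase] at h1
    have h2 := tau_erase_le (hcb''.mono (cps_sub hC)) hc
    omega

section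

variable {b : ι → Finset α} {V U : Finset α} {i0 : ι} {k : ℕ}

theorem FG.scard (h : FG b V U i0 k) : (V \ U).card = 3 + k := by
  rw [card_sdiff_of_subset h.sub]
  have := h.card
  omega

theorem FG.notsaved (h : FG b V U i0 k)
    (hcb : Cb b V) (T : Finset α → Finset α) (hT : ∀ C ∈ cps b U, tau b (C ∪ T C) ≤ tau b C)
    (hT2 : ∀ C ∈ cps b U, T C ⊆ V \ U) (hS2 : V \ U ⊆ (cps b U).biUnion T) : False := by
  have h1 := saved (hcb.mono h.sub) (hcb.mono sdiff_subset) T hT hT2 hS2
  rw [union_sdiff_of_subset h.sub] at h1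
  have h2 := h.tt
  omega

theorem FG.att (h : FG b V U i0 k)
    (hcb : Cb b V) (hcon : Con b V) (hvc : Vc b V) {C : Finset α} (hC : C ∈ cps b U) (v : α) :
    ∃ x ∈ V \ U, x ≠ v ∧ Aj b x C := by
  have h1 : V \ (V \ U) = U := Finset.sdiff_sdiff_eq_self h.sub
  have h2 := h.scard
  have hvC := h.typ C hC
  rw [← h1] at hC
  exact attach hcb hcon hvc sdiff_subset (card_pos.mp (by omega)) hC hvC v

/-! ### The number of components -/

open Classical in
/-- the components attached to `Q` -/
noncomputable def NQ (b : ι → Finset α) (U Q : Finset α) : Finset (Finset α) :=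
  (cps b U).filter fun C => ∃ x ∈ Q, Aj b x C

theorem mem_NQ {Q C : Finset α} : C ∈ NQ b U Q ↔ C ∈ cps b U ∧ ∃ x ∈ Q, Aj b x C := by
  classical
  simp only [NQ, mem_filter]

/-- the points outside of `Q` with distinct representatives are redundant -/
theorem FG.redund (h : FG b V U i0 k) (hcb : Cb b V) (hvc : Vc b V) {Q : Finset α}
    (hQ : Q ⊆ V \ U) (f : {x // x ∈ (V \ U) \ Q} → Finset α) (hinj : Function.Injective f)
    (hf : ∀ x, f x ∈ cps b U ∧ Aj b x.1 (f x) ∧ f x ∉ NQ b U Q) : (V \ U) \ Q = ∅ := by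
  classical
  by_contra hne
  obtain ⟨v, hv⟩ := nonempty_iff_ne_empty.mpr hne
  have hWV : U ∪ Q ⊆ V := union_subset h.sub (hQ.trans sdiff_subset)
  have hR : (V \ U) \ Q ⊆ V := sdiff_subset.trans sdiff_subset
  have hcW := hcb.mono hWV
  -- the representatives are components of `U ∪ Q`
  have hcomp : ∀ x, f x ∈ cps b (U ∪ Q) := by
    intro x
    obtain ⟨h1, -, h3⟩ := hf x
    refine mem_cps_of ((cps_sub h1).trans subset_union_left) (cps_ne h1) (cps_con h1) ?_
    intro i u hu w hw hui hwi
    rw [mem_sdiff, mem_union] at hw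
    rcases hw.1 with h4 | h4
    · exact cps_sep h1 i u hu w (mem_sdiff.mpr ⟨h4, hw.2⟩) hui hwi
    · exact h3 (mem_NQ.mpr ⟨h1, w, h4, i, hwi, u, hu, hui⟩)
  let T : Finset α → Finset α := fun C =>
    ((V \ U) \ Q).attach.filter (fun x => f x = C) |>.map ⟨Subtype.val, Subtype.val_injective⟩
  have hTm : ∀ C y, y ∈ T C ↔ ∃ hy : y ∈ (V \ U) \ Q, f ⟨y, hy⟩ = C := by
    intro C y
    show y ∈ Finset.map _ _ ↔ _
    rw [mem_map]
    constructor
    · rintro ⟨x, hx, rfl⟩
      rw [mem_filter] at hx
      exact ⟨x.2, hx.2⟩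
    · rintro ⟨hy, hyC⟩
      exact ⟨⟨y, hy⟩, mem_filter.mpr ⟨mem_attach _ _, hyC⟩, rfl⟩
  have hsaved := saved hcW (hcb.mono hR) T (by
    intro C hC
    rcases (T C).eq_empty_or_nonempty with h1 | ⟨y, hy⟩
    · rw [h1, union_empty]
    · obtain ⟨hy1, hy2⟩ := (hTm C y).mp hy
      have h2 : T C = {y} := by
        ext z
        rw [hTm, mem_singleton]
        constructor
        · rintro ⟨hz1, hz2⟩
          have h3 := hinj (hz2.trans hy2.symm)
          exact congrArg Subtype.val h3
        · rintro rfl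
          exact ⟨hy1, hy2⟩
      rw [h2]
      obtain ⟨h3, h4, -⟩ := hf ⟨y, hy1⟩
      rw [hy2] at h3 h4
      exact absorb_aj (hcb.mono ((cps_sub h3).trans h.sub)) (h.typ C h3) h4) (by
    intro C _ y hy
    exact ((hTm C y).mp hy).1) (by
    intro y hy
    rw [mem_biUnion]
    exact ⟨f ⟨y, hy⟩, hcomp _, (hTm _ y).mpr ⟨hy, rfl⟩⟩)
  have h1 : (U ∪ Q) ∪ ((V \ U) \ Q) = V := by
    ext y
    simp only [mem_union, mem_sdiff]
    constructor
    · rintro ((h1 | h1) | h1)
      · exact h.sub h1
      · exact hWV (mem_union_right _ h1)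
      · exact h1.1.1
    · intro hy
      by_cases hyU : y ∈ U
      · exact Or.inl (Or.inl hyU)
      · by_cases hyQ : y ∈ Q
        · exact Or.inl (Or.inr hyQ)
        · exact Or.inr ⟨⟨hy, hyU⟩, hyQ⟩
  rw [h1] at hsaved
  have h2 := Vc.erase_le hcb hvc hWV (hR hv) (by
    rw [mem_union, not_or]
    exact ⟨(mem_sdiff.mp (mem_sdiff.mp hv).1).2, (mem_sdiff.mp hv).2⟩)
  omega

theorem FG.num (h : FG b V U i0 k) (hcb : Cb b V) (hcon : Con b V) (hvc : Vc b V) :
    (cps b U).card ≤ k + 2 := by
  classical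
  -- a set with maximal deficiency is the whole set
  have key : ∀ Q, Q ⊆ V \ U → (∀ Q', Q' ⊆ V \ U → (Q'.card : ℤ) - ((NQ b U Q').card : ℤ) ≤
      (Q.card : ℤ) - ((NQ b U Q).card : ℤ)) → (V \ U) \ Q = ∅ := by
    intro Q hQ hmax
    let t : {x // x ∈ (V \ U) \ Q} → Finset (Finset α) := fun x => NQ b U {x.1} \ NQ b U Q
    have hall : ∀ s : Finset {x // x ∈ (V \ U) \ Q}, s.card ≤ (s.biUnion t).card := by
      intro s
      let R : Finset α := s.map ⟨Subtype.val, Subtype.val_injective⟩
      have hRm : ∀ y, y ∈ R ↔ ∃ hy : y ∈ (V \ U) \ Q, (⟨y, hy⟩ : {x // x ∈ (V \ U) \ Q}) ∈ s := by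
        intro y
        show y ∈ Finset.map _ _ ↔ _
        rw [mem_map]
        constructor
        · rintro ⟨x, hx, rfl⟩
          exact ⟨x.2, hx⟩
        · rintro ⟨hy, hyC⟩
          exact ⟨⟨y, hy⟩, hyC, rfl⟩
      have hRc : R.card = s.card := card_map _
      have hRQ : Disjoint Q R := by
        rw [disjoint_left]
        intro y hy hyR
        obtain ⟨hy1, -⟩ := (hRm y).mp hyR
        exact (mem_sdiff.mp hy1).2 hy
      have h1 := hmax (Q ∪ R) (union_subset hQ fun y hy => by
        obtain ⟨hy1, -⟩ := (hRm y).mp hy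
        exact (mem_sdiff.mp hy1).1)
      rw [card_union_of_disjoint hRQ] at h1
      have h2 : NQ b U (Q ∪ R) ⊆ NQ b U Q ∪ s.biUnion t := by
        intro C hC
        obtain ⟨hC1, y, hy, hyC⟩ := mem_NQ.mp hC
        rw [mem_union]
        by_cases hCQ : C ∈ NQ b U Q
        · exact Or.inl hCQ
        · right
          rw [mem_union] at hy
          rcases hy with hy | hy
          · exact absurd (mem_NQ.mpr ⟨hC1, y, hy, hyC⟩) hCQ
          · obtain ⟨hy1, hy2⟩ := (hRm y).mp hy
            rw [mem_biUnion]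
            exact ⟨⟨y, hy1⟩, hy2, mem_sdiff.mpr ⟨mem_NQ.mpr ⟨hC1, y, mem_singleton_self y, hyC⟩,
              hCQ⟩⟩
      have h3 := (card_le_card h2).trans (card_union_le _ _)
      omega
    obtain ⟨f, hinj, hf⟩ := (all_card_le_biUnion_card_iff_exists_injective t).mp hall
    refine h.redund hcb hvc hQ f hinj ?_
    intro x
    have h1 := mem_sdiff.mp (hf x)
    obtain ⟨h2, y, hy, hyC⟩ := mem_NQ.mp h1.1
    rw [mem_singleton] at hy
    rw [hy] at hyC
    exact ⟨h2, hyC, h1.2⟩
  obtain ⟨Q, hQ, hmax⟩ := exists_max_image ((V \ U).powerset)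
    (fun Q => (Q.card : ℤ) - ((NQ b U Q).card : ℤ)) ⟨∅, mem_powerset.mpr (empty_subset _)⟩
  rw [mem_powerset] at hQ
  have h1 := key Q hQ (fun Q' hQ' => hmax Q' (mem_powerset.mpr hQ'))
  have h2 : Q = V \ U := Subset.antisymm hQ (sdiff_eq_empty_iff_subset.mp h1)
  have hSc := h.scard
  -- all components are attached
  have h3 : NQ b U (V \ U) = cps b U := by
    ext C
    rw [mem_NQ]
    refine ⟨fun h => h.1, fun hC => ⟨hC, ?_⟩⟩
    obtain ⟨x, hx⟩ := cps_ne hC
    obtain ⟨y, hy, -, hyC⟩ := h.att hcb hcon hvc hC x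
    exact ⟨y, hy, hyC⟩
  by_contra hcon2
  have h4 := key ∅ (empty_subset _) (by
    intro Q' hQ'
    have h5 := hmax Q' (mem_powerset.mpr hQ')
    rw [h2, h3] at h5
    have h6 : NQ b U (∅ : Finset α) = ∅ := by
      ext C
      rw [mem_NQ]
      refine ⟨?_, fun h => absurd h (notMem_empty C)⟩
      rintro ⟨-, x, hx, -⟩
      exact absurd hx (notMem_empty x)
    rw [h6, card_empty, card_empty]
    omega)
  rw [sdiff_empty] at h4
  rw [h4, card_empty] at hSc
  omega

/-! ### The rules -/

theorem FG.cap (h : FG b V U i0 k)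
    (hsys : Sys b V) (hIH : IHG V.card) {C : Finset α} (hC : C ∈ cps b U)
    {G H : Finset α} (hG : G ⊆ V \ U) (hH : H ⊆ V \ U) (hGH : Disjoint G H) {a c : ℕ}
    (ha : 1 ≤ a) (hac : a ≤ c) (hc : c ≤ 4) (h0 : a ≤ dg b G C) (h1 : c ≤ dg b H C)
    (habs : ∀ x ∈ G, ∀ y ∈ H, tau b C + 1 ≤ tau b (C ∪ {x, y})) :
    ((sp b V ∩ C).card : ℤ) + (if a + 2 ≤ c then 1 else 0) + 2 * a ≤ hh b C + 3 := by
  have h2 := card_le_card (cps_sub hC)
  have h3 := h.card
  have h4 : V \ U ⊆ V \ C := sdiff_subset_sdiff (Subset.refl V) (cps_sub hC)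
  exact pairG hsys hIH ((cps_sub hC).trans h.sub) (cps_ne hC) (cps_con hC) (h.typ C hC)
    (by omega) (hG.trans h4) (hH.trans h4) hGH ha hac hc h0 h1 habs

theorem FG.nonabs (h : FG b V U i0 k)
    (hcb : Cb b V) {C C' : Finset α} (hcps : cps b U = {C, C'}) (hne : C ≠ C')
    {x y z : α} (hS : V \ U = {x, y, z}) (hz : Aj b z C') :
    tau b C + 1 ≤ tau b (C ∪ {x, y}) := by
  classical
  by_contra hcon
  have hC' : C' ∈ cps b U := by
    rw [hcps]
    exact mem_insert_of_mem (mem_singleton_self _)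
  refine h.notsaved hcb (fun D => if D = C then {x, y} else {z}) ?_ ?_ ?_
  · intro D hD
    show tau b (D ∪ (if D = C then {x, y} else {z})) ≤ tau b D
    have hD2 := hD
    rw [hcps, mem_insert, mem_singleton] at hD
    rcases hD with rfl | rfl
    · rw [if_pos rfl]
      omega
    · rw [if_neg hne.symm]
      have h1 := hcb.mono ((cps_sub hC').trans h.sub)
      exact absorb_aj h1 (h.typ _ hC') hz
  · intro D _
    show (if D = C then {x, y} else {z}) ⊆ V \ U
    rw [hS]
    split_ifs
    · intro w hw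
      rw [mem_insert, mem_singleton] at hw
      rw [mem_insert, mem_insert, mem_singleton]
      rcases hw with h1 | h1
      · exact Or.inl h1
      · exact Or.inr (Or.inl h1)
    · intro w hw
      rw [mem_singleton] at hw
      rw [mem_insert, mem_insert, mem_singleton]
      exact Or.inr (Or.inr hw)
  · intro w hw
    rw [hS, mem_insert, mem_insert, mem_singleton] at hw
    rw [hcps, mem_biUnion]
    rcases hw with h1 | h1 | h1
    · refine ⟨C, mem_insert_self _ _, ?_⟩
      show w ∈ (if C = C then {x, y} else {z})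
      rw [if_pos rfl, h1]
      exact mem_insert_self _ _
    · refine ⟨C, mem_insert_self _ _, ?_⟩
      show w ∈ (if C = C then {x, y} else {z})
      rw [if_pos rfl, h1]
      exact mem_insert_of_mem (mem_singleton_self _)
    · refine ⟨C', mem_insert_of_mem (mem_singleton_self _), ?_⟩
      show w ∈ (if C' = C then {x, y} else {z})
      rw [if_neg hne.symm, h1]
      exact mem_singleton_self _

/-- The rules for two components. -/
theorem FG.two (h : FG b V U i0 k)
    (hsys : Sys b V) (hIH : IHG V.card) {C C' : Finset α} (hcps : cps b U = {C, C'})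
    (hne : C ≠ C')
    {x y z : α} (hS : V \ U = {x, y, z}) (hxy : x ≠ y) (hz : 1 ≤ dg b {z} C')
    {a c : ℕ} (ha : 1 ≤ a) (hac : a ≤ c) (hc : c ≤ 4) (h0 : a ≤ dg b {x} C)
    (h1 : c ≤ dg b {y} C) :
    ((sp b V ∩ C).card : ℤ) + (if a + 2 ≤ c then 1 else 0) + 2 * a ≤ hh b C + 3 := by
  have hC : C ∈ cps b U := by
    rw [hcps]
    exact mem_insert_self _ _
  apply h.cap hsys hIH hC (G := {x}) (H := {y}) ?_ ?_ ?_ ha hac hc h0 h1
  · intro x' hx' y' hy'
    rw [mem_singleton] at hx' hy'
    rw [hx', hy']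
    exact h.nonabs hsys.cb hcps hne hS (dg_aj hz)
  · rw [hS, singleton_subset_iff, mem_insert]
    exact Or.inl rfl
  · rw [hS, singleton_subset_iff, mem_insert, mem_insert]
    exact Or.inr (Or.inl rfl)
  · rw [disjoint_singleton]
    exact hxy

theorem FG.three (h : FG b V U i0 k)
    (hsys : Sys b V) (hIH : IHG V.card) {C C' : Finset α} (hcps : cps b U = {C, C'})
    (hne : C ≠ C')
    {x y z : α} (hS : V \ U = {x, y, z}) (hxy : x ≠ y) (hxz : x ≠ z)
    (hx : 1 ≤ dg b {x} C') (hy : 1 ≤ dg b {y} C') (hz : 1 ≤ dg b {z} C')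
    {a c : ℕ} (ha : 1 ≤ a) (hac : a ≤ c) (hc : c ≤ 4) (h0 : a ≤ dg b {x} C)
    (h1 : c ≤ dg b {y} C + dg b {z} C) :
    ((sp b V ∩ C).card : ℤ) + (if a + 2 ≤ c then 1 else 0) + 2 * a ≤ hh b C + 3 := by
  have hC : C ∈ cps b U := by
    rw [hcps]
    exact mem_insert_self _ _
  have hS2 : V \ U = {x, z, y} := by
    rw [hS]
    ext w
    rw [mem_insert, mem_insert, mem_singleton, mem_insert, mem_insert, mem_singleton]
    tauto
  have hS3 : V \ U = {y, z, x} := by
    rw [hS]
    ext w
    rw [mem_insert, mem_insert, mem_singleton, mem_insert, mem_insert, mem_singleton]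
    tauto
  have hcC := hsys.cb.mono ((cps_sub hC).trans h.sub)
  have h2 : dg b {y, z} C = dg b {y} C + dg b {z} C := by
    apply dg_pair
    intro i hyi hzi c hcC' hci
    have h3 := absorb hcC (h.typ C hC) hcC' hci (T := {y, z}) (by
      intro w hw
      rw [mem_insert, mem_singleton] at hw
      rcases hw with rfl | rfl
      · exact hyi
      · exact hzi)
    have h4 := h.nonabs hsys.cb hcps hne hS3 (dg_aj hx)
    omega
  rw [← h2] at h1
  apply h.cap hsys hIH hC (G := {x}) (H := {y, z}) ?_ ?_ ?_ ha hac hc h0 h1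
  · intro x' hx' y' hy'
    rw [mem_singleton] at hx'
    rw [mem_insert, mem_singleton] at hy'
    rw [hx']
    rcases hy' with h3 | h3
    · rw [h3]
      exact h.nonabs hsys.cb hcps hne hS (dg_aj hz)
    · rw [h3]
      exact h.nonabs hsys.cb hcps hne hS2 (dg_aj hy)
  · rw [hS, singleton_subset_iff, mem_insert]
    exact Or.inl rfl
  · rw [hS]
    exact subset_insert _ _
  · rw [disjoint_singleton_left, mem_insert, mem_singleton]
    rintro (h3 | h3)
    · exact hxy h3
    · exact hxz h3

end

/-- the sum over the components -/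
theorem sum_hX {b : ι → Finset α} {V U : Finset α} (hc : Cb b U) :
    ∑ C ∈ cps b U, (hh b C - ((sp b V ∩ C).card : ℤ)) =
      hh b U - 3 + 3 * ((cps b U).card : ℤ) - ((sp b V ∩ U).card : ℤ) := by
  have h1 := sum_eX (V := V) hc
  have h2 := tau_cps hc
  have h3 := card_cps hc
  have h4 : ∀ C ∈ cps b U, hh b C - ((sp b V ∩ C).card : ℤ) =
      (ee b C - ((sp b V ∩ C).card : ℤ)) + (3 * (C.card : ℤ) - 6 * (tau b C : ℤ) + 3) := by
    intro C _
    unfold hh
    ring
  rw [sum_congr rfl h4, sum_add_distrib, h1]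
  have h5 : ∑ C ∈ cps b U, (3 * (C.card : ℤ) - 6 * (tau b C : ℤ) + 3) =
      3 * (U.card : ℤ) - 6 * (tau b U : ℤ) + 3 * ((cps b U).card : ℤ) := by
    have e1 : (U.card : ℤ) = ∑ C ∈ cps b U, (C.card : ℤ) := by exact_mod_cast h3
    have e2 : (tau b U : ℤ) = ∑ C ∈ cps b U, (tau b C : ℤ) := by exact_mod_cast h2
    rw [sum_add_distrib, sum_sub_distrib, ← mul_sum, ← mul_sum, sum_const, nsmul_eq_mul, ← e1,
      ← e2]
    ring
  rw [h5]
  unfold hh
  ring

/-- **The induction step.** -/
theorem G_step {b : ι → Finset α} {V : Finset α} (hsys : Sys b V) (hne0 : V.Nonempty)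
    (hcon : Con b V) (hvc : Vc b V) (hIH : IHG V.card) : ((sp b V).card : ℤ) ≤ hh b V := by
  classical
  by_contra hcon2
  rw [not_le] at hcon2
  by_cases hf : ∀ i, (b i ∩ V).card ≤ 2
  · have hKT := kt_small hsys.cb hf hne0 hcon hvc
    have h1 := facefree hsys hKT hf
    rw [hh_KT hKT] at hcon2
    exact absurd h1 (not_le.mpr hcon2)
  rw [not_forall] at hf
  obtain ⟨i0, hi0⟩ := hf
  have hi3 : (b i0 ∩ V).card = 3 := by
    have := hsys.sz i0
    omega
  obtain ⟨U, k, h⟩ := exists_FG hsys hvc hi3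
  have hcb := hsys.cb
  have hcU := hcb.mono h.sub
  have hN := h.num hcb hcon hvc
  have hnn : ∀ C ∈ cps b U, 0 ≤ hh b C - ((sp b V ∩ C).card : ℤ) := by
    intro C hC
    have h1 := card_le_card (cps_sub hC)
    have h2 := h.card
    have h3 := hIH α ι b C (cps_ne hC) (by omega) (hsys.mono ((cps_sub hC).trans h.sub))
      (cps_con hC) (h.typ C hC)
    have h4 : ((sp b V ∩ C).card : ℤ) ≤ (sp b C).card := by
      exact_mod_cast card_le_card (sp_sub ((cps_sub hC).trans h.sub))
    linarith
  have hsum := sum_hX (V := V) hcU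
  have hcut := ee_cut (b := b) h.sub
  have hsp : (sp b V).card = (sp b V ∩ U).card + (sp b V ∩ (V \ U)).card := by
    have hspV : sp b V ∩ V = sp b V := inter_eq_left.mpr (filter_subset _ _)
    rw [← card_union_of_disjoint, ← inter_union_distrib_left, union_sdiff_of_subset h.sub, hspV]
    exact disjoint_of_subset_left inter_subset_right
      (disjoint_of_subset_right inter_subset_right disjoint_sdiff)
  have hins := sp_ins hi3 h.pu h.sub
  have htt := h.tt
  have hcard := h.card
  have hle : ∑ C ∈ cps b U, (hh b C - ((sp b V ∩ C).card : ℤ)) ≤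
      (sp b V ∩ (V \ U)).card - 2 - 2 * (ins b V U).card - 5 * k +
        3 * ((cps b U).card : ℤ) := by
    rw [hsum]
    rw [hsp] at hcon2
    rw [← htt, ← hcard] at hcut
    unfold hh at hcon2 ⊢
    rw [← htt, ← hcard] at hcon2
    push_cast at hcut hcon2 ⊢
    linarith
  have hge := sum_nonneg hnn
  have hk : k ≤ 1 := by omega
  have hnum : (cps b U).card = k + 2 := by omega
  rw [hnum] at hle
  have hSc := h.scard
  have hdeg : ∀ x ∈ V \ U, 5 ≤ (∑ C ∈ cps b U, dg b {x} C) + (ins b V U).card := by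
    intro x hx
    rw [← dg_cps hcU]
    exact dg_ins hsys (mem_sdiff.mp hx).1
  rcases Nat.lt_or_ge 0 k with hk1 | hk0
  · -- three components
    have hk1' : k = 1 := by omega
    subst hk1'
    obtain ⟨C1, C2, C3, h12, h13, h23, hcps⟩ := card_eq_three.mp hnum
    have hC1 : C1 ∈ cps b U := by rw [hcps]; simp
    have hC2 : C2 ∈ cps b U := by rw [hcps]; simp
    have hC3 : C3 ∈ cps b U := by rw [hcps]; simp
    push_cast at hle
    have hns : (ins b V U).card ≤ 1 := by omega
    have hzero : ∀ C ∈ cps b U, hh b C - ((sp b V ∩ C).card : ℤ) ≤ 0 := by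
      intro C hC
      have h1 := single_le_sum hnn hC
      omega
    have hab : ∀ C ∈ cps b U, ∀ x ∈ V \ U, ∀ y ∈ V \ U, x ≠ y → 2 ≤ dg b {x} C →
        2 ≤ dg b {y} C → tau b (C ∪ {x, y}) ≤ tau b C := by
      intro C hC x hx y hy hxy hwx hwy
      by_contra hcon3
      have h1 := h.cap hsys hIH hC (G := {x}) (H := {y}) (a := 2) (c := 2)
        (singleton_subset_iff.mpr hx) (singleton_subset_iff.mpr hy)
        (by rw [disjoint_singleton]; exact hxy) (by norm_num) le_rfl (by norm_num) hwx hwy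
        (by
          intro x' hx' y' hy'
          rw [mem_singleton] at hx' hy'
          rw [hx', hy']
          omega)
      have h2 := hzero C hC
      norm_num at h1
      omega
    obtain ⟨T, hT1, hT2, hT3⟩ := comb3 (fun j x => Aj b x ((![C1, C2, C3] : Fin 3 → Finset α) j))
      (fun j x => 2 ≤ dg b {x} ((![C1, C2, C3] : Fin 3 → Finset α) j)) (V \ U) hSc
      (fun j x hq => dg_aj (by omega))
      (by
        intro x hx
        have h1 := hdeg x hx
        have h2 : ∑ C ∈ cps b U, dg b {x} C = dg b {x} C1 + (dg b {x} C2 + dg b {x} C3) := by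
          rw [hcps, sum_insert (by simp [h12, h13]), sum_insert (by simp [h23]), sum_singleton]
        rw [h2] at h1
        by_contra hcon3
        rw [not_exists] at hcon3
        have g0 : ¬ 2 ≤ dg b {x} C1 := hcon3 0
        have g1 : ¬ 2 ≤ dg b {x} C2 := hcon3 1
        have g2 : ¬ 2 ≤ dg b {x} C3 := hcon3 2
        omega)
      (by
        intro j v
        have hj : (![C1, C2, C3] : Fin 3 → Finset α) j ∈ cps b U := by
          fin_cases j
          · exact hC1
          · exact hC2
          · exact hC3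
        exact h.att hcb hcon hvc hj v)
    have hTab : ∀ j, ∀ C ∈ cps b U, C = (![C1, C2, C3] : Fin 3 → Finset α) j →
        tau b (C ∪ T j) ≤ tau b C := by
      intro j C hC hCj
      have hcC := hcU.mono (cps_sub hC)
      rcases hT3 j with ⟨x, hx, hx2⟩ | ⟨x, y, hxy, hx, hx2, hy2⟩
      · rw [hx]
        rw [← hCj] at hx2
        exact absorb_aj hcC (h.typ C hC) hx2
      · rw [hx]
        rw [← hCj] at hx2 hy2
        have h1 := hT1 j
        rw [hx] at h1
        exact hab C hC x (h1 (mem_insert_self _ _)) y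
          (h1 (mem_insert_of_mem (mem_singleton_self _))) hxy hx2 hy2
    refine h.notsaved hcb
      (fun C => if C = C1 then T 0 else if C = C2 then T 1 else T 2) ?_ ?_ ?_
    · intro C hC
      show tau b (C ∪ (if C = C1 then T 0 else if C = C2 then T 1 else T 2)) ≤ tau b C
      have hC' := hC
      rw [hcps, mem_insert, mem_insert, mem_singleton] at hC'
      rcases hC' with h1 | h1 | h1
      · rw [if_pos h1]
        exact hTab 0 C hC h1
      · rw [if_neg (by rw [h1]; exact h12.symm), if_pos h1]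
        exact hTab 1 C hC h1
      · rw [if_neg (by rw [h1]; exact h13.symm), if_neg (by rw [h1]; exact h23.symm)]
        exact hTab 2 C hC h1
    · intro C _
      show (if C = C1 then T 0 else if C = C2 then T 1 else T 2) ⊆ V \ U
      split_ifs
      · exact hT1 0
      · exact hT1 1
      · exact hT1 2
    · intro x hx
      rw [mem_biUnion]
      obtain ⟨j, hj⟩ := hT2 x hx
      fin_cases j
      · refine ⟨C1, hC1, ?_⟩
        show x ∈ (if C1 = C1 then T 0 else if C1 = C2 then T 1 else T 2)
        rw [if_pos rfl]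
        exact hj
      · refine ⟨C2, hC2, ?_⟩
        show x ∈ (if C2 = C1 then T 0 else if C2 = C2 then T 1 else T 2)
        rw [if_neg h12.symm, if_pos rfl]
        exact hj
      · refine ⟨C3, hC3, ?_⟩
        show x ∈ (if C3 = C1 then T 0 else if C3 = C2 then T 1 else T 2)
        rw [if_neg h13.symm, if_neg h23.symm]
        exact hj
  · -- two components
    have hk0' : k = 0 := by omega
    subst hk0'
    obtain ⟨C, C', hne, hcps⟩ := card_eq_two.mp hnum
    have hC : C ∈ cps b U := by rw [hcps]; simp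
    have hC' : C' ∈ cps b U := by rw [hcps]; simp
    obtain ⟨x, y, z, hxy, hxz, hyz, hS⟩ := card_eq_three.mp hSc
    push_cast at hle
    have hns1 : 1 ≤ (ins b V U).card := by omega
    have hns2 : (ins b V U).card ≤ 2 := by omega
    have hle2 : ∑ C ∈ cps b U, (hh b C - ((sp b V ∩ C).card : ℤ)) ≤
        4 - 2 * ((ins b V U).card : ℤ) := by
      omega
    have hsum2 : (hh b C - ((sp b V ∩ C).card : ℤ)) + (hh b C' - ((sp b V ∩ C').card : ℤ)) ≤
        4 - 2 * (ins b V U).card := by
      rwa [hcps, sum_pair hne] at hle2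
    have e0 := hnn C hC
    have e0' := hnn C' hC'
    have hdg : ∀ w ∈ V \ U, 5 ≤ dg b {w} C + dg b {w} C' + (ins b V U).card := by
      intro w hw
      have h1 := hdeg w hw
      rwa [hcps, sum_pair hne] at h1
    have hcps' : cps b U = {C', C} := by rw [hcps, pair_comm]
    have hmem : ∀ w, w ∈ V \ U ↔ w = x ∨ w = y ∨ w = z := by
      intro w
      rw [hS, mem_insert, mem_insert, mem_singleton]
    have hx := (hmem x).mpr (Or.inl rfl)
    have hy := (hmem y).mpr (Or.inr (Or.inl rfl))
    have hz := (hmem z).mpr (Or.inr (Or.inr rfl))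
    -- the case of a component that is not attached to a point
    have caseZ : ∀ D D' : Finset α, cps b U = {D, D'} → D ≠ D' → ∀ x y z : α,
        V \ U = {x, y, z} → x ≠ y → x ≠ z → y ≠ z → dg b {z} D = 0 → False := by
      intro D D' hcps hne x y z hS hxy hxz hyz h0
      have hD : D ∈ cps b U := by rw [hcps]; simp
      have hD' : D' ∈ cps b U := by rw [hcps]; simp
      have hmem : ∀ w, w ∈ V \ U ↔ w = x ∨ w = y ∨ w = z := by
        intro w
        rw [hS, mem_insert, mem_insert, mem_singleton]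
      have hx := (hmem x).mpr (Or.inl rfl)
      have hy := (hmem y).mpr (Or.inr (Or.inl rfl))
      have hz := (hmem z).mpr (Or.inr (Or.inr rfl))
      have hdg : ∀ w ∈ V \ U, 5 ≤ dg b {w} D + dg b {w} D' + (ins b V U).card := by
        intro w hw
        have h1 := hdeg w hw
        rwa [hcps, sum_pair hne] at h1
      have hatt : ∀ v, ∃ w ∈ V \ U, w ≠ v ∧ Aj b w D := fun v =>
        h.att hcb hcon hvc hD v
      have hxD : 1 ≤ dg b {x} D := by
        obtain ⟨w, hw, hwv, hwa⟩ := hatt y
        rcases (hmem w).mp hw with h1 | h1 | h1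
        · rw [← h1]
          exact aj_dg hwa
        · exact absurd h1 hwv
        · have := aj_dg hwa
          rw [h1] at this
          omega
      have hyD : 1 ≤ dg b {y} D := by
        obtain ⟨w, hw, hwv, hwa⟩ := hatt x
        rcases (hmem w).mp hw with h1 | h1 | h1
        · exact absurd h1 hwv
        · rw [← h1]
          exact aj_dg hwa
        · have := aj_dg hwa
          rw [h1] at this
          omega
      have hxx := hdg x hx
      have hyy := hdg y hy
      have hzz := hdg z hz
      rw [h0] at hzz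
      have hzD' : 1 ≤ dg b {z} D' := by omega
      have hcps' : cps b U = {D', D} := by rw [hcps, pair_comm]
      have hSxzy : V \ U = {x, z, y} := by
        ext w
        rw [hmem, mem_insert, mem_insert, mem_singleton]
        tauto
      have hSyzx : V \ U = {y, z, x} := by
        ext w
        rw [hmem, mem_insert, mem_insert, mem_singleton]
        tauto
      have hsum2 : (hh b D - ((sp b V ∩ D).card : ℤ)) + (hh b D' - ((sp b V ∩ D').card : ℤ)) ≤
          4 - 2 * (ins b V U).card := by
        rwa [hcps, sum_pair hne] at hle2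
      refine arith_zero (e := hh b D - ((sp b V ∩ D).card : ℤ))
        (e' := hh b D' - ((sp b V ∩ D').card : ℤ)) (z' := dg b {z} D') hxD hyD hxx hyy (by omega) hns2 hns1 hsum2
        (hnn D hD) (hnn D' hD') ?_ ?_ ?_
      · intro a c ha hac hc hax hcy
        have := h.two hsys hIH hcps hne hS hxy hzD' ha hac hc hax hcy
        linarith
      · intro a c ha hac hc hax hcy
        have := h.two hsys hIH hcps' hne.symm hSxzy hxz hyD ha hac hc hax hcy
        linarith
      · intro a c ha hac hc hax hcy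
        have := h.two hsys hIH hcps' hne.symm hSyzx hyz hxD ha hac hc hax hcy
        linarith
    have hSxzy : V \ U = {x, z, y} := by
      ext w
      rw [hmem, mem_insert, mem_insert, mem_singleton]
      tauto
    have hSyzx : V \ U = {y, z, x} := by
      ext w
      rw [hmem, mem_insert, mem_insert, mem_singleton]
      tauto
    have hSzxy : V \ U = {z, x, y} := by
      ext w
      rw [hmem, mem_insert, mem_insert, mem_singleton]
      tauto
    have pos : ∀ D D' : Finset α, cps b U = {D, D'} → D ≠ D' → 1 ≤ dg b {x} D ∧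
        1 ≤ dg b {y} D ∧ 1 ≤ dg b {z} D := by
      intro D D' hcps hne
      refine ⟨?_, ?_, ?_⟩
      · by_contra h1
        exact caseZ D D' hcps hne y z x hSyzx hyz hxy.symm hxz.symm (by omega)
      · by_contra h1
        exact caseZ D D' hcps hne x z y hSxzy hxz hxy hyz.symm (by omega)
      · by_contra h1
        exact caseZ D D' hcps hne x y z hS hxy hxz hyz (by omega)
    obtain ⟨px, py, pz⟩ := pos C C' hcps hne
    obtain ⟨px', py', pz'⟩ := pos C' C hcps' hne.symm
    refine arith_pos (e := hh b C - ((sp b V ∩ C).card : ℤ))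
      (e' := hh b C' - ((sp b V ∩ C').card : ℤ)) px py pz px' py' pz' (hdg x hx) (hdg y hy)
      (hdg z hz) hns2 hns1 hsum2 e0 e0' ?_ ?_ ?_ ?_ ?_ ?_
    · intro a c ha hac hc hax hcy
      have := h.three hsys hIH hcps hne hS hxy hxz px' py' pz' ha hac hc hax hcy
      linarith
    · intro a c ha hac hc hax hcy
      have := h.three hsys hIH hcps hne hSyzx hyz hxy.symm py' pz' px' ha hac hc hax hcy
      linarith
    · intro a c ha hac hc hax hcy
      have := h.three hsys hIH hcps hne hSzxy hxz.symm hyz.symm pz' px' py' ha hac hc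
        hax hcy
      linarith
    · intro a c ha hac hc hax hcy
      have := h.three hsys hIH hcps' hne.symm hS hxy hxz px py pz ha hac hc hax hcy
      linarith
    · intro a c ha hac hc hax hcy
      have := h.three hsys hIH hcps' hne.symm hSyzx hyz hxy.symm py pz px ha hac hc
        hax hcy
      linarith
    · intro a c ha hac hc hax hcy
      have := h.three hsys hIH hcps' hne.symm hSzxy hxz.symm hyz.symm pz px py ha hac hc
        hax hcy
      linarith

/-- **Theorem K for critical connected systems.** -/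
theorem thmG : ∀ n, IHG n := by
  intro n
  induction n with
  | zero => exact fun α ι _ _ _ b U _ h => absurd h (Nat.not_lt_zero _)
  | succ n ih =>
    intro α ι _ _ _ b U hne h hsys hcon hvc
    rcases Nat.lt_or_ge U.card n with h1 | h1
    · exact ih α ι b U hne h1 hsys hcon hvc
    · have h2 : U.card = n := by omega
      exact G_step hsys hne hcon hvc (by rw [h2]; exact ih)

/-- in words: `2 n + 5 m - 17 tau + 3 ≥ s` -/
theorem thmG' {b : ι → Finset α} {U : Finset α} (hne : U.Nonempty) (hsys : Sys b U)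
    (hcon : Con b U) (hvc : Vc b U) : ((sp b U).card : ℤ) ≤ hh b U :=
  thmG (U.card + 1) α ι b U hne (by omega) hsys hcon hvc

end Pool.Agent.Helper34.C5
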