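import Pool.Agent.Helper34.C5.End4
import Pool.Agent.Helper34.C5.ThmG

/-!
# The statement of the three levels from the statement for `f = 0`
-/

set_option linter.unusedSectionVars false
set_option autoImplicit false

open Finset
open Pool.Agent.Helper20.C5 Pool.Agent.Helper74.C5

namespace Pool.Agent.Helper34.C5

/-- the statement for critical connected systems with `2 tau = m` -/
def C34V : Prop :=
  ∀ (α ι : Type) [DecidableEq α] [DecidableEq ι] [Fintype ι] (b : ι → Finset α) (U : Finset α),
    U.Nonempty → Sys b U → Con b U → Vc b U → 2 * tau b U = U.card → ¬ Dt b U →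
    0 ≤ 34 * (ee b U - ((sp b U).card : ℤ)) + 3 * U.card

/-- the statement of the three levels for systems with less than `n` points -/
def IL (n : ℕ) : Prop :=
  ∀ (α ι : Type) [DecidableEq α] [DecidableEq ι] [Fintype ι] (b : ι → Finset α) (U : Finset α),
    U.Nonempty → U.card < n → Sys b U → Con b U → 0 ≤ Ps b U ∨ Dt b U ∨ T3 b U

variable {α ι : Type} [DecidableEq α] [DecidableEq ι] [Fintype ι]

theorem Sys.to4 {b : ι → Finset α} {U : Finset α} (h : Sys b U) : Sys4 b U :=
  ⟨h.deg, fun i => (h.sz i).trans (by norm_num)⟩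

/-- slots and singletons -/
theorem n1_slots {b : ι → Finset α} {U : Finset α} (h : Sys b U) :
    2 * n1 b U + 5 * U.card ≤ 3 * nb b U := by
  have h1 := sum4 (Sys.to4 h)
  have h2 : n1 b U = ∑ i ∈ mt b U, if (b i ∩ U).card = 1 then 1 else 0 := by
    unfold n1
    rw [← card_filter]
    congr 1
    ext i
    rw [mem_filter, mem_filter]
    constructor
    · rintro ⟨-, h3⟩
      exact ⟨mt_card_pos.mpr (by omega), h3⟩
    · rintro ⟨-, h3⟩
      exact ⟨mem_univ _, h3⟩
  have h3 : ∑ i ∈ mt b U, (2 * (if (b i ∩ U).card = 1 then 1 else 0) + (b i ∩ U).card) ≤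
      ∑ _i ∈ mt b U, 3 := by
    apply sum_le_sum
    intro i _
    have h4 := h.sz i
    split_ifs with h5
    · omega
    · omega
  rw [sum_add_distrib, ← mul_sum, ← h2, h1, sum_const, smul_eq_mul] at h3
  unfold nb
  omega

/-- all points of a counterexample are critical -/
theorem vc_of_neg {b : ι → Finset α} {V : Finset α} (hI : IL V.card) (h : Sys b V)
    (hc : Con b V) (hneg : Ps b V < 0) : Vc b V := by
  classical
  intro v hv
  have hcb := h.cb
  by_contra hcon
  have h1 := tau_erase_le hcb hv
  have h2 := tau_mono hcb (erase_subset v V)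
  have h3 : tau b (V \ {v}) = tau b V := by
    rw [sdiff_singleton_eq_erase]
    omega
  have hvV : ({v} : Finset α) ⊆ V := singleton_subset_iff.mpr hv
  have h4 := Ps_rem b hvV
  rw [h3, sub_self, mul_zero, card_singleton] at h4
  have h5 : (in1 b V {v}).card ≤ (inn b V {v}).card := card_le_card in1_sub
  -- the components
  have hT : (({v} : Finset α) ∩ V).Nonempty := ⟨v, mem_inter.mpr ⟨mem_singleton_self v, hv⟩⟩
  have hTe : ({v} : Finset α) ∩ V = {v} := inter_eq_left.mpr hvV
  have h6 : (cps b (V \ {v})).card ≤ 5 := by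
    rw [← h.deg v hv]
    apply cps_card_le (Subset.refl _)
    intro C hC
    obtain ⟨j, hj1, hj2⟩ := att hc hT hC
    rw [hTe] at hj2
    obtain ⟨y, hy, hyj⟩ := mem_mt.mp hj2
    rw [mem_singleton.mp hy] at hyj
    exact ⟨j, mem_filter.mpr ⟨mem_univ _, hyj⟩, hj1⟩
  have h7 : (-10 : ℤ) * ((cps b (V \ {v})).card : ℤ) ≤ Ps b (V \ {v}) := by
    rw [Ps_cps (hcb.mono sdiff_subset)]
    have h8 : ∑ _C ∈ cps b (V \ {v}), (-10 : ℤ) ≤ ∑ C ∈ cps b (V \ {v}), Ps b C := by
      apply sum_le_sum
      intro C hC
      have hCs := cps_sub hC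
      have hsC : Sys b C := h.mono (hCs.trans sdiff_subset)
      have hlt : C.card < V.card := by
        have h9 := card_le_card hCs
        have h10 := card_sdiff_add_card_eq_card hvV
        rw [card_singleton] at h10
        omega
      rcases hI α ι b C (cps_ne hC) hlt hsC (cps_con hC) with h9 | h9 | h9
      · omega
      · rw [dt_ps (Sys.to4 hsC) h9]
      · rw [t3_ps (Sys.to4 hsC) h9]
        norm_num
    rw [sum_const, nsmul_eq_mul] at h8
    linarith
  omega

theorem il_step (hC : C34V) {b : ι → Finset α} {V : Finset α} (hI : IL V.card)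
    (hne : V.Nonempty) (h : Sys b V) (hc : Con b V) : 0 ≤ Ps b V ∨ Dt b V ∨ T3 b V := by
  by_contra hcon
  rw [not_or, not_or, not_le] at hcon
  obtain ⟨hneg, hD, hT⟩ := hcon
  have hv := vc_of_neg hI h hc hneg
  have h1 := thmG' hne h hc hv
  have h2 := n1_slots h
  have h3 : (0 : ℤ) ≤ ((sp b V).card : ℤ) := Int.natCast_nonneg _
  have h4 : 0 < V.card := card_pos.mpr hne
  unfold hh ee at h1
  unfold Ps Ph at hneg
  by_cases h0 : 2 * tau b V = V.card
  · have h5 := hC α ι b V hne h hc hv h0 hD
    unfold ee at h5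
    have h6 : 2 * (tau b V : ℤ) = (V.card : ℤ) := by exact_mod_cast h0
    have h7 : 2 * (n1 b V : ℤ) + 5 * (V.card : ℤ) ≤ 3 * (nb b V : ℤ) := by exact_mod_cast h2
    have h8 : (0 : ℤ) ≤ (n1 b V : ℤ) := Int.natCast_nonneg _
    linarith
  · by_cases h5 : 2 * tau b V = V.card + 1
    · have h7 : tau b V ≤ 3 := by omega
      have h8 : tau b V = 1 ∨ tau b V = 2 ∨ tau b V = 3 := by omega
      have h6 : V.card = 3 ∧ nb b V = 8 ∧ tau b V = 2 := by
        rcases h8 with h8 | h8 | h8
        · omega
        · refine ⟨by omega, ?_, h8⟩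
          have h9 : nb b V ≤ 8 := by omega
          omega
        · omega
      exact hT h6
    · have h6 : V.card + 2 ≤ 2 * tau b V ∨ 2 * tau b V + 1 ≤ V.card := by omega
      rcases h6 with h6 | h6
      · omega
      · omega

theorem sl_of (hC : C34V) : SL := by
  have key : ∀ n, IL n := by
    intro n
    induction n with
    | zero => exact fun α ι _ _ _ b U _ h => absurd h (Nat.not_lt_zero _)
    | succ n ih =>
      intro α ι _ _ _ b U hne hU hs hc
      rcases Nat.lt_or_ge U.card n with h1 | h1
      · exact ih α ι b U hne h1 hs hc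
      · have h2 : U.card = n := by omega
        exact il_step hC (by rw [h2]; exact ih) hne hs hc
  intro α ι _ _ _ b U hne hs hc
  exact key (U.card + 1) α ι b U hne (by omega) hs hc

end Pool.Agent.Helper34.C5
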