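import Mathlib

/-!
# A consequence of Hall's theorem
-/

set_option linter.unusedSectionVars false
set_option autoImplicit false

open Finset

namespace Pool.Agent.Helper34.C5

variable {α : Type} [DecidableEq α]

theorem hall3 {κ : Type} [DecidableEq κ] (B : Finset α) (hB : B.card = 4) (S : Finset κ)
    (P : κ → Finset α) (hP : ∀ K ∈ S, P K ⊆ B) (hP2 : ∀ K ∈ S, 2 ≤ (P K).card)
    (h6 : ∀ l ∈ B, ∃ g : α → κ, ∀ K ∈ S, l ∈ P K → ∃ i ∈ P K, i ≠ l ∧ g i = K)
    (hno : ¬ ∃ f : α → κ, (∀ i ∈ B, f i ∈ S ∧ i ∈ P (f i)) ∧ Set.InjOn f B) : S.card ≤ 3 := by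
  classical
  by_contra hcon
  have hS : 4 ≤ S.card := by omega
  have hne : Nonempty κ := by
    obtain ⟨K, -⟩ := card_pos.mp (show 0 < S.card by omega)
    exact ⟨K⟩
  let t : {x // x ∈ B} → Finset κ := fun i => S.filter fun K => (i : α) ∈ P K
  have h1 : ¬ ∀ s : Finset {x // x ∈ B}, s.card ≤ (s.biUnion t).card := by
    intro hall
    obtain ⟨f, hf, hf2⟩ := (Finset.all_card_le_biUnion_card_iff_exists_injective t).mp hall
    apply hno
    refine ⟨fun x => if h : x ∈ B then f ⟨x, h⟩ else hne.some, ?_, ?_⟩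
    · intro i hi
      have h2 := hf2 ⟨i, hi⟩
      have h3 := mem_filter.mp h2
      simp only [dif_pos hi]
      exact h3
    · intro x hx y hy hxy
      have hx' : x ∈ B := hx
      have hy' : y ∈ B := hy
      simp only [dif_pos hx', dif_pos hy'] at hxy
      have := hf hxy
      exact congrArg Subtype.val this
  rw [not_forall] at h1
  obtain ⟨s, hs⟩ := h1
  rw [not_le] at hs
  let s' : Finset α := s.map (Function.Embedding.subtype _)
  have hs' : s'.card = s.card := card_map _
  have hs'B : s' ⊆ B := by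
    intro x hx
    obtain ⟨y, -, rfl⟩ := mem_map.mp hx
    exact y.2
  let T := B \ s'
  have hT : T.card + s'.card = 4 := by
    rw [← hB]
    exact card_sdiff_add_card_eq_card hs'B
  let R := S \ s.biUnion t
  have hR : S.card ≤ R.card + (s.biUnion t).card := by
    have := card_le_card_sdiff_add_card (s := S) (t := s.biUnion t)
    exact this
  have hPT : ∀ K ∈ R, P K ⊆ T := by
    intro K hK x hx
    have hK' := mem_sdiff.mp hK
    refine mem_sdiff.mpr ⟨hP K hK'.1 hx, fun hxs => hK'.2 ?_⟩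
    obtain ⟨y, hy, rfl⟩ := mem_map.mp hxs
    exact mem_biUnion.mpr ⟨y, hy, mem_filter.mpr ⟨hK'.1, hx⟩⟩
  -- double counting
  have hd : ∑ K ∈ R, (P K).card = ∑ l ∈ T, (R.filter fun K => l ∈ P K).card := by
    have e1 : ∀ K ∈ R, (P K).card = ∑ l ∈ T, if l ∈ P K then 1 else 0 := by
      intro K hK
      rw [← card_filter]
      congr 1
      ext x
      rw [mem_filter]
      exact ⟨fun h => ⟨hPT K hK h, h⟩, fun h => h.2⟩
    rw [sum_congr rfl e1, sum_comm]
    apply sum_congr rfl
    intro l _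
    rw [card_filter]
  have hlow : 2 * R.card ≤ ∑ K ∈ R, (P K).card := by
    have : ∑ _K ∈ R, 2 ≤ ∑ K ∈ R, (P K).card :=
      sum_le_sum fun K hK => hP2 K (mem_sdiff.mp hK).1
    rw [sum_const, smul_eq_mul, mul_comm] at this
    exact this
  have hup : ∑ l ∈ T, (R.filter fun K => l ∈ P K).card ≤ T.card * (T.card - 1) := by
    have : ∀ l ∈ T, (R.filter fun K => l ∈ P K).card ≤ T.card - 1 := by
      intro l hl
      obtain ⟨g, hg⟩ := h6 l (mem_sdiff.mp hl).1
      have h2 : (R.filter fun K => l ∈ P K) ⊆ (T.erase l).image g := by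
        intro K hK
        rw [mem_filter] at hK
        obtain ⟨i, hi, hil, hgi⟩ := hg K (mem_sdiff.mp hK.1).1 hK.2
        exact mem_image.mpr ⟨i, mem_erase.mpr ⟨hil, hPT K hK.1 hi⟩, hgi⟩
      have h3 := (card_le_card h2).trans card_image_le
      rwa [card_erase_of_mem hl] at h3
    refine (sum_le_sum this).trans ?_
    rw [sum_const, smul_eq_mul]
  have hTlt : T.card ≤ 3 := by
    by_contra h2
    have h3 : s.card = 0 := by omega
    omega
  have hRc : T.card + 1 ≤ R.card := by omega
  rw [hd] at hlow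
  have h5 := hlow.trans hup
  interval_cases h : T.card <;> omega

end Pool.Agent.Helper34.C5
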