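import Pool.Agent.Helper34.C5.Typ
import Pool.Agent.Helper34.C5.Hall

/-!
# A minimal counterexample and a block with four points: F3 to F8
-/

set_option linter.unusedSectionVars false
set_option autoImplicit false

open Finset
open Pool.Agent.Helper20.C5

namespace Pool.Agent.Helper34.C5

variable {α ι : Type} [DecidableEq α] [DecidableEq ι] [Fintype ι]

/-- a minimal counterexample -/
structure MC (b : ι → Finset α) (V : Finset α) : Prop where
  sys : Sys4 b V
  con : Con b V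
  ne : V.Nonempty
  ih : IH4 V.card
  neg : Ps b V < 0
  nD : ¬ Dt b V
  nT : ¬ T3 b V
  nE : ¬ E4 b V

theorem cv_biUnion {κ : Type} [DecidableEq κ] {b : ι → Finset α} (S : Finset κ)
    (f : κ → Finset α) (g : κ → ℕ) (h : ∀ K ∈ S, Cv b (f K) (g K)) :
    Cv b (S.biUnion f) (∑ K ∈ S, g K) := by
  induction S using Finset.induction_on with
  | empty =>
    rw [biUnion_empty, sum_empty]
    exact ⟨∅, by simp, fun x hx => absurd hx (notMem_empty x)⟩
  | insert K S hK ih =>
    rw [biUnion_insert, sum_insert hK]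
    exact cv_union (h K (mem_insert_self _ _)) (ih fun K' hK' => h K' (mem_insert_of_mem hK'))

section

variable {b : ι → Finset α} {V : Finset α}

theorem MC.sat (h : MC b V) {i : ι} (hi : i ∈ mt b V) : tau b (V \ b i) + 1 = tau b V :=
  f1' h.ih h.sys h.con le_rfl (by have := h.neg; omega) hi

theorem MC.lt {W : Finset α} (hW : W ⊆ V) {x : α} (hx : x ∈ V) (hxW : x ∉ W) :
    W.card < V.card := card_lt_card ⟨hW, fun h => hxW (h hx)⟩

/-- **F3** -/
theorem MC.f3 (h : MC b V) {v : α} (hv : v ∈ V) {N : Finset α} (hN : N ∈ cps b (V \ {v})) :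
    0 ≤ Ps b N := by
  by_contra hcon
  have hNs := cps_sub hN
  have hNV : N ⊆ V := hNs.trans sdiff_subset
  have hvN : v ∉ N := fun h => (mem_sdiff.mp (hNs h)).2 (mem_singleton_self v)
  have hT : (({v} : Finset α) ∩ V).Nonempty := ⟨v, mem_inter.mpr ⟨mem_singleton_self v, hv⟩⟩
  obtain ⟨i, hi, hiv⟩ := att h.con hT hN
  rw [inter_eq_left.mpr (singleton_subset_iff.mpr hv)] at hiv
  obtain ⟨y, hy, hyi⟩ := mem_mt.mp hiv
  rw [mem_singleton.mp hy] at hyi
  have hlt := MC.lt hNV hv hvN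
  have h1 := f1' h.ih (h.sys.mono hNV) (cps_con hN) hlt.le (by omega) hi
  have h2 := absb (h.sys.mono hNV).cb h1 (singleton_subset_iff.mpr hyi)
  have h3 := Pool.Agent.Helper34.C5.f3 h.ih h.sys h.con le_rfl hv hN h2
  have h4 := h.ih.ge10 (cps_ne hN) hlt (h.sys.mono hNV) (cps_con hN)
  have := h.neg
  omega

/-- **F4** -/
theorem MC.f4 (h : MC b V) {v : α} (hv : v ∈ V) : tau b (V \ {v}) + 1 = tau b V := by
  have hc := h.sys.cb
  have h1 := tau_erase_le hc hv
  rw [← sdiff_singleton_eq_erase] at h1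
  have h2 := tau_mono hc (sdiff_subset (s := V) (t := {v}))
  by_contra hcon
  have h3 : tau b (V \ {v}) = tau b V := by omega
  have h4 := Ps_rem b (singleton_subset_iff.mpr hv)
  rw [h3, sub_self, mul_zero, card_singleton] at h4
  have h5 : 0 ≤ Ps b (V \ {v}) := by
    rw [Ps_cps (hc.mono sdiff_subset)]
    exact sum_nonneg fun N hN => h.f3 hv hN
  have h6 : ((in1 b V {v}).card : ℤ) ≤ ((inn b V {v}).card : ℤ) := by
    exact_mod_cast card_le_card in1_sub
  have h7 : (0 : ℤ) ≤ ((nw b V {v}).card : ℤ) := Int.natCast_nonneg _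
  have h8 : (0 : ℤ) ≤ ((in1 b V {v}).card : ℤ) := Int.natCast_nonneg _
  have := h.neg
  push_cast at h4
  linarith

/-! ## A block with four points -/

/-- the points of the block which are attached to `K` -/
def PK (b : ι → Finset α) (V : Finset α) (i : ι) (K : Finset α) : Finset α :=
  (b i ∩ V).filter fun x => ∃ j ∈ mt b K, x ∈ b j

theorem mem_PK {b : ι → Finset α} {V K : Finset α} {i : ι} {x : α} :
    x ∈ PK b V i K ↔ (x ∈ b i ∧ x ∈ V) ∧ ∃ j ∈ mt b K, x ∈ b j := by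
  unfold PK
  rw [mem_filter, mem_inter]

theorem sub_of_cps {i : ι} {K : Finset α} (hK : K ∈ cps b (V \ b i)) : K ⊆ V :=
  (cps_sub hK).trans sdiff_subset

theorem notMem_of_cps {i : ι} {K : Finset α} (hK : K ∈ cps b (V \ b i)) {x : α} (hx : x ∈ b i) :
    x ∉ K := fun h => (mem_sdiff.mp (cps_sub hK h)).2 hx

theorem MC.ltK (h : MC b V) {i : ι} (hi : i ∈ mt b V) {K : Finset α}
    (hK : K ∈ cps b (V \ b i)) : K.card < V.card := by
  obtain ⟨x, hx, hxi⟩ := mem_mt.mp hi
  exact MC.lt (sub_of_cps hK) hx (notMem_of_cps hK hxi)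

/-- a component which is attached to one point only -/
theorem comp_of_P {i : ι} {K : Finset α} (hK : K ∈ cps b (V \ b i)) {x : α} (hx : x ∈ b i)
    (hP : PK b V i K ⊆ {x}) : K ∈ cps b (V \ {x}) := by
  have hKV := sub_of_cps hK
  have hxK := notMem_of_cps hK hx
  refine mem_cps_of ?_ (cps_ne hK) (cps_con hK) ?_
  · intro y hy
    rw [mem_sdiff, mem_singleton]
    exact ⟨hKV hy, fun h => hxK (h ▸ hy)⟩
  · intro j y hy z hz hyj hzj
    rw [mem_sdiff, mem_sdiff, mem_singleton] at hz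
    by_cases hzi : z ∈ b i
    · have : z ∈ PK b V i K := mem_PK.mpr ⟨⟨hzi, hz.1.1⟩, j, mem_mt.mpr ⟨y, hy, hyj⟩, hzj⟩
      exact hz.1.2 (mem_singleton.mp (hP this))
    · exact cps_sep hK j y hy z (mem_sdiff.mpr ⟨mem_sdiff.mpr ⟨hz.1.1, hzi⟩, hz.2⟩) hyj hzj

theorem MC.PK_ne (h : MC b V) {i : ι} (hi : i ∈ mt b V) {K : Finset α}
    (hK : K ∈ cps b (V \ b i)) : ∃ x, x ∈ PK b V i K := by
  have hT : (b i ∩ V).Nonempty := by
    obtain ⟨x, hx, hxi⟩ := mem_mt.mp hi
    exact ⟨x, mem_inter.mpr ⟨hxi, hx⟩⟩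
  obtain ⟨j, hj, hj2⟩ := att h.con hT hK
  obtain ⟨x, hx, hxj⟩ := mem_mt.mp hj2
  exact ⟨x, mem_PK.mpr ⟨mem_inter.mp hx, j, hj, hxj⟩⟩

/-- negative components are attached to two points -/
theorem MC.PK2 (h : MC b V) {i : ι} (hi : i ∈ mt b V) {K : Finset α}
    (hK : K ∈ cps b (V \ b i)) (hneg : Ps b K < 0) : 2 ≤ (PK b V i K).card := by
  by_contra hcon
  obtain ⟨x, hx⟩ := h.PK_ne hi hK
  have h1 : PK b V i K ⊆ {x} := by
    intro y hy
    rw [mem_singleton]
    exact card_le_one.mp (by omega) y hy x hx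
  have hxi := (mem_PK.mp hx).1
  have := h.f3 hxi.2 (comp_of_P hK hxi.1 h1)
  omega

/-- components with `Ps < 56` are saturated -/
theorem MC.satK (h : MC b V) {i : ι} (hi : i ∈ mt b V) {K : Finset α}
    (hK : K ∈ cps b (V \ b i)) (hlt : Ps b K < 56) {j : ι} (hj : j ∈ mt b K) :
    tau b (K \ b j) + 1 = tau b K :=
  f1' h.ih (h.sys.mono (sub_of_cps hK)) (cps_con hK) (h.ltK hi hK).le hlt hj

/-- the block is not saved -/
theorem MC.save (h : MC b V) {i : ι} (hi : i ∈ mt b V) (φ : α → Finset α)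
    (hφ : ∀ x ∈ b i ∩ V, φ x ∈ cps b (V \ b i))
    (hA : ∀ K ∈ cps b (V \ b i), Cv b (K ∪ (b i ∩ V).filter fun x => φ x = K) (tau b K)) :
    False := by
  have h1 := cv_biUnion (cps b (V \ b i)) (fun K => K ∪ (b i ∩ V).filter fun x => φ x = K)
    (fun K => tau b K) hA
  rw [← tau_cps (h.sys.cb.mono (sdiff_subset (s := V) (t := b i)))] at h1
  have h2 : V ⊆ (cps b (V \ b i)).biUnion fun K => K ∪ (b i ∩ V).filter fun x => φ x = K := by
    intro x hx
    rw [mem_biUnion]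
    by_cases hxi : x ∈ b i
    · have h3 : x ∈ b i ∩ V := mem_inter.mpr ⟨hxi, hx⟩
      exact ⟨φ x, hφ x h3, mem_union_right _ (mem_filter.mpr ⟨h3, rfl⟩)⟩
    · have h3 : x ∈ V \ b i := mem_sdiff.mpr ⟨hx, hxi⟩
      exact ⟨Cmp b (V \ b i) x, mem_cps.mpr ⟨x, h3, rfl⟩, mem_union_left _ (self_Cmp h3)⟩
  have h3 := tau_le (h1.mono h2 le_rfl)
  have h4 := h.sat hi
  omega

/-- **F6** -/
theorem MC.f6 (h : MC b V) {i : ι} {l : α} (hl : l ∈ b i ∩ V) :
    ∃ g : α → Finset α, (∀ x ∈ b i ∩ V, x ≠ l → g x ∈ cps b (V \ b i) ∧ x ∈ PK b V i (g x)) ∧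
      ∀ K ∈ cps b (V \ b i), Cv b (K ∪ {l}) (tau b K) →
        ∃ x ∈ PK b V i K, x ≠ l ∧ g x = K := by
  classical
  have hlm := mem_inter.mp hl
  have hi : i ∈ mt b V := mem_mt.mpr ⟨l, hlm.2, hlm.1⟩
  have hc := h.sys.cb
  have hcU := hc.mono (sdiff_subset (s := V) (t := b i))
  have hτ : tau b (V \ {l}) = tau b (V \ b i) := by
    have h1 := h.f4 hlm.2
    have h2 := h.sat hi
    omega
  obtain ⟨s, hs, hcov⟩ := tau_cv (hc.mono (sdiff_subset (s := V) (t := {l})))
  rw [hτ, tau_cps hcU] at hs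
  have hK1 : ∀ K ∈ cps b (V \ b i), tau b K ≤ (s ∩ mt b K).card := by
    intro K hK
    apply tau_le
    refine ⟨s ∩ mt b K, le_rfl, fun x hx => ?_⟩
    have hxV : x ∈ V \ {l} := by
      rw [mem_sdiff, mem_singleton]
      exact ⟨sub_of_cps hK hx, fun h => notMem_of_cps hK hlm.1 (h ▸ hx)⟩
    obtain ⟨j, hj, hxj⟩ := hcov x hxV
    exact ⟨j, mem_inter.mpr ⟨hj, mem_mt.mpr ⟨x, hx, hxj⟩⟩, hxj⟩
  have hdis : ∀ K ∈ cps b (V \ b i), ∀ K' ∈ cps b (V \ b i), K ≠ K' →
      Disjoint (s ∩ mt b K) (s ∩ mt b K') := by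
    intro K hK K' hK' hne
    rw [disjoint_left]
    intro j hj hj'
    exact hne (cps_unique hK hK' (mem_inter.mp hj).2 (mem_inter.mp hj').2)
  have hbU : ((cps b (V \ b i)).biUnion fun K => s ∩ mt b K).card =
      ∑ K ∈ cps b (V \ b i), (s ∩ mt b K).card := card_biUnion hdis
  have hsub : ((cps b (V \ b i)).biUnion fun K => s ∩ mt b K) ⊆ s := by
    intro j hj
    obtain ⟨K, -, hj⟩ := mem_biUnion.mp hj
    exact (mem_inter.mp hj).1
  have hle := card_le_card hsub
  have hsum := sum_le_sum hK1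
  have heq : ((cps b (V \ b i)).biUnion fun K => s ∩ mt b K) = s :=
    eq_of_subset_of_card_le hsub (by omega)
  have hKe : ∀ K ∈ cps b (V \ b i), (s ∩ mt b K).card = tau b K := by
    have h1 : ∑ K ∈ cps b (V \ b i), tau b K = ∑ K ∈ cps b (V \ b i), (s ∩ mt b K).card := by
      omega
    intro K hK
    exact ((sum_eq_sum_iff_of_le hK1).mp h1 K hK).symm
  have hex : ∀ x ∈ b i ∩ V, x ≠ l → ∃ K, K ∈ cps b (V \ b i) ∧ ∃ j ∈ s, j ∈ mt b K ∧ x ∈ b j := by
    intro x hx hxl
    obtain ⟨j, hj, hxj⟩ := hcov x (by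
      rw [mem_sdiff, mem_singleton]
      exact ⟨(mem_inter.mp hx).2, hxl⟩)
    rw [← heq] at hj
    obtain ⟨K, hK, hj⟩ := mem_biUnion.mp hj
    exact ⟨K, hK, j, (mem_inter.mp hj).1, (mem_inter.mp hj).2, hxj⟩
  have : Nonempty ι := ⟨i⟩
  choose! g hg f hf hfm hfx using hex
  refine ⟨g, fun x hx hxl => ⟨hg x hx hxl, mem_PK.mpr ⟨mem_inter.mp hx, f x, hfm x hx hxl,
    hfx x hx hxl⟩⟩, ?_⟩
  intro K hK hab
  by_contra hcon
  -- the other blocks and a cover of `K + l`
  obtain ⟨s', hs', hcov'⟩ := hab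
  have h1 : Cv b V (tau b (V \ b i)) := by
    refine ⟨(s \ mt b K) ∪ s', ?_, ?_⟩
    · refine (card_union_le _ _).trans ?_
      have h2 := card_sdiff_add_card_inter s (mt b K)
      have h3 := hKe K hK
      rw [tau_cps hcU]
      omega
    · intro x hx
      by_cases hxl : x = l
      · obtain ⟨j, hj, hxj⟩ := hcov' x (by
          rw [hxl]
          exact mem_union_right _ (mem_singleton_self l))
        exact ⟨j, mem_union_right _ hj, hxj⟩
      by_cases hxK : x ∈ K
      · obtain ⟨j, hj, hxj⟩ := hcov' x (mem_union_left _ hxK)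
        exact ⟨j, mem_union_right _ hj, hxj⟩
      by_cases hxi : x ∈ b i
      · have hx' : x ∈ b i ∩ V := mem_inter.mpr ⟨hxi, hx⟩
        refine ⟨f x, mem_union_left _ (mem_sdiff.mpr ⟨hf x hx' hxl, fun h2 => ?_⟩),
          hfx x hx' hxl⟩
        apply hcon
        have h3 : g x = K := cps_unique (hg x hx' hxl) hK (hfm x hx' hxl) h2
        refine ⟨x, ?_, hxl, h3⟩
        rw [← h3]
        exact mem_PK.mpr ⟨⟨hxi, hx⟩, f x, hfm x hx' hxl, hfx x hx' hxl⟩
      · obtain ⟨j, hj, hxj⟩ := hcov x (by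
          rw [mem_sdiff, mem_singleton]
          exact ⟨hx, hxl⟩)
        refine ⟨j, mem_union_left _ (mem_sdiff.mpr ⟨hj, fun h2 => ?_⟩), hxj⟩
        obtain ⟨y, hy, hyj⟩ := mem_mt.mp h2
        exact cps_sep hK j y hy x (mem_sdiff.mpr ⟨mem_sdiff.mpr ⟨hx, hxi⟩, hxK⟩) hyj hxj
  have h2 := tau_le h1
  have h3 := h.sat hi
  omega

/-- **F7** for a set of components -/
theorem MC.f7 (h : MC b V) {i : ι} (h4 : (b i ∩ V).card = 4) {S : Finset (Finset α)}
    (hS : S ⊆ cps b (V \ b i)) (hlt : ∀ K ∈ S, Ps b K < 56)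
    (hP : ∀ K ∈ S, 2 ≤ (PK b V i K).card) : S.card ≤ 3 := by
  classical
  have hi : i ∈ mt b V := mt_card_pos.mpr (by omega)
  have habs : ∀ K ∈ S, ∀ x ∈ PK b V i K, Cv b (K ∪ {x}) (tau b K) := by
    intro K hK x hx
    obtain ⟨-, j, hj, hxj⟩ := mem_PK.mp hx
    exact absb (h.sys.mono (sub_of_cps (hS hK))).cb (h.satK hi (hS hK) (hlt K hK) hj)
      (singleton_subset_iff.mpr hxj)
  apply hall3 (b i ∩ V) h4 S (PK b V i)
  · intro K _
    exact filter_subset _ _
  · exact hP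
  · intro l hl
    obtain ⟨g, -, hg⟩ := h.f6 hl
    exact ⟨g, fun K hK hlK => hg K (hS hK) (habs K hK l hlK)⟩
  · rintro ⟨f, hf, hinj⟩
    apply h.save hi f (fun x hx => hS (hf x hx).1)
    intro K hK
    rcases ((b i ∩ V).filter fun x => f x = K).eq_empty_or_nonempty with h0 | ⟨x, hx⟩
    · rw [h0, union_empty]
      exact tau_cv (h.sys.mono (sub_of_cps hK)).cb
    · rw [mem_filter] at hx
      have h1 : ((b i ∩ V).filter fun x => f x = K) = {x} := by
        ext y
        rw [mem_filter, mem_singleton]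
        constructor
        · rintro ⟨hy, hyK⟩
          exact hinj hy hx.1 (hyK.trans hx.2.symm)
        · rintro rfl
          exact hx
      rw [h1]
      have h2 := hf x hx.1
      rw [hx.2] at h2
      exact habs K h2.1 x h2.2

/-- the potential of a component with the true singletons -/
noncomputable def PsH (b : ι → Finset α) (V K : Finset α) : ℤ := Ph b K - ((in1 b V K).card : ℤ)

theorem in1_le {K : Finset α} (hK : K ⊆ V) : in1 b V K ⊆ univ.filter fun i => (b i ∩ K).card = 1 := by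
  intro j hj
  rw [mem_in1] at hj
  rw [mem_filter]
  refine ⟨mem_univ _, ?_⟩
  have h1 : b j ∩ K = b j ∩ V := by
    ext x
    rw [mem_inter, mem_inter]
    exact ⟨fun h => ⟨h.1, hK h.2⟩, fun h => ⟨h.1, hj.2 (mem_inter.mpr h)⟩⟩
  rw [h1]
  exact hj.1

theorem Ps_le_PsH {K : Finset α} (hK : K ⊆ V) : Ps b K ≤ PsH b V K := by
  have h1 : ((in1 b V K).card : ℤ) ≤ (n1 b K : ℤ) := by
    exact_mod_cast card_le_card (in1_le hK)
  unfold Ps PsH
  linarith

theorem in1_cps {W : Finset α} (hW : W ⊆ V) (hc : Cb b W) :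
    (in1 b V W).card = ∑ K ∈ cps b W, (in1 b V K).card := by
  apply sum_cps hc (fun K => (in1 b V K).card)
  · rw [card_eq_zero]
    ext j
    rw [mem_in1]
    constructor
    · rintro ⟨h1, h2⟩
      rw [subset_empty.mp h2, card_empty] at h1
      omega
    · exact fun h => absurd h (notMem_empty j)
  · intro A B _ _ hd _
    show (in1 b V (A ∪ B)).card = (in1 b V A).card + (in1 b V B).card
    rw [← card_union_of_disjoint]
    · congr 1
      ext j
      rw [mem_union, mem_in1, mem_in1, mem_in1]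
      constructor
      · rintro ⟨h1, h2⟩
        obtain ⟨x, hx⟩ := card_eq_one.mp h1
        rw [hx, singleton_subset_iff, mem_union] at h2
        rw [hx, singleton_subset_iff, singleton_subset_iff]
        exact h2.imp (fun h => ⟨card_singleton x, h⟩) (fun h => ⟨card_singleton x, h⟩)
      · rintro (⟨h1, h2⟩ | ⟨h1, h2⟩)
        · exact ⟨h1, h2.trans subset_union_left⟩
        · exact ⟨h1, h2.trans subset_union_right⟩
    · rw [disjoint_left]
      intro j hj hj2
      rw [mem_in1] at hj hj2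
      obtain ⟨x, hx⟩ := card_eq_one.mp hj.1
      rw [hx, singleton_subset_iff] at hj hj2
      exact (disjoint_left.mp hd) hj.2 hj2.2

/-- **F5** -/
theorem MC.f5 (h : MC b V) {i : ι} (h4 : (b i ∩ V).card = 4) :
    Ps b V = ∑ K ∈ cps b (V \ b i), PsH b V K + 44 * (((inn b V (b i ∩ V)).card : ℤ) - 1) -
      ((in1 b V (b i ∩ V)).card : ℤ) := by
  have hi : i ∈ mt b V := mt_card_pos.mpr (by omega)
  have hc := h.sys.cb
  have hcU := hc.mono (sdiff_subset (s := V) (t := b i))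
  have e1 : V \ (b i ∩ V) = V \ b i := by
    ext x
    simp only [mem_sdiff, mem_inter]
    tauto
  have h1 := h.sat hi
  have h2 := nb_rem b V (b i ∩ V)
  have h3 := card_rem (inter_subset_right : b i ∩ V ⊆ V)
  rw [e1] at h2 h3
  rw [h4] at h3
  have h5 : n1 b V = (in1 b V (V \ b i)).card + (in1 b V (b i ∩ V)).card := by
    unfold n1
    rw [← card_union_of_disjoint]
    · congr 1
      ext j
      rw [mem_union, mem_filter, mem_in1, mem_in1]
      constructor
      · rintro ⟨-, h6⟩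
        obtain ⟨x, hx⟩ := card_eq_one.mp h6
        have hxm : x ∈ b j ∩ V := by
          rw [hx]
          exact mem_singleton_self x
        rw [hx, singleton_subset_iff, singleton_subset_iff, mem_sdiff, mem_inter]
        have hxV := (mem_inter.mp hxm).2
        by_cases hxi : x ∈ b i
        · exact Or.inr ⟨card_singleton x, hxi, hxV⟩
        · exact Or.inl ⟨card_singleton x, hxV, hxi⟩
      · rintro (h6 | h6)
        · exact ⟨mem_univ _, h6.1⟩
        · exact ⟨mem_univ _, h6.1⟩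
    · rw [disjoint_left]
      intro j hj hj2
      rw [mem_in1] at hj hj2
      obtain ⟨x, hx⟩ := card_eq_one.mp hj.1
      rw [hx, singleton_subset_iff] at hj hj2
      exact (mem_sdiff.mp hj.2).2 (mem_inter.mp hj2.2).1
  have h6 : ∑ K ∈ cps b (V \ b i), PsH b V K = Ph b (V \ b i) - ((in1 b V (V \ b i)).card : ℤ) := by
    unfold PsH
    rw [sum_sub_distrib, ← Ph_cps hcU, in1_cps sdiff_subset hcU]
    push_cast
    rfl
  rw [h6]
  unfold Ps Ph
  rw [h2, h3, ← h1, h5]
  push_cast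
  ring

end

end Pool.Agent.Helper34.C5
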