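import Pool.Agent.Helper34.C5.Blk

/-!
# F8, the caps F9
-/

set_option linter.unusedSectionVars false
set_option autoImplicit false

open Finset
open Pool.Agent.Helper20.C5

namespace Pool.Agent.Helper34.C5

variable {α ι : Type} [DecidableEq α] [DecidableEq ι] [Fintype ι]

/-- the number of blocks at `x` which meet `K` -/
def aK (b : ι → Finset α) (K : Finset α) (x : α) : ℕ :=
  (univ.filter fun j => x ∈ b j ∧ j ∈ mt b K).card

section

variable {b : ι → Finset α} {V : Finset α}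

theorem MC.ge (h : MC b V) {i : ι} (h4 : (b i ∩ V).card = 4) {W : Finset α} (hW : W ⊆ V \ b i)
    (hWc : cps b W ⊆ cps b (V \ b i)) : -30 ≤ Ps b W := by
  have hi : i ∈ mt b V := mt_card_pos.mpr (by omega)
  obtain ⟨x, hx, hxi⟩ := mem_mt.mp hi
  have hlt : W.card < V.card :=
    MC.lt (hW.trans sdiff_subset) hx fun h2 => (mem_sdiff.mp (hW h2)).2 hxi
  have h1 := h.ih.sum_ge' hlt (h.sys.mono (hW.trans sdiff_subset)) 3 (by
    apply h.f7 h4
    · exact (filter_subset _ _).trans hWc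
    · intro K hK
      have := (mem_filter.mp hK).2
      omega
    · intro K hK
      rw [mem_filter] at hK
      exact h.PK2 hi (hWc hK.1) hK.2)
  norm_num at h1
  exact h1

theorem MC.sum_ge (h : MC b V) {i : ι} : Ps b (V \ b i) ≤ ∑ K ∈ cps b (V \ b i), PsH b V K := by
  rw [Ps_cps (h.sys.cb.mono sdiff_subset)]
  exact sum_le_sum fun K hK => Ps_le_PsH (sub_of_cps hK)

theorem MC.x0 (h : MC b V) {i : ι} (h4 : (b i ∩ V).card = 4) :
    (inn b V (b i ∩ V)).card = 1 ∧ (in1 b V (b i ∩ V)).card = 0 := by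
  have h1 := h.ge h4 (Subset.refl _) (Subset.refl _)
  have h2 := h.sum_ge (i := i)
  have h3 := h.f5 h4
  have hi : i ∈ inn b V (b i ∩ V) := mem_inn.mpr ⟨card_pos.mp (by omega), Subset.refl _⟩
  have h5 : 0 < (inn b V (b i ∩ V)).card := card_pos.mpr ⟨i, hi⟩
  have h6 : in1 b V (b i ∩ V) ⊆ (inn b V (b i ∩ V)).erase i := by
    intro j hj
    rw [mem_erase]
    refine ⟨?_, in1_sub hj⟩
    rintro rfl
    have := (mem_in1.mp hj).1
    omega
  have h7 := card_le_card h6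
  rw [card_erase_of_mem hi] at h7
  have := h.neg
  omega

theorem MC.sum (h : MC b V) {i : ι} (h4 : (b i ∩ V).card = 4) :
    Ps b V = ∑ K ∈ cps b (V \ b i), PsH b V K := by
  have h1 := h.f5 h4
  obtain ⟨h2, h3⟩ := h.x0 h4
  rw [h1, h2, h3]
  norm_num

theorem MC.lt56 (h : MC b V) {i : ι} (h4 : (b i ∩ V).card = 4) {K : Finset α}
    (hK : K ∈ cps b (V \ b i)) : Ps b K < 56 := by
  by_contra hcon
  have h1 := h.ge h4 (W := (V \ b i) \ K) sdiff_subset (by
    rw [cps_rest hK]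
    exact erase_subset _ _)
  have hcU := h.sys.cb.mono (sdiff_subset (s := V) (t := b i))
  have h2 : Ps b (V \ b i) = Ps b K + Ps b ((V \ b i) \ K) := by
    have h3 := Ps_sep (cps_sep hK) (hcU.mono (cps_sub hK)) (hcU.mono sdiff_subset)
    rw [union_sdiff_of_subset (cps_sub hK)] at h3
    exact h3
  have h3 := h.sum_ge (i := i)
  have h5 := h.sum h4
  have := h.neg
  omega

theorem MC.satC (h : MC b V) {i : ι} (h4 : (b i ∩ V).card = 4) {K : Finset α}
    (hK : K ∈ cps b (V \ b i)) {j : ι} (hj : j ∈ mt b K) : tau b (K \ b j) + 1 = tau b K :=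
  h.satK (mt_card_pos.mpr (by omega)) hK (h.lt56 h4 hK) hj

/-- absorption of a set inside a block at `K` -/
theorem MC.absC (h : MC b V) {i : ι} (h4 : (b i ∩ V).card = 4) {K : Finset α}
    (hK : K ∈ cps b (V \ b i)) {j : ι} (hj : j ∈ mt b K) {Y : Finset α} (hY : Y ⊆ b j) :
    Cv b (K ∪ Y) (tau b K) :=
  absb (h.sys.mono (sub_of_cps hK)).cb (h.satC h4 hK hj) hY

theorem MC.P2 (h : MC b V) {i : ι} (h4 : (b i ∩ V).card = 4) {K : Finset α}
    (hK : K ∈ cps b (V \ b i)) : 2 ≤ (PK b V i K).card := by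
  by_contra hcon
  have hi : i ∈ mt b V := mt_card_pos.mpr (by omega)
  obtain ⟨x, hx⟩ := h.PK_ne hi hK
  have h1 : PK b V i K ⊆ {x} := by
    intro y hy
    rw [mem_singleton]
    exact card_le_one.mp (by omega) y hy x hx
  obtain ⟨hxi, j, hj, hxj⟩ := mem_PK.mp hx
  have h2 := h.absC h4 hK hj (singleton_subset_iff.mpr hxj)
  have h3 := Pool.Agent.Helper34.C5.f3 h.ih h.sys h.con le_rfl hxi.2 (comp_of_P hK hxi.1 h1) h2
  have h5 := h.ih.ge10 (cps_ne hK) (h.ltK hi hK) (h.sys.mono (sub_of_cps hK)) (cps_con hK)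
  have := h.neg
  omega

theorem MC.r3 (h : MC b V) {i : ι} (h4 : (b i ∩ V).card = 4) : (cps b (V \ b i)).card ≤ 3 :=
  h.f7 h4 (Subset.refl _) (fun _ hK => h.lt56 h4 hK) (fun _ hK => h.P2 h4 hK)

theorem MC.r1 (h : MC b V) {i : ι} (h4 : (b i ∩ V).card = 4) : 1 ≤ (cps b (V \ b i)).card := by
  by_contra hcon
  have h1 : cps b (V \ b i) = ∅ := card_eq_zero.mp (by omega)
  have h2 := h.sum h4
  rw [h1, sum_empty] at h2
  have := h.neg
  omega

/-- every other block meets a component -/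
theorem MC.meets (h : MC b V) {i : ι} (h4 : (b i ∩ V).card = 4) {j : ι} (hj : j ∈ mt b V)
    (hji : j ≠ i) : ∃ K ∈ cps b (V \ b i), j ∈ mt b K := by
  obtain ⟨h1, -⟩ := h.x0 h4
  have hi : i ∈ inn b V (b i ∩ V) := mem_inn.mpr ⟨card_pos.mp (by omega), Subset.refl _⟩
  have h2 : j ∉ inn b V (b i ∩ V) := fun hj' => hji (card_le_one.mp (by omega) j hj' i hi)
  rw [mem_inn, not_and] at h2
  have h3 := h2 (by
    obtain ⟨x, hx, hxj⟩ := mem_mt.mp hj
    exact ⟨x, mem_inter.mpr ⟨hxj, hx⟩⟩)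
  rw [not_subset] at h3
  obtain ⟨x, hx, hxi⟩ := h3
  rw [mem_inter] at hx
  have h5 : x ∈ V \ b i := mem_sdiff.mpr ⟨hx.2, fun h6 => hxi (mem_inter.mpr ⟨h6, hx.2⟩)⟩
  exact ⟨Cmp b (V \ b i) x, mem_cps.mpr ⟨x, h5, rfl⟩, mem_mt.mpr ⟨x, self_Cmp h5, hx.1⟩⟩

theorem MC.col (h : MC b V) {i : ι} (h4 : (b i ∩ V).card = 4) {x : α} (hx : x ∈ b i ∩ V) :
    ∑ K ∈ cps b (V \ b i), aK b K x = 4 := by
  have hxm := mem_inter.mp hx
  have h1 := deg_split h.sys hxm.2 (fun j => j = i)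
  have h2 : (univ.filter fun j => x ∈ b j ∧ j = i) = {i} := by
    ext j
    rw [mem_filter, mem_singleton]
    exact ⟨fun h => h.2.2, fun h => ⟨mem_univ _, h ▸ hxm.1, h⟩⟩
  rw [h2, card_singleton] at h1
  have h3 : (univ.filter fun j => x ∈ b j ∧ ¬ j = i) =
      (cps b (V \ b i)).biUnion fun K => univ.filter fun j => x ∈ b j ∧ j ∈ mt b K := by
    ext j
    rw [mem_filter, mem_biUnion]
    constructor
    · rintro ⟨-, h5, h6⟩
      obtain ⟨K, hK, hjK⟩ := h.meets h4 (mem_mt.mpr ⟨x, hxm.2, h5⟩) h6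
      exact ⟨K, hK, mem_filter.mpr ⟨mem_univ _, h5, hjK⟩⟩
    · rintro ⟨K, hK, hj⟩
      rw [mem_filter] at hj
      refine ⟨mem_univ _, hj.2.1, ?_⟩
      rintro rfl
      obtain ⟨y, hy, hyj⟩ := mem_mt.mp hj.2.2
      exact notMem_of_cps hK hyj hy
  unfold aK
  rw [← card_biUnion, ← h3]
  · omega
  · intro K hK K' hK' hne
    refine disjoint_left.mpr ?_
    intro j hj hj'
    exact hne (cps_unique hK hK' (mem_filter.mp hj).2.2 (mem_filter.mp hj').2.2)

theorem aK_pos {K : Finset α} {x : α} : 0 < aK b K x ↔ ∃ j ∈ mt b K, x ∈ b j := by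
  unfold aK
  rw [card_pos]
  constructor
  · rintro ⟨j, hj⟩
    rw [mem_filter] at hj
    exact ⟨j, hj.2.2, hj.2.1⟩
  · rintro ⟨j, hj, hxj⟩
    exact ⟨j, mem_filter.mpr ⟨mem_univ _, hxj, hj⟩⟩

theorem mem_PK' {K : Finset α} {i : ι} {x : α} :
    x ∈ PK b V i K ↔ x ∈ b i ∩ V ∧ 0 < aK b K x := by
  rw [mem_PK, aK_pos, mem_inter]

theorem MC.aK_le (h : MC b V) {i : ι} (h4 : (b i ∩ V).card = 4) {K : Finset α}
    (hK : K ∈ cps b (V \ b i)) {x : α} (hx : x ∈ b i ∩ V) : aK b K x ≤ 4 := by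
  rw [← h.col h4 hx]
  exact single_le_sum (f := fun K => aK b K x) (fun _ _ => Nat.zero_le _) hK

/-! ## The capped system -/

/-- the capped system: the blocks at `K` and own blocks -/
def cB (b : ι → Finset α) (K X : Finset α) {m : ℕ} (O : Fin m → Finset α) :
    ι ⊕ Fin m → Finset α
  | Sum.inl j => if j ∈ mt b K then b j ∩ (K ∪ X) else ∅
  | Sum.inr t => O t

theorem mem_cB_inl {K X : Finset α} {m : ℕ} {O : Fin m → Finset α} {j : ι} {x : α} :
    x ∈ cB b K X O (Sum.inl j) ↔ j ∈ mt b K ∧ x ∈ b j ∧ x ∈ K ∪ X := by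
  show x ∈ (if j ∈ mt b K then b j ∩ (K ∪ X) else ∅) ↔ _
  by_cases h : j ∈ mt b K
  · rw [if_pos h, mem_inter]
    exact ⟨fun h1 => ⟨h, h1⟩, fun h1 => h1.2⟩
  · rw [if_neg h]
    exact ⟨fun h1 => absurd h1 (notMem_empty x), fun h1 => absurd h1.1 h⟩

theorem mem_cB_inr {K X : Finset α} {m : ℕ} {O : Fin m → Finset α} {t : Fin m} {x : α} :
    x ∈ cB b K X O (Sum.inr t) ↔ x ∈ O t := Iff.rfl

/-- the data of a cap -/
structure Cp (b : ι → Finset α) (V K X : Finset α) {m : ℕ} (O : Fin m → Finset α) : Prop where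
  sys : Sys4 b V
  kv : K ⊆ V
  xv : X ⊆ V
  dis : Disjoint K X
  con : Con b K
  ne : K.Nonempty
  x3 : X.card ≤ 3
  own : ∀ t, O t ⊆ X
  att : ∀ x ∈ X, 0 < aK b K x
  deg : ∀ x ∈ X, aK b K x + (univ.filter fun t => x ∈ O t).card = 5
  nab : ¬ Cv b (K ∪ X) (tau b K)

variable {K X : Finset α} {m : ℕ} {O : Fin m → Finset α}

theorem card_filter_sum (P : ι ⊕ Fin m → Prop) [DecidablePred P] :
    (univ.filter P).card = (univ.filter fun j => P (Sum.inl j)).card +
      (univ.filter fun t => P (Sum.inr t)).card := by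
  rw [card_filter, Fintype.sum_sum_type, ← card_filter, ← card_filter]

theorem cB_card_inl {j : ι} (hj : j ∈ mt b K) :
    cB b K X O (Sum.inl j) ∩ (K ∪ X) = b j ∩ (K ∪ X) := by
  ext x
  rw [mem_inter, mem_inter, mem_cB_inl]
  exact ⟨fun h => ⟨h.1.2.1, h.2⟩, fun h => ⟨⟨hj, h⟩, h.2⟩⟩

theorem Cp.cB_inr (h : Cp b V K X O) {t : Fin m} :
    cB b K X O (Sum.inr t) ∩ (K ∪ X) = O t := by
  ext x
  rw [mem_inter, mem_cB_inr]
  exact ⟨fun h => h.1, fun h1 => ⟨h1, mem_union_right _ (h.own t h1)⟩⟩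

theorem Cp.sys4 (h : Cp b V K X O) : Sys4 (cB b K X O) (K ∪ X) := by
  refine ⟨?_, ?_⟩
  · intro x hx
    rw [card_filter_sum]
    by_cases hxK : x ∈ K
    · have h1 : (univ.filter fun t => x ∈ cB b K X O (Sum.inr t)) = ∅ := by
        ext t
        rw [mem_filter, mem_cB_inr]
        exact ⟨fun h2 => absurd (h.own t h2.2) (disjoint_left.mp h.dis hxK),
          fun h2 => absurd h2 (notMem_empty t)⟩
      have h2 : (univ.filter fun j => x ∈ cB b K X O (Sum.inl j)) =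
          univ.filter fun j => x ∈ b j := by
        ext j
        rw [mem_filter, mem_filter, mem_cB_inl]
        exact ⟨fun h3 => ⟨h3.1, h3.2.2.1⟩,
          fun h3 => ⟨h3.1, mem_mt.mpr ⟨x, hxK, h3.2⟩, h3.2, hx⟩⟩
      rw [h1, h2, card_empty]
      exact h.sys.deg x (h.kv hxK)
    · have hxX : x ∈ X := (mem_union.mp hx).resolve_left hxK
      have h2 : (univ.filter fun j => x ∈ cB b K X O (Sum.inl j)) =
          univ.filter fun j => x ∈ b j ∧ j ∈ mt b K := by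
        ext j
        rw [mem_filter, mem_filter, mem_cB_inl]
        exact ⟨fun h3 => ⟨h3.1, h3.2.2.1, h3.2.1⟩, fun h3 => ⟨h3.1, h3.2.2, h3.2.1, hx⟩⟩
      rw [h2]
      exact h.deg x hxX
  · intro y
    cases y with
    | inl j =>
      by_cases hj : j ∈ mt b K
      · rw [cB_card_inl hj]
        exact (card_le_card (inter_subset_inter_left (union_subset h.kv h.xv))).trans (h.sys.sz j)
      · have : cB b K X O (Sum.inl j) = ∅ := if_neg hj
        rw [this, empty_inter, card_empty]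
        exact Nat.zero_le _
    | inr t =>
      rw [h.cB_inr]
      have := card_le_card (h.own t)
      have := h.x3
      omega

theorem Cp.conn (h : Cp b V K X O) : Con (cB b K X O) (K ∪ X) := by
  apply con_of_exit
  intro D hD hne hDne
  by_contra hcon
  have hcl : ∀ j ∈ mt b K, ∀ u ∈ D, u ∈ b j → ∀ w ∈ K ∪ X, w ∈ b j → w ∈ D := by
    intro j hj u hu huj w hw hwj
    by_contra h1
    exact hcon ⟨Sum.inl j, u, hu, mem_cB_inl.mpr ⟨hj, huj, hD hu⟩, w, hw, h1,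
      mem_cB_inl.mpr ⟨hj, hwj, hw⟩⟩
  have hKD : ∀ u ∈ K, u ∈ D → K ⊆ D := by
    intro u hu huD w hw
    by_contra h1
    obtain ⟨j, u', hu', hu'D, hu'j, w', hw', hw'D, hw'j⟩ := con_exit h.con hu huD hw h1
    exact hw'D (hcl j (mem_mt.mpr ⟨u', hu', hu'j⟩) u' hu'D hu'j w' (mem_union_left _ hw') hw'j)
  have hex : ∃ u ∈ K, u ∈ D := by
    obtain ⟨u, hu⟩ := hne
    rcases mem_union.mp (hD hu) with h1 | h1
    · exact ⟨u, h1, hu⟩
    · obtain ⟨j, hj, huj⟩ := aK_pos.mp (h.att u h1)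
      obtain ⟨y, hy, hyj⟩ := mem_mt.mp hj
      exact ⟨y, hy, hcl j hj u hu huj y (mem_union_left _ hy) hyj⟩
  obtain ⟨u, hu, huD⟩ := hex
  have h1 := hKD u hu huD
  apply hDne
  apply Subset.antisymm hD
  intro w hw
  rcases mem_union.mp hw with h2 | h2
  · exact h1 h2
  · obtain ⟨j, hj, hwj⟩ := aK_pos.mp (h.att w h2)
    obtain ⟨y, hy, hyj⟩ := mem_mt.mp hj
    exact hcl j hj y (h1 hy) hyj w hw hwj

theorem Cp.mt_sub (h : Cp b V K X O) : mt (cB b K X O) (K ∪ X) ⊆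
    (mt b K).map Function.Embedding.inl ∪ univ.map Function.Embedding.inr := by
  intro y hy
  obtain ⟨x, hx, hxy⟩ := mem_mt.mp hy
  cases y with
  | inl j =>
    exact mem_union_left _ (mem_map_of_mem _ (mem_cB_inl.mp hxy).1)
  | inr t => exact mem_union_right _ (mem_map_of_mem _ (mem_univ t))

theorem disj_inl_inr (A : Finset ι) (B : Finset (Fin m)) :
    Disjoint (A.map (Function.Embedding.inl : ι ↪ ι ⊕ Fin m)) (B.map Function.Embedding.inr) := by
  rw [disjoint_left]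
  intro x hx hx2
  obtain ⟨y, -, rfl⟩ := mem_map.mp hx
  obtain ⟨j, -, h⟩ := mem_map.mp hx2
  exact absurd h (by simp)

theorem Cp.nb_le (h : Cp b V K X O) : nb (cB b K X O) (K ∪ X) ≤ nb b K + m := by
  have h1 := card_le_card h.mt_sub
  rw [card_union_of_disjoint (disj_inl_inr _ _), card_map, card_map, card_univ, Fintype.card_fin]
    at h1
  exact h1

/-- exact number if no own block is empty -/
theorem Cp.nb_eq (h : Cp b V K X O) (hO : ∀ t, (O t).Nonempty) :
    nb (cB b K X O) (K ∪ X) = nb b K + m := by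
  apply le_antisymm h.nb_le
  have h1 : (mt b K).map Function.Embedding.inl ∪ univ.map Function.Embedding.inr ⊆
      mt (cB b K X O) (K ∪ X) := by
    intro y hy
    rcases mem_union.mp hy with hy | hy
    · obtain ⟨j, hj, rfl⟩ := mem_map.mp hy
      obtain ⟨x, hx, hxj⟩ := mem_mt.mp hj
      exact mem_mt.mpr ⟨x, mem_union_left _ hx, mem_cB_inl.mpr ⟨hj, hxj, mem_union_left _ hx⟩⟩
    · obtain ⟨t, -, rfl⟩ := mem_map.mp hy
      obtain ⟨x, hx⟩ := hO t
      exact mem_mt.mpr ⟨x, mem_union_right _ (h.own t hx), hx⟩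
  have h2 := card_le_card h1
  rw [card_union_of_disjoint (disj_inl_inr _ _), card_map, card_map, card_univ, Fintype.card_fin]
    at h2
  exact h2

theorem Cp.tau_ge (h : Cp b V K X O) : tau b K + 1 ≤ tau (cB b K X O) (K ∪ X) := by
  by_contra hcon
  apply h.nab
  obtain ⟨s, hs, hcov⟩ := tau_cv h.sys4.cb
  let S : Finset ι := univ.filter fun j => Sum.inl j ∈ s ∧ j ∈ mt b K
  have hSmap : S.map Function.Embedding.inl ⊆ s := by
    intro y hy
    obtain ⟨j, hj, rfl⟩ := mem_map.mp hy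
    exact (mem_filter.mp hj).2.1
  have hK : tau b K ≤ S.card := by
    apply tau_le
    refine ⟨S, le_rfl, fun x hx => ?_⟩
    obtain ⟨y, hy, hxy⟩ := hcov x (mem_union_left _ hx)
    cases y with
    | inl j =>
      have h1 := mem_cB_inl.mp hxy
      exact ⟨j, mem_filter.mpr ⟨mem_univ _, hy, h1.1⟩, h1.2.1⟩
    | inr t => exact absurd (h.own t hxy) (disjoint_left.mp h.dis hx)
  have h1 : S.map Function.Embedding.inl = s := by
    apply eq_of_subset_of_card_le hSmap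
    rw [card_map]
    omega
  refine ⟨S, ?_, fun x hx => ?_⟩
  · have : S.card = s.card := by rw [← h1, card_map]
    omega
  · obtain ⟨y, hy, hxy⟩ := hcov x hx
    rw [← h1] at hy
    obtain ⟨j, hj, rfl⟩ := mem_map.mp hy
    exact ⟨j, hj, (mem_cB_inl.mp hxy).2.1⟩

theorem Cp.n1_ge (h : Cp b V K X O) : (in1 b V K).card ≤ n1 (cB b K X O) (K ∪ X) := by
  have h1 : (in1 b V K).map Function.Embedding.inl ⊆
      univ.filter fun y => (cB b K X O y ∩ (K ∪ X)).card = 1 := by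
    intro y hy
    obtain ⟨j, hj, rfl⟩ := mem_map.mp hy
    rw [mem_in1] at hj
    rw [mem_filter]
    refine ⟨mem_univ _, ?_⟩
    obtain ⟨x, hx⟩ := card_eq_one.mp hj.1
    have hxm : x ∈ b j ∩ V := by
      rw [hx]
      exact mem_singleton_self x
    have hjm : j ∈ mt b K := mem_mt.mpr ⟨x, hj.2 hxm, (mem_inter.mp hxm).1⟩
    show (cB b K X O (Sum.inl j) ∩ (K ∪ X)).card = 1
    rw [cB_card_inl hjm, ← hj.1]
    congr 1
    ext z
    rw [mem_inter, mem_inter]
    constructor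
    · rintro ⟨h2, h3⟩
      exact ⟨h2, (union_subset h.kv h.xv) h3⟩
    · rintro ⟨h2, h3⟩
      exact ⟨h2, mem_union_left _ (hj.2 (mem_inter.mpr ⟨h2, h3⟩))⟩
  have h2 := card_le_card h1
  rw [card_map] at h2
  exact h2

/-- **F9**, the inequality -/
theorem Cp.main (h : Cp b V K X O) :
    Ps (cB b K X O) (K ∪ X) + 256 - 53 * (X.card : ℤ) - 44 * (m : ℤ) ≤ PsH b V K := by
  have h1 : (nb (cB b K X O) (K ∪ X) : ℤ) ≤ (nb b K : ℤ) + (m : ℤ) := by exact_mod_cast h.nb_le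
  have h2 : (tau b K : ℤ) + 1 ≤ (tau (cB b K X O) (K ∪ X) : ℤ) := by exact_mod_cast h.tau_ge
  have h3 : ((in1 b V K).card : ℤ) ≤ (n1 (cB b K X O) (K ∪ X) : ℤ) := by exact_mod_cast h.n1_ge
  unfold PsH Ps Ph
  rw [card_union_of_disjoint h.dis]
  push_cast
  linarith

end

end Pool.Agent.Helper34.C5
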