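import Pool.Agent.Helper74.C5.ThmK

/-!
# Critical connected systems: the pair cap, systems without faces
-/

set_option linter.unusedSectionVars false
set_option autoImplicit false

open Finset
open Pool.Agent.Helper20.C5 Pool.Agent.Helper74.C5

namespace Pool.Agent.Helper34.C5

/-- the reduced excess -/
noncomputable def hh {α ι : Type} [DecidableEq α] [DecidableEq ι] [Fintype ι]
    (b : ι → Finset α) (U : Finset α) : ℤ :=
  ee b U + 3 * ((U.card : ℤ) - 2 * (tau b U : ℤ)) + 3

/-- The statement for systems with less than `n` points -/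
def IHG (n : ℕ) : Prop :=
  ∀ (α ι : Type) [DecidableEq α] [DecidableEq ι] [Fintype ι] (b : ι → Finset α) (U : Finset α),
    U.Nonempty → U.card < n → Sys b U → Con b U → Vc b U → ((sp b U).card : ℤ) ≤ hh b U

variable {α ι : Type} [DecidableEq α] [DecidableEq ι] [Fintype ι]
variable {K : Type} [DecidableEq K] [Fintype K]

section

variable {b : ι → Finset α} {V W : Finset α} {g : Fin 2 → Finset α} {I : Fin 2 → Finset ι}
  {O : K → Finset (Fin 2)}

theorem fin2_other : ∀ j j' : Fin 2, j' ≠ j → j' = 1 - j := by decide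

theorem cv_inl {Z : Finset α} {k : ℕ} (h : Cv b Z k) (hZ : Z ⊆ W) :
    Cv (cb b W I O) (Z.map (Function.Embedding.inl : α ↪ α ⊕ Fin 2)) k := by
  obtain ⟨s, hs, hcov⟩ := h
  refine ⟨s.map Function.Embedding.inl, by rwa [card_map], ?_⟩
  intro y hy
  obtain ⟨x, hx, rfl⟩ := mem_map.mp hy
  obtain ⟨i, hi, hxi⟩ := hcov x hx
  exact ⟨Sum.inl i, mem_map_of_mem _ hi, inl_cb.mpr ⟨hxi, hZ hx⟩⟩

/-- The capped system is critical. -/
theorem capVc (h : Cap b V W g I O) (hA : Abs b W g O 1) (hv : Vc b W)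
    (ho : ∃ t, (0 : Fin 2) ∈ O t ∧ (1 : Fin 2) ∈ O t) :
    Vc (cb b W I O) (cU (Fin 2) W) ∧ tau (cb b W I O) (cU (Fin 2) W) = tau b W + 1 := by
  have hcb := h.cap_sys.cb
  have hcbW : Cb b W := (h.sys.mono h.sub).cb
  have h1 := h.tau_ge hA
  obtain ⟨t, ht0, ht1⟩ := ho
  have hpair : ∀ Z : Finset (α ⊕ Fin 2), (∀ z ∈ Z, ∃ j, z = Sum.inr j) →
      Cv (cb b W I O) Z 1 := by
    intro Z hZ
    refine cv_block (Sum.inr t) ?_
    intro z hz
    obtain ⟨j, rfl⟩ := hZ z hz
    rw [inr_cb']
    fin_cases j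
    · exact ht0
    · exact ht1
  have htau : tau (cb b W I O) (cU (Fin 2) W) = tau b W + 1 := by
    apply le_antisymm _ h1
    have h2 : Cv (cb b W I O) (W.map (Function.Embedding.inl : α ↪ α ⊕ Fin 2)) (tau b W) :=
      cv_inl (tau_cv hcbW) (Subset.refl _)
    have h3 := cv_union h2 (hpair (univ.map Function.Embedding.inr) (by
      intro z hz
      obtain ⟨j, -, rfl⟩ := mem_map.mp hz
      exact ⟨j, rfl⟩))
    exact tau_le h3
  refine ⟨?_, htau⟩
  intro z hz
  have h2 := tau_erase_le hcb hz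
  have h3 : tau (cb b W I O) ((cU (Fin 2) W).erase z) ≤ tau b W := by
    cases z with
    | inl x =>
      rw [inl_cU] at hz
      have h4 := hv x hz
      have h5 : Cv (cb b W I O) ((W.erase x).map (Function.Embedding.inl : α ↪ α ⊕ Fin 2))
          (tau b (W.erase x)) := cv_inl (tau_cv (hcbW.mono (erase_subset _ _))) (erase_subset _ _)
      have h6 := cv_union h5 (hpair (univ.map Function.Embedding.inr) (by
        intro z hz
        obtain ⟨j, -, rfl⟩ := mem_map.mp hz
        exact ⟨j, rfl⟩))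
      rw [h4] at h6
      refine tau_le (h6.mono ?_ le_rfl)
      intro y hy
      rw [mem_erase] at hy
      rw [mem_union]
      cases y with
      | inl y =>
        have h7 := inl_cU.mp hy.2
        left
        refine mem_map_of_mem _ (mem_erase.mpr ⟨?_, h7⟩)
        rintro rfl
        exact hy.1 rfl
      | inr j => exact Or.inr (mem_map_of_mem _ (mem_univ j))
    | inr j =>
      have hj : ∀ j' : Fin 2, j' ≠ j → j' = 1 - j := fin2_other j
      obtain ⟨i0, hi0⟩ := h.Ine (1 - j)
      obtain ⟨x0, hx0, hx1⟩ := h.IW (1 - j) i0 hi0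
      have h4 := hv x0 hx0
      have h5 : Cv (cb b W I O) ((W.erase x0).map (Function.Embedding.inl : α ↪ α ⊕ Fin 2))
          (tau b (W.erase x0)) := cv_inl (tau_cv (hcbW.mono (erase_subset _ _))) (erase_subset _ _)
      have h6 : Cv (cb b W I O) {Sum.inl x0, Sum.inr (1 - j)} 1 := by
        refine cv_block (Sum.inl i0) ?_
        intro y hy
        rw [mem_insert, mem_singleton] at hy
        rcases hy with rfl | rfl
        · exact inl_cb.mpr ⟨hx1, hx0⟩
        · exact inr_cb.mpr hi0
      have h7 := cv_union h5 h6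
      rw [h4] at h7
      refine tau_le (h7.mono ?_ le_rfl)
      intro y hy
      rw [mem_erase] at hy
      rw [mem_union, mem_insert, mem_singleton]
      cases y with
      | inl y =>
        have h8 := inl_cU.mp hy.2
        by_cases hyx : y = x0
        · exact Or.inr (Or.inl (by rw [hyx]))
        · exact Or.inl (mem_map_of_mem _ (mem_erase.mpr ⟨hyx, h8⟩))
      | inr j' =>
        right
        right
        rw [hj j' (fun h => hy.1 (by rw [h]))]
  omega

/-- The pair cap, ordered form. -/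
theorem pairG_aux {I : Fin 2 → Finset ι} (hsys : Sys b V) {n : ℕ} (hIH : IHG n) (hWV : W ⊆ V)
    (hne : W.Nonempty) (hcon : Con b W) (hv : Vc b W)
    (hn : W.card + 2 < n) (hg : ∀ j, g j ⊆ V \ W) (hgd : Disjoint (g 0) (g 1))
    (hIW : ∀ j, ∀ i ∈ I j, ∃ x ∈ W, x ∈ b i) (hIg : ∀ j, ∀ i ∈ I j, ∃ y ∈ g j, y ∈ b i)
    {a c : ℕ} (ha : 1 ≤ a) (hac : a ≤ c) (hc : c ≤ 4) (h0 : (I 0).card = a)
    (h1 : (I 1).card = c)
    (habs : ∀ x ∈ g 0, ∀ y ∈ g 1, tau b W + 1 ≤ tau b (W ∪ {x, y})) :
    ((sp b V ∩ W).card : ℤ) + (if a + 2 ≤ c then 1 else 0) + 2 * a ≤ hh b W + 3 := by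
  have hCap : Cap b V W g I (Op a c) := by
    refine ⟨hsys, hWV, hne, hcon, hg, ?_, hIW, hIg, ?_, ?_, Op_le a c, Op_one a c⟩
    · intro j j' hjj
      fin_cases j <;> fin_cases j'
      · exact absurd rfl hjj
      · exact hgd
      · exact hgd.symm
      · exact absurd rfl hjj
    · intro j
      rw [← card_pos]
      fin_cases j
      · show 0 < (I 0).card
        omega
      · show 0 < (I 1).card
        omega
    · intro j
      fin_cases j
      · show (I 0).card + (univ.filter fun t => (0 : Fin 2) ∈ Op a c t).card = 5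
        rw [Op_zero]
        omega
      · show (I 1).card + (univ.filter fun t => (1 : Fin 2) ∈ Op a c t).card = 5
        rw [Op_two hac]
        omega
  have hcbW : Cb b W := (hsys.mono hWV).cb
  have hA : Abs b W g (Op a c) 1 := by
    intro T f hf
    rcases T.eq_empty_or_nonempty with hT | hT
    · subst hT
      have h2 : uc (Op a c) ∅ = univ := by
        ext j
        simp [uc]
      rw [h2] at hf ⊢
      have h3 := habs (f 0) (hf 0 (mem_univ 0)) (f 1) (hf 1 (mem_univ 1))
      have h4 : (univ : Finset (Fin 2)).image f = {f 0, f 1} := by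
        ext y
        rw [mem_image, mem_insert, mem_singleton]
        constructor
        · rintro ⟨j, -, rfl⟩
          fin_cases j
          · exact Or.inl rfl
          · exact Or.inr rfl
        · rintro (rfl | rfl)
          · exact ⟨0, mem_univ _, rfl⟩
          · exact ⟨1, mem_univ _, rfl⟩
      rw [h4, card_empty]
      omega
    · have h2 := card_pos.mpr hT
      have h3 : tau b W ≤ tau b (W ∪ (uc (Op a c) T).image f) := by
        apply tau_mono
        · intro x hx
          rcases mem_union.mp hx with hx | hx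
          · exact hcbW x hx
          · obtain ⟨j, hj, rfl⟩ := mem_image.mp hx
            exact hsys.cb _ (mem_sdiff.mp (hg j (hf j hj))).1
        · exact subset_union_left
      omega
  obtain ⟨hvc, htau⟩ := capVc hCap hA hv ⟨⟨0, by omega⟩, by
    unfold Op
    rw [if_pos (by show 0 < 5 - c; omega)]
    simp⟩
  have hneU : (cU (Fin 2) W).Nonempty := ⟨Sum.inr 0, inr_cU⟩
  have h2 := hIH (α ⊕ Fin 2) (ι ⊕ Fin (5 - a)) (cb b W I (Op a c)) (cU (Fin 2) W) hneU
    (by rw [card_cU, Fintype.card_fin]; exact hn) hCap.cap_sys hCap.cap_con hvc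
  have h3 := hCap.sp_ge
  have h4 := hCap.nb_le
  rw [Fintype.card_fin] at h4
  unfold hh ee at h2 ⊢
  rw [h4, card_cU, Fintype.card_fin, htau] at h2
  have h7 : ((5 - a : ℕ) : ℤ) = 5 - a := by omega
  have h9 : (if a + 2 ≤ c then (1 : ℤ) else 0) ≤ (sq (Op a c)).card := by
    split_ifs with h8
    · have := Op_sq h8 (by omega)
      exact_mod_cast this
    · positivity
  push_cast at h2
  rw [h7] at h2
  zify at h3
  linarith

/-- **The pair cap.** -/
theorem pairG (hsys : Sys b V) {n : ℕ} (hIH : IHG n)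
    (hWV : W ⊆ V) (hne : W.Nonempty) (hcon : Con b W) (hv : Vc b W) (hn : W.card + 2 < n)
    {G H : Finset α} (hG : G ⊆ V \ W)
    (hH : H ⊆ V \ W) (hGH : Disjoint G H) {a c : ℕ} (ha : 1 ≤ a) (hac : a ≤ c) (hc : c ≤ 4)
    (h0 : a ≤ dg b G W) (h1 : c ≤ dg b H W)
    (habs : ∀ x ∈ G, ∀ y ∈ H, tau b W + 1 ≤ tau b (W ∪ {x, y})) :
    ((sp b V ∩ W).card : ℤ) + (if a + 2 ≤ c then 1 else 0) + 2 * a ≤ hh b W + 3 := by
  obtain ⟨I0, hI0, hI0c⟩ := exists_subset_card_eq h0
  obtain ⟨I1, hI1, hI1c⟩ := exists_subset_card_eq h1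
  have key : ∀ (T : Finset α) (I : Finset ι),
      I ⊆ univ.filter (fun i => (b i ∩ T).Nonempty ∧ (b i ∩ W).Nonempty) →
      (∀ i ∈ I, ∃ x ∈ W, x ∈ b i) ∧ (∀ i ∈ I, ∃ y ∈ T, y ∈ b i) := by
    intro T I hI
    constructor
    · intro i hi
      obtain ⟨-, -, x, hx⟩ := mem_filter.mp (hI hi)
      rw [mem_inter] at hx
      exact ⟨x, hx.2, hx.1⟩
    · intro i hi
      obtain ⟨-, ⟨x, hx⟩, -⟩ := mem_filter.mp (hI hi)
      rw [mem_inter] at hx
      exact ⟨x, hx.2, hx.1⟩
  have k0 := key G I0 hI0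
  have k1 := key H I1 hI1
  refine pairG_aux (g := ![G, H]) (I := ![I0, I1]) hsys hIH hWV hne hcon hv hn ?_ ?_ ?_ ?_ ha
    hac hc hI0c hI1c habs
  · intro j
    fin_cases j
    · exact hG
    · exact hH
  · exact hGH
  · intro j
    fin_cases j
    · exact k0.1
    · exact k1.1
  · intro j
    fin_cases j
    · exact k0.2
    · exact k1.2

end

/-! ## Systems without faces -/

/-- systems with blocks of at most two points are in the class `CC` -/
theorem cc_small {b : ι → Finset α} {W : Finset α} (hc : Cb b W)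
    (h2 : ∀ i, (b i ∩ W).card ≤ 2) : CC b W := by
  classical
  obtain ⟨κ, hκ, hκ2⟩ := exists_pt hc
  have hcard : ∀ x ∈ W, κ x = {x, pr W κ x} := by
    intro x hx
    obtain ⟨i, hi⟩ := hκ.blk x hx
    have h3 : (κ x).card ≤ 2 :=
      (card_le_card (subset_inter hi (hκ.sub x hx))).trans (h2 i)
    have h4 := hκ.mem x hx
    by_cases h5 : (κ x).card = 2
    · exact (pr_card hκ hx h5).2
    · have h6 : pr W κ x = x := by
        by_contra h7
        exact h5 (pr_ne hκ h7).2
      rw [h6, pair_eq_singleton]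
      symm
      apply eq_of_subset_of_card_le (singleton_subset_iff.mpr h4)
      rw [card_singleton]
      omega
  have hm := pr_mt hκ
  refine ⟨pr W κ, hm, ?_⟩
  have h3 := hm.two_tau_le hc
  have h4 := parts_card (Z := W) hm.inv fun x hx => hm.mem hx
  have h5 : W.image κ = W.image (fun x => ({x, pr W κ x} : Finset α)) := by
    apply image_congr
    intro x hx
    exact hcard x hx
  rw [← h5] at h4
  omega

/-- a critical connected system without faces is of K-type -/
theorem kt_small {b : ι → Finset α} {W : Finset α} (hc : Cb b W)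
    (h2 : ∀ i, (b i ∩ W).card ≤ 2) (hne : W.Nonempty) (hcon : Con b W) (hv : Vc b W) :
    KT b W := by
  have hcr : Crit b W := by
    intro A hA hAne
    obtain ⟨x, hx⟩ := hAne
    have h3 := hv x (hA hx)
    have h4 : tau b (W \ A) ≤ tau b (W.erase x) := by
      apply tau_mono (hc.mono (erase_subset _ _))
      intro y hy
      rw [mem_sdiff] at hy
      exact mem_erase.mpr ⟨fun h => hy.2 (h ▸ hx), hy.1⟩
    omega
  rcases kt_or_ct hc (cc_small hc h2) hcon hcr hne with h3 | h3
  · exact h3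
  · exfalso
    obtain ⟨x, hx⟩ := hne
    have h4 := h3.cr x hx
    have h5 := h3.tau
    -- the blocks are too small
    obtain ⟨s, hs, hcov⟩ := tau_cv (hc.mono (erase_subset x W))
    have h6 : W.erase x ⊆ s.biUnion fun i => b i ∩ W := by
      intro y hy
      obtain ⟨i, hi, hyi⟩ := hcov y hy
      exact mem_biUnion.mpr ⟨i, hi, mem_inter.mpr ⟨hyi, (mem_erase.mp hy).2⟩⟩
    have h7 := card_le_card h6
    have h8 : (s.biUnion fun i => b i ∩ W).card ≤ s.card * 2 :=
      card_biUnion_le_card_mul s _ 2 fun i _ => h2 i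
    have h9 := card_erase_of_mem hx
    have h10 : 0 < W.card := card_pos.mpr ⟨x, hx⟩
    omega

theorem hh_KT {b : ι → Finset α} {W : Finset α} (h : KT b W) : hh b W = ee b W := by
  have h1 := h.tau
  unfold hh
  zify at h1
  linarith

end Pool.Agent.Helper34.C5
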