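import Mathlib

/-!
# The matrix lemmas
-/

set_option linter.unusedSectionVars false
set_option autoImplicit false

open Finset

namespace Pool.Agent.Helper34.C5

variable {α : Type} [DecidableEq α]

/-- four different elements of `B` -/
structure Q4 (B : Finset α) (x y z t : α) : Prop where
  mx : x ∈ B
  my : y ∈ B
  mz : z ∈ B
  mw : t ∈ B
  xy : x ≠ y
  xz : x ≠ z
  xt : x ≠ t
  yz : y ≠ z
  yt : y ≠ t
  zt : z ≠ t

theorem exists_Q4 {B : Finset α} (hB : B.card = 4) {x y : α} (hx : x ∈ B) (hy : y ∈ B)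
    (hxy : x ≠ y) : ∃ z t, Q4 B x y z t := by
  have h1 : ((B.erase x).erase y).card = 2 := by
    rw [card_erase_of_mem (mem_erase.mpr ⟨hxy.symm, hy⟩), card_erase_of_mem hx, hB]
  obtain ⟨z, t, hzt, h2⟩ := card_eq_two.mp h1
  have hz : z ∈ (B.erase x).erase y := by
    rw [h2]
    exact mem_insert_self _ _
  have ht : t ∈ (B.erase x).erase y := by
    rw [h2]
    exact mem_insert_of_mem (mem_singleton_self _)
  rw [mem_erase, mem_erase] at hz ht
  exact ⟨z, t, hx, hy, hz.2.2, ht.2.2, hxy, hz.2.1.symm, ht.2.1.symm, hz.1.symm, ht.1.symm, hzt⟩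

theorem Q4.eq {B : Finset α} (hB : B.card = 4) {x y z t : α} (h : Q4 B x y z t) :
    B = {x, y, z, t} := by
  symm
  apply eq_of_subset_of_card_le
  · intro u hu
    simp only [mem_insert, mem_singleton] at hu
    rcases hu with rfl | rfl | rfl | rfl
    · exact h.mx
    · exact h.my
    · exact h.mz
    · exact h.mw
  · rw [hB]
    have h1 : ({x, y, z, t} : Finset α).card = 4 := by
      rw [card_insert_of_notMem, card_insert_of_notMem, card_pair h.zt]
      · simp only [mem_insert, mem_singleton, not_or]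
        exact ⟨h.yz, h.yt⟩
      · simp only [mem_insert, mem_singleton, not_or]
        exact ⟨h.xy, h.xz, h.xt⟩
    omega

theorem Q4.cases {B : Finset α} (hB : B.card = 4) {x y z t : α} (h : Q4 B x y z t) {u : α}
    (hu : u ∈ B) : u = x ∨ u = y ∨ u = z ∨ u = t := by
  rw [h.eq hB] at hu
  simpa only [mem_insert, mem_singleton] using hu

theorem Q4.s12 {B : Finset α} {x y z t : α} (h : Q4 B x y z t) : Q4 B y x z t :=
  ⟨h.my, h.mx, h.mz, h.mw, h.xy.symm, h.yz, h.yt, h.xz, h.xt, h.zt⟩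

theorem Q4.s34 {B : Finset α} {x y z t : α} (h : Q4 B x y z t) : Q4 B x y t z :=
  ⟨h.mx, h.my, h.mw, h.mz, h.xy, h.xt, h.xz, h.yt, h.yz, h.zt.symm⟩

theorem Q4.s23 {B : Finset α} {x y z t : α} (h : Q4 B x y z t) : Q4 B x z y t :=
  ⟨h.mx, h.mz, h.my, h.mw, h.xz, h.xy, h.xt, h.yz.symm, h.zt, h.yt⟩

section three

variable {κ : Type} {B : Finset α} {a : κ → α → ℕ} {R : κ → α → α → Prop}

/-- one row has two large columns -/
theorem m3a (hB : B.card = 4) {p q s : κ}
    (Hp : ∀ x y z t, Q4 B x y z t → R p x y → 1 ≤ a q z → 1 ≤ a s t → False)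
    (Hq : ∀ x y z t, Q4 B x y z t → R q x y → 1 ≤ a p z → 1 ≤ a s t → False)
    (Hs : ∀ x y z t, Q4 B x y z t → R s x y → 1 ≤ a p z → 1 ≤ a q t → False)
    (hRp : ∀ x ∈ B, ∀ y ∈ B, x ≠ y → 2 ≤ a p x → 2 ≤ a p y → R p x y)
    (hRq : ∀ x ∈ B, ∀ y ∈ B, x ≠ y → 3 ≤ a q x → 3 ≤ a q y → R q x y)
    (hRs : ∀ x ∈ B, ∀ y ∈ B, x ≠ y → 3 ≤ a s x → 3 ≤ a s y → R s x y)
    (col : ∀ x ∈ B, a p x + a q x + a s x = 4)
    (sq : ∀ x ∈ B, ∃ y ∈ B, y ≠ x ∧ 1 ≤ a q y) (ss : ∀ x ∈ B, ∃ y ∈ B, y ≠ x ∧ 1 ≤ a s y)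
    {i j : α} (hi : i ∈ B) (hj : j ∈ B) (hij : i ≠ j) (h1 : 2 ≤ a p i) (h2 : 2 ≤ a p j) :
    False := by
  -- the isolated column
  have col4 : ∀ i j k l, Q4 B i j k l → 2 ≤ a p i → 2 ≤ a p j → a q k = 0 → a s k = 0 → False := by
    intro i j k l h h1 h2 h3 h4
    have ci := col i h.mx
    have cj := col j h.my
    have ck := col k h.mz
    have cl := col l h.mw
    have e1 := Hp i k j l h.s23 (hRp i h.mx k h.mz h.xz h1 (by omega))
    have e2 := Hp i k l j h.s23.s34 (hRp i h.mx k h.mz h.xz h1 (by omega))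
    have e3 := Hp j k i l h.s12.s23 (hRp j h.my k h.mz h.yz h2 (by omega))
    have e4 := Hp j k l i h.s12.s23.s34 (hRp j h.my k h.mz h.yz h2 (by omega))
    have sqi : 1 ≤ a q j ∨ 1 ≤ a q l := by
      obtain ⟨y, hy, hyi, hy2⟩ := sq i h.mx
      rcases h.cases hB hy with rfl | rfl | rfl | rfl
      · exact absurd rfl hyi
      · exact Or.inl hy2
      · omega
      · exact Or.inr hy2
    have sqj : 1 ≤ a q i ∨ 1 ≤ a q l := by
      obtain ⟨y, hy, hyi, hy2⟩ := sq j h.my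
      rcases h.cases hB hy with rfl | rfl | rfl | rfl
      · exact Or.inl hy2
      · exact absurd rfl hyi
      · omega
      · exact Or.inr hy2
    have sql : 1 ≤ a q i ∨ 1 ≤ a q j := by
      obtain ⟨y, hy, hyi, hy2⟩ := sq l h.mw
      rcases h.cases hB hy with rfl | rfl | rfl | rfl
      · exact Or.inl hy2
      · exact Or.inr hy2
      · omega
      · exact absurd rfl hyi
    have ssi : 1 ≤ a s j ∨ 1 ≤ a s l := by
      obtain ⟨y, hy, hyi, hy2⟩ := ss i h.mx
      rcases h.cases hB hy with rfl | rfl | rfl | rfl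
      · exact absurd rfl hyi
      · exact Or.inl hy2
      · omega
      · exact Or.inr hy2
    have ssj : 1 ≤ a s i ∨ 1 ≤ a s l := by
      obtain ⟨y, hy, hyi, hy2⟩ := ss j h.my
      rcases h.cases hB hy with rfl | rfl | rfl | rfl
      · exact Or.inl hy2
      · exact absurd rfl hyi
      · omega
      · exact Or.inr hy2
    have ssl : 1 ≤ a s i ∨ 1 ≤ a s j := by
      obtain ⟨y, hy, hyi, hy2⟩ := ss l h.mw
      rcases h.cases hB hy with rfl | rfl | rfl | rfl
      · exact Or.inl hy2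
      · exact Or.inr hy2
      · omega
      · exact absurd rfl hyi
    by_cases hl : 2 ≤ a p l
    · have e5 := Hp k l i j ⟨h.mz, h.mw, h.mx, h.my, h.zt, h.xz.symm, h.yz.symm, h.xt.symm, h.yt.symm,
        h.xy⟩ (hRp k h.mz l h.mw h.zt (by omega) hl)
      have e6 := Hp k l j i ⟨h.mz, h.mw, h.my, h.mx, h.zt, h.yz.symm, h.xz.symm, h.yt.symm, h.xt.symm,
        h.xy.symm⟩ (hRp k h.mz l h.mw h.zt (by omega) hl)
      by_cases q1 : 1 ≤ a q i <;> by_cases q2 : 1 ≤ a q j <;> by_cases q3 : 1 ≤ a q l <;>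
        by_cases s1 : 1 ≤ a s i <;> by_cases s2 : 1 ≤ a s j <;> by_cases s3 : 1 ≤ a s l <;>
        first
          | omega
          | exact e1 q2 s3
          | exact e2 q3 s2
          | exact e3 q1 s3
          | exact e4 q3 s1
          | exact e5 q1 s2
    · by_cases q1 : 1 ≤ a q i <;> by_cases q2 : 1 ≤ a q j <;> by_cases q3 : 1 ≤ a q l <;>
        by_cases s1 : 1 ≤ a s i <;> by_cases s2 : 1 ≤ a s j <;> by_cases s3 : 1 ≤ a s l <;>
        first
          | omega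
          | exact e1 q2 s3
          | exact e2 q3 s2
          | exact e3 q1 s3
  obtain ⟨k, l, h⟩ := exists_Q4 hB hi hj hij
  have ci := col i h.mx
  have cj := col j h.my
  have ck := col k h.mz
  have cl := col l h.mw
  have hR := hRp i hi j hj hij h1 h2
  have e1 := Hp i j k l h hR
  have e2 := Hp i j l k h.s34 hR
  have hkl : Q4 B k l i j := ⟨h.mz, h.mw, h.mx, h.my, h.zt, h.xz.symm, h.yz.symm, h.xt.symm, h.yt.symm,
    h.xy⟩
  by_cases q1 : 1 ≤ a q k
  · by_cases s2 : 1 ≤ a s l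
    · exact e1 q1 s2
    · by_cases q2 : 1 ≤ a q l
      · by_cases s1 : 1 ≤ a s k
        · exact e2 q2 s1
        · -- row `s` vanishes at `k`, `l`
          obtain ⟨y, hy, hyi, hy2⟩ := ss i hi
          have hsj : 1 ≤ a s j := by
            rcases h.cases hB hy with rfl | rfl | rfl | rfl
            · exact absurd rfl hyi
            · exact hy2
            · omega
            · omega
          obtain ⟨y', hy', hyj, hy2'⟩ := ss j hj
          have hsi : 1 ≤ a s i := by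
            rcases h.cases hB hy' with rfl | rfl | rfl | rfl
            · exact hy2'
            · exact absurd rfl hyj
            · omega
            · omega
          by_cases hk : 2 ≤ a p k
          · exact Hp j k l i h.s12.s23.s34 (hRp j h.my k h.mz h.yz h2 hk) q2 hsi
          · by_cases hl : 2 ≤ a p l
            · exact Hp j l k i ⟨h.my, h.mw, h.mz, h.mx, h.yt, h.yz, h.xy.symm, h.zt.symm, h.xt.symm,
                h.xz.symm⟩ (hRp j h.my l h.mw h.yt h2 hl) q1 hsi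
            · exact Hq k l j i hkl.s34 (hRq k h.mz l h.mw h.zt (by omega) (by omega)) (by omega) hsi
      · exact col4 i j l k h.s34 h1 h2 (by omega) (by omega)
  · by_cases s1 : 1 ≤ a s k
    · by_cases q2 : 1 ≤ a q l
      · exact e2 q2 s1
      · -- row `q` vanishes at `k`, `l`
        obtain ⟨y, hy, hyi, hy2⟩ := sq i hi
        have hqj : 1 ≤ a q j := by
          rcases h.cases hB hy with rfl | rfl | rfl | rfl
          · exact absurd rfl hyi
          · exact hy2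
          · omega
          · omega
        obtain ⟨y', hy', hyj, hy2'⟩ := sq j hj
        have hqi : 1 ≤ a q i := by
          rcases h.cases hB hy' with rfl | rfl | rfl | rfl
          · exact hy2'
          · exact absurd rfl hyj
          · omega
          · omega
        by_cases s2 : 1 ≤ a s l
        · by_cases hk : 2 ≤ a p k
          · exact Hp j k i l h.s12.s23 (hRp j h.my k h.mz h.yz h2 hk) hqi s2
          · by_cases hl : 2 ≤ a p l
            · exact Hp j l i k ⟨h.my, h.mw, h.mx, h.mz, h.yt, h.xy.symm, h.yz, h.xt.symm, h.zt.symm,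
                h.xz⟩ (hRp j h.my l h.mw h.yt h2 hl) hqi s1
            · exact Hs k l j i hkl.s34 (hRs k h.mz l h.mw h.zt (by omega) (by omega)) (by omega) hqi
        · exact col4 i j l k h.s34 h1 h2 (by omega) (by omega)
    · exact col4 i j k l h h1 h2 (by omega) (by omega)

/-- all rows obey the pair rule -/
theorem m3 (hB : B.card = 4) {p q s : κ}
    (Hp : ∀ x y z t, Q4 B x y z t → R p x y → 1 ≤ a q z → 1 ≤ a s t → False)
    (Hq : ∀ x y z t, Q4 B x y z t → R q x y → 1 ≤ a p z → 1 ≤ a s t → False)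
    (Hs : ∀ x y z t, Q4 B x y z t → R s x y → 1 ≤ a p z → 1 ≤ a q t → False)
    (hRp : ∀ x ∈ B, ∀ y ∈ B, x ≠ y → 2 ≤ a p x → 2 ≤ a p y → R p x y)
    (hRq : ∀ x ∈ B, ∀ y ∈ B, x ≠ y → 2 ≤ a q x → 2 ≤ a q y → R q x y)
    (hRs : ∀ x ∈ B, ∀ y ∈ B, x ≠ y → 2 ≤ a s x → 2 ≤ a s y → R s x y)
    (col : ∀ x ∈ B, a p x + a q x + a s x = 4)
    (sp : ∀ x ∈ B, ∃ y ∈ B, y ≠ x ∧ 1 ≤ a p y)
    (sq : ∀ x ∈ B, ∃ y ∈ B, y ≠ x ∧ 1 ≤ a q y) (ss : ∀ x ∈ B, ∃ y ∈ B, y ≠ x ∧ 1 ≤ a s y) :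
    False := by
  let f : α → Fin 3 := fun x => if 2 ≤ a p x then 0 else if 2 ≤ a q x then 1 else 2
  obtain ⟨x, hx, y, hy, hxy, hf⟩ := exists_ne_map_eq_of_card_lt_of_maps_to
    (s := B) (t := (univ : Finset (Fin 3))) (f := f) (by rw [hB, card_univ, Fintype.card_fin]; omega)
    (fun x _ => mem_univ _)
  by_cases hp : 2 ≤ a p x
  · have h1 : f x = 0 := if_pos hp
    have h2 : 2 ≤ a p y := by
      by_contra hcon
      rw [h1] at hf
      have h3 : f y = if 2 ≤ a q y then 1 else 2 := if_neg hcon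
      rw [h3] at hf
      split_ifs at hf <;> exact absurd hf (by decide)
    exact m3a hB Hp Hq Hs hRp (fun x hx y hy h u v => hRq x hx y hy h (by omega) (by omega))
      (fun x hx y hy h u v => hRs x hx y hy h (by omega) (by omega)) col sq ss hx hy hxy hp h2
  · by_cases hq : 2 ≤ a q x
    · have h1 : f x = 1 := by
        show (if 2 ≤ a p x then (0 : Fin 3) else if 2 ≤ a q x then 1 else 2) = 1
        rw [if_neg hp, if_pos hq]
      have h2 : 2 ≤ a q y := by
        by_contra hcon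
        rw [h1] at hf
        have h3 : f y = if 2 ≤ a p y then 0 else 2 := by
          show (if 2 ≤ a p y then (0 : Fin 3) else if 2 ≤ a q y then 1 else 2) = _
          rw [if_neg hcon]
        rw [h3] at hf
        split_ifs at hf <;> exact absurd hf (by decide)
      exact m3a hB (p := q) (q := p) (s := s) Hq Hp
        (fun x y z t h r u v => Hs x y t z h.s34 r v u) hRq
        (fun x hx y hy h u v => hRp x hx y hy h (by omega) (by omega))
        (fun x hx y hy h u v => hRs x hx y hy h (by omega) (by omega))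
        (fun x hx => by have := col x hx; omega) sp ss hx hy hxy hq h2
    · have h1 : f x = 2 := by
        show (if 2 ≤ a p x then (0 : Fin 3) else if 2 ≤ a q x then 1 else 2) = 2
        rw [if_neg hp, if_neg hq]
      have h2 : ¬ 2 ≤ a p y ∧ ¬ 2 ≤ a q y := by
        rw [h1] at hf
        have h3 : f y = if 2 ≤ a p y then 0 else if 2 ≤ a q y then 1 else 2 := rfl
        rw [h3] at hf
        split_ifs at hf with h5 h6
        · exact absurd hf (by decide)
        · exact absurd hf (by decide)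
        · exact ⟨h5, h6⟩
      have cx := col x hx
      have cy := col y hy
      exact m3a hB (p := s) (q := p) (s := q) Hs
        (fun x y z t h r u v => Hp x y t z h.s34 r v u)
        (fun x y z t h r u v => Hq x y t z h.s34 r v u) hRs
        (fun x hx y hy h u v => hRp x hx y hy h (by omega) (by omega))
        (fun x hx y hy h u v => hRq x hx y hy h (by omega) (by omega))
        (fun x hx => by have := col x hx; omega) sp sq hx hy hxy (by omega) (by omega)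

/-- a row of type `D` with a large column -/
theorem m3b (hB : B.card = 4) {p q s : κ}
    (Hp : ∀ x y z t, Q4 B x y z t → R p x y → 1 ≤ a q z → 1 ≤ a s t → False)
    (Hq : ∀ x y z t, Q4 B x y z t → R q x y → 1 ≤ a p z → 1 ≤ a s t → False)
    (hRp : ∀ x ∈ B, ∀ y ∈ B, x ≠ y → 3 ≤ a p x → 3 ≤ a p y → R p x y)
    (hRq : ∀ x ∈ B, ∀ y ∈ B, x ≠ y → 2 ≤ a q x → 1 ≤ a q y → R q x y)
    (col : ∀ x ∈ B, a p x + a q x + a s x = 4)
    (sq : ∀ x ∈ B, ∃ y ∈ B, y ≠ x ∧ 1 ≤ a q y) (ss : ∀ x ∈ B, ∃ y ∈ B, y ≠ x ∧ 1 ≤ a s y)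
    (nq : ∀ x ∈ B, ∀ y ∈ B, x ≠ y → 2 ≤ a q x → 2 ≤ a q y → False)
    (ns : ∀ x ∈ B, ∀ y ∈ B, x ≠ y → 2 ≤ a s x → 2 ≤ a s y → False)
    {i : α} (hi : i ∈ B) (h1 : 2 ≤ a q i) : False := by
  obtain ⟨j, hj, hji, hj1⟩ := sq i hi
  obtain ⟨k, l, h⟩ := exists_Q4 hB hi hj hji.symm
  have ck := col k h.mz
  have cl := col l h.mw
  have hR := hRq i hi j hj hji.symm h1 hj1
  have e1 := Hq i j k l h hR
  have e2 := Hq i j l k h.s34 hR
  have hk : ¬ 2 ≤ a q k := fun h2 => nq i hi k h.mz h.xz h1 h2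
  have hl : ¬ 2 ≤ a q l := fun h2 => nq i hi l h.mw h.xt h1 h2
  have hs : ¬ (2 ≤ a s k ∧ 2 ≤ a s l) := fun h2 => ns k h.mz l h.mw h.zt h2.1 h2.2
  have hkl : Q4 B k l i j := ⟨h.mz, h.mw, h.mx, h.my, h.zt, h.xz.symm, h.yz.symm, h.xt.symm,
    h.yt.symm, h.xy⟩
  by_cases s1 : 1 ≤ a s k
  · by_cases q2 : 1 ≤ a p l
    · exact e2 q2 s1
    · by_cases s2 : 1 ≤ a s l
      · by_cases q1 : 1 ≤ a p k
        · exact e1 q1 s2
        · exact hs ⟨by omega, by omega⟩
      · omega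
  · by_cases s2 : 1 ≤ a s l
    · by_cases q1 : 1 ≤ a p k
      · exact e1 q1 s2
      · omega
    · obtain ⟨y, hy, hyi, hy2⟩ := ss i hi
      have hsj : 1 ≤ a s j := by
        rcases h.cases hB hy with rfl | rfl | rfl | rfl
        · exact absurd rfl hyi
        · exact hy2
        · omega
        · omega
      exact Hp k l i j hkl (hRp k h.mz l h.mw h.zt (by omega) (by omega)) (by omega) hsj

/-- one weak row, two rows of type `D` -/
theorem m3w (hB : B.card = 4) {p q s : κ}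
    (Hp : ∀ x y z t, Q4 B x y z t → R p x y → 1 ≤ a q z → 1 ≤ a s t → False)
    (Hq : ∀ x y z t, Q4 B x y z t → R q x y → 1 ≤ a p z → 1 ≤ a s t → False)
    (Hs : ∀ x y z t, Q4 B x y z t → R s x y → 1 ≤ a p z → 1 ≤ a q t → False)
    (hRp : ∀ x ∈ B, ∀ y ∈ B, x ≠ y → 3 ≤ a p x → 3 ≤ a p y → R p x y)
    (hRq : ∀ x ∈ B, ∀ y ∈ B, x ≠ y → 2 ≤ a q x → 1 ≤ a q y → R q x y)
    (hRs : ∀ x ∈ B, ∀ y ∈ B, x ≠ y → 2 ≤ a s x → 1 ≤ a s y → R s x y)
    (hD : ∀ x ∈ B, ∀ y ∈ B, ∀ z ∈ B, x ≠ y → x ≠ z → y ≠ z → 1 ≤ a q x → 1 ≤ a q y →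
      1 ≤ a q z → R q x y ∨ R q x z)
    (col : ∀ x ∈ B, a p x + a q x + a s x = 4)
    (sp : ∀ x ∈ B, ∃ y ∈ B, y ≠ x ∧ 1 ≤ a p y)
    (sq : ∀ x ∈ B, ∃ y ∈ B, y ≠ x ∧ 1 ≤ a q y) (ss : ∀ x ∈ B, ∃ y ∈ B, y ≠ x ∧ 1 ≤ a s y) :
    False := by
  have nq : ∀ x ∈ B, ∀ y ∈ B, x ≠ y → 2 ≤ a q x → 2 ≤ a q y → False := by
    intro x hx y hy hxy h1 h2
    exact m3a hB (p := q) (q := p) (s := s) Hq Hp
      (fun x y z t h r u v => Hs x y t z h.s34 r v u)
      (fun x hx y hy h u v => hRq x hx y hy h u (by omega)) hRp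
      (fun x hx y hy h u v => hRs x hx y hy h (by omega) (by omega))
      (fun x hx => by have := col x hx; omega) sp ss hx hy hxy h1 h2
  have ns : ∀ x ∈ B, ∀ y ∈ B, x ≠ y → 2 ≤ a s x → 2 ≤ a s y → False := by
    intro x hx y hy hxy h1 h2
    exact m3a hB (p := s) (q := p) (s := q) Hs
      (fun x y z t h r u v => Hp x y t z h.s34 r v u)
      (fun x y z t h r u v => Hq x y t z h.s34 r v u)
      (fun x hx y hy h u v => hRs x hx y hy h u (by omega)) hRp
      (fun x hx y hy h u v => hRq x hx y hy h (by omega) (by omega))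
      (fun x hx => by have := col x hx; omega) sp sq hx hy hxy h1 h2
  have nq1 : ∀ x ∈ B, a q x ≤ 1 := by
    intro x hx
    by_contra hcon
    exact m3b hB Hp Hq hRp hRq col sq ss nq ns hx (by omega)
  have ns1 : ∀ x ∈ B, a s x ≤ 1 := by
    intro x hx
    by_contra hcon
    exact m3b hB (p := p) (q := s) (s := q) (fun x y z t h r u v => Hp x y t z h.s34 r v u) Hs hRp
      hRs (fun x hx => by have := col x hx; omega) ss sq ns nq hx (by omega)
  have key : ∀ z ∈ B, ∀ t ∈ B, z ≠ t → 1 ≤ a q z → 1 ≤ a s t →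
      (∀ x ∈ B, x ≠ z → x ≠ t → ¬ (1 ≤ a q x ∧ 1 ≤ a s x)) → False := by
    intro z hz t ht hzt h1 h2 h3
    obtain ⟨x, y, h⟩ := exists_Q4 hB hz ht hzt
    have hxy : Q4 B x y z t := ⟨h.mz, h.mw, h.mx, h.my, h.zt, h.xz.symm, h.yz.symm, h.xt.symm,
      h.yt.symm, h.xy⟩
    have cx := col x hxy.mx
    have cy := col y hxy.my
    have qx := nq1 x hxy.mx
    have qy := nq1 y hxy.my
    have sx := ns1 x hxy.mx
    have sy := ns1 y hxy.my
    have tx := h3 x hxy.mx hxy.xz hxy.xt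
    have ty := h3 y hxy.my hxy.yz hxy.yt
    exact Hp x y z t hxy (hRp x hxy.mx y hxy.my hxy.xy (by omega) (by omega)) h1 h2
  let T := B.filter fun x => 1 ≤ a q x ∧ 1 ≤ a s x
  have hT : ∀ x, x ∈ T ↔ x ∈ B ∧ 1 ≤ a q x ∧ 1 ≤ a s x := fun x => mem_filter
  by_cases h3 : 3 ≤ T.card
  · obtain ⟨T', hT', hT'c⟩ := exists_subset_card_eq h3
    obtain ⟨x, y, z, hxy, hxz, hyz, he⟩ := card_eq_three.mp hT'c
    have mx : x ∈ T := hT' (by rw [he]; simp)
    have my : y ∈ T := hT' (by rw [he]; simp)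
    have mz : z ∈ T := hT' (by rw [he]; simp)
    rw [hT] at mx my mz
    obtain ⟨u, v, h⟩ := exists_Q4 hB mx.1 my.1 hxy
    have hw : ∃ w, Q4 B x y z w := by
      rcases h.cases hB mz.1 with rfl | rfl | rfl | rfl
      · exact absurd rfl hxz
      · exact absurd rfl hyz
      · exact ⟨_, h⟩
      · exact ⟨_, h.s34⟩
    obtain ⟨w, hw⟩ := hw
    have cw := col w hw.mw
    have qw := nq1 w hw.mw
    have sw := ns1 w hw.mw
    rcases hD x mx.1 y my.1 z mz.1 hxy hxz hyz mx.2.1 my.2.1 mz.2.1 with hR | hR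
    · exact Hq x y w z hw.s34 hR (by omega) mz.2.2
    · exact Hq x z w y hw.s23.s34 hR (by omega) my.2.2
  · rcases Nat.lt_or_ge T.card 2 with h2 | h2
    · have hz : ∃ z ∈ B, 1 ≤ a q z ∧ ∀ x ∈ T, x = z := by
        rcases T.eq_empty_or_nonempty with h0 | ⟨z, hz⟩
        · obtain ⟨x0, hx0⟩ := card_pos.mp (show 0 < B.card by omega)
          obtain ⟨z, hz, -, hz1⟩ := sq x0 hx0
          refine ⟨z, hz, hz1, fun x hx => ?_⟩
          rw [h0] at hx
          exact absurd hx (notMem_empty x)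
        · have hz' := (hT z).mp hz
          exact ⟨z, hz'.1, hz'.2.1, fun x hx => card_le_one.mp (by omega) x hx z hz⟩
      obtain ⟨z, hz, hz1, hzT⟩ := hz
      obtain ⟨t, ht, htz, ht1⟩ := ss z hz
      refine key z hz t ht htz.symm hz1 ht1 fun x hx hxz _ h5 => ?_
      exact hxz (hzT x ((hT x).mpr ⟨hx, h5⟩))
    · obtain ⟨z, t, hzt, he⟩ := card_eq_two.mp (show T.card = 2 by omega)
      have mz : z ∈ T := by rw [he]; simp
      have mt : t ∈ T := by rw [he]; simp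
      have mz' := (hT z).mp mz
      have mt' := (hT t).mp mt
      refine key z mz'.1 t mt'.1 hzt mz'.2.1 mt'.2.2 fun x hx hxz hxt h5 => ?_
      have : x ∈ T := (hT x).mpr ⟨hx, h5⟩
      rw [he, mem_insert, mem_singleton] at this
      rcases this with h6 | h6
      · exact hxz h6
      · exact hxt h6

end three

section two

variable {B : Finset α} {a c : α → ℕ} {A C : Finset α → Prop}

/-- two rows which obey all rules -/
theorem m2 (hB : B.card = 4)
    (H : ∀ X Y : Finset α, X ⊆ B → Y = B \ X → A X → C Y → False)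
    (col : ∀ x ∈ B, a x + c x = 4)
    (hA1 : ∀ x ∈ B, 1 ≤ a x → A {x}) (hC1 : ∀ x ∈ B, 1 ≤ c x → C {x})
    (hA2 : ∀ x ∈ B, ∀ y ∈ B, x ≠ y → 2 ≤ a x → 2 ≤ a y → A {x, y})
    (hC2 : ∀ x ∈ B, ∀ y ∈ B, x ≠ y → 2 ≤ c x → 2 ≤ c y → C {x, y})
    (hA3 : ∀ X, X ⊆ B → X.card = 3 → (∀ x ∈ X, 3 ≤ a x) → A X)
    (hC3 : ∀ X, X ⊆ B → X.card = 3 → (∀ x ∈ X, 3 ≤ c x) → C X)
    (sa : ∃ y ∈ B, 1 ≤ a y) (sc : ∃ y ∈ B, 1 ≤ c y) : False := by
  have side : ∀ (a c : α → ℕ) (A C : Finset α → Prop),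
      (∀ X Y : Finset α, X ⊆ B → Y = B \ X → A X → C Y → False) →
      (∀ x ∈ B, a x + c x = 4) → (∀ x ∈ B, 1 ≤ c x → C {x}) →
      (∀ X, X ⊆ B → X.card = 3 → (∀ x ∈ X, 3 ≤ a x) → A X) → (∃ y ∈ B, 1 ≤ c y) →
      (B.filter fun x => 2 ≤ c x).card ≤ 1 → False := by
    intro a c A C H col hC1 hA3 sc hle
    have hj : ∃ j ∈ B, 1 ≤ c j ∧ ∀ x ∈ B, x ≠ j → 3 ≤ a x := by
      rcases (B.filter fun x => 2 ≤ c x).eq_empty_or_nonempty with h0 | ⟨j, hj⟩
      · obtain ⟨j, hj, hj1⟩ := sc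
        refine ⟨j, hj, hj1, fun x hx _ => ?_⟩
        have h1 : ¬ 2 ≤ c x := by
          intro h2
          have : x ∈ B.filter fun x => 2 ≤ c x := mem_filter.mpr ⟨hx, h2⟩
          rw [h0] at this
          exact absurd this (notMem_empty x)
        have := col x hx
        omega
      · rw [mem_filter] at hj
        refine ⟨j, hj.1, by omega, fun x hx hxj => ?_⟩
        have h1 : ¬ 2 ≤ c x := by
          intro h2
          exact hxj (card_le_one.mp hle x (mem_filter.mpr ⟨hx, h2⟩) j (mem_filter.mpr hj))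
        have := col x hx
        omega
    obtain ⟨j, hj, hj1, hj2⟩ := hj
    refine H (B.erase j) {j} (erase_subset _ _) ?_ (hA3 _ (erase_subset _ _) ?_ ?_) (hC1 j hj hj1)
    · ext x
      rw [mem_singleton, mem_sdiff, mem_erase, not_and, not_imp_not]
      constructor
      · rintro rfl
        exact ⟨hj, fun _ => rfl⟩
      · exact fun h => h.2 h.1
    · rw [card_erase_of_mem hj]
      omega
    · intro x hx
      rw [mem_erase] at hx
      exact hj2 x hx.2 hx.1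
  by_cases h1 : (B.filter fun x => 2 ≤ c x).card ≤ 1
  · exact side a c A C H col hC1 hA3 sc h1
  by_cases h2 : (B.filter fun x => 2 ≤ a x).card ≤ 1
  · refine side c a C A ?_ (fun x hx => by have := col x hx; omega) hA1 hC3 sa h2
    intro X Y hX hY hc ha
    exact H Y X (by rw [hY]; exact sdiff_subset) (by rw [hY, Finset.sdiff_sdiff_eq_self hX]) ha hc
  -- two columns each
  have h3 : B \ (B.filter fun x => 2 ≤ c x) ⊆ B.filter fun x => 2 ≤ a x := by
    intro x hx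
    rw [mem_sdiff, mem_filter, not_and] at hx
    have := hx.2 hx.1
    have := col x hx.1
    exact mem_filter.mpr ⟨hx.1, by omega⟩
  have h4 : (B \ (B.filter fun x => 2 ≤ c x)).card ≤ 2 := by
    have := card_sdiff_add_card_eq_card (filter_subset (fun x => 2 ≤ c x) B)
    omega
  obtain ⟨X, hX1, hX2, hX3⟩ := exists_subsuperset_card_eq h3 h4 (by omega)
  have hXB : X ⊆ B := hX2.trans (filter_subset _ _)
  have hYc : (B \ X).card = 2 := by
    have := card_sdiff_add_card_eq_card hXB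
    omega
  obtain ⟨x, y, hxy, hx⟩ := card_eq_two.mp hX3
  obtain ⟨z, t, hzt, hz⟩ := card_eq_two.mp hYc
  have mX : ∀ u ∈ X, u ∈ B ∧ 2 ≤ a u := fun u hu => mem_filter.mp (hX2 hu)
  have mY : ∀ u ∈ B \ X, u ∈ B ∧ 2 ≤ c u := by
    intro u hu
    rw [mem_sdiff] at hu
    refine ⟨hu.1, ?_⟩
    by_contra hcon
    exact hu.2 (hX1 (mem_sdiff.mpr ⟨hu.1, fun h5 => hcon (mem_filter.mp h5).2⟩))
  have ax := mX x (by rw [hx]; simp)
  have ay := mX y (by rw [hx]; simp)
  have az := mY z (by rw [hz]; simp)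
  have at' := mY t (by rw [hz]; simp)
  refine H X (B \ X) hXB rfl ?_ ?_
  · rw [hx]
    exact hA2 x ax.1 y ay.1 hxy ax.2 ay.2
  · rw [hz]
    exact hC2 z az.1 t at'.1 hzt az.2 at'.2

/-- a row which obeys the pair rule and a row of type `D` -/
theorem m2d (hB : B.card = 4)
    (H : ∀ X Y : Finset α, X ⊆ B → Y = B \ X → A X → C Y → False)
    (col : ∀ x ∈ B, a x + c x = 4)
    (hA1 : ∀ x ∈ B, 1 ≤ a x → A {x})
    (hA2 : ∀ x ∈ B, ∀ y ∈ B, x ≠ y → 2 ≤ a x → 2 ≤ a y → A {x, y})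
    (hC2 : ∀ x ∈ B, ∀ y ∈ B, x ≠ y → 2 ≤ c x → 1 ≤ c y → C {x, y})
    (hC3 : ∀ X, X ⊆ B → X.card = 3 → (∀ x ∈ X, 3 ≤ c x) → C X)
    (hD : ∀ x ∈ B, ∀ y ∈ B, ∀ z ∈ B, x ≠ y → x ≠ z → y ≠ z → 1 ≤ c x → 1 ≤ c y →
      1 ≤ c z → C {x, y} ∨ C {x, z})
    (s10 : ∑ x ∈ B, c x ≤ 10) (sc : 2 ≤ (B.filter fun x => 1 ≤ c x).card) :
    ∃ x y z t, Q4 B x y z t ∧ c x = 1 ∧ c y = 1 ∧ c z = 0 ∧ c t = 0 ∧ ¬ C {x, y} := by
  by_contra hcon
  -- choose a pair for `A`
  have key : ∀ W : Finset α, W ⊆ B → W.card ≤ 2 → (∀ x ∈ W, 1 ≤ c x) →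
      (∀ x ∈ B, 3 ≤ c x → x ∈ W) →
      (∀ x y, x ∈ B → y ∈ B → x ≠ y → W ⊆ {x, y} → 1 ≤ c x → 1 ≤ c y → C {x, y}) → False := by
    intro W hW hW2 hWc hWa hWC
    have hZ : (B \ B.filter fun x => 1 ≤ c x) ⊆ B \ W := by
      intro x hx
      rw [mem_sdiff, mem_filter, not_and] at hx
      exact mem_sdiff.mpr ⟨hx.1, fun h1 => hx.2 hx.1 (hWc x h1)⟩
    have hZc : (B \ B.filter fun x => 1 ≤ c x).card ≤ 2 := by
      have := card_sdiff_add_card_eq_card (filter_subset (fun x => 1 ≤ c x) B)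
      omega
    have hWc' : 2 ≤ (B \ W).card := by
      have := card_sdiff_add_card_eq_card hW
      omega
    obtain ⟨X, hX1, hX2, hX3⟩ := exists_subsuperset_card_eq hZ hZc hWc'
    have hXB : X ⊆ B := hX2.trans sdiff_subset
    have hYc : (B \ X).card = 2 := by
      have := card_sdiff_add_card_eq_card hXB
      omega
    obtain ⟨x, y, hxy, hx⟩ := card_eq_two.mp hX3
    obtain ⟨z, t, hzt, hz⟩ := card_eq_two.mp hYc
    have mX : ∀ u ∈ X, u ∈ B ∧ 2 ≤ a u := by
      intro u hu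
      have h1 := mem_sdiff.mp (hX2 hu)
      refine ⟨h1.1, ?_⟩
      have h2 : ¬ 3 ≤ c u := fun h3 => h1.2 (hWa u h1.1 h3)
      have := col u h1.1
      omega
    have mY : ∀ u ∈ B \ X, u ∈ B ∧ 1 ≤ c u := by
      intro u hu
      rw [mem_sdiff] at hu
      refine ⟨hu.1, ?_⟩
      by_contra hcon
      exact hu.2 (hX1 (mem_sdiff.mpr ⟨hu.1, fun h5 => hcon (mem_filter.mp h5).2⟩))
    have ax := mX x (by rw [hx]; simp)
    have ay := mX y (by rw [hx]; simp)
    have az := mY z (by rw [hz]; simp)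
    have at' := mY t (by rw [hz]; simp)
    refine H X (B \ X) hXB rfl ?_ ?_
    · rw [hx]
      exact hA2 x ax.1 y ay.1 hxy ax.2 ay.2
    · rw [hz]
      refine hWC z t az.1 at'.1 hzt ?_ az.2 at'.2
      rw [← hz]
      intro u hu
      exact mem_sdiff.mpr ⟨hW hu, fun h5 => (mem_sdiff.mp (hX2 h5)).2 hu⟩
  by_cases h3 : 3 ≤ (B.filter fun x => 3 ≤ c x).card
  · obtain ⟨X, hX, hXc⟩ := exists_subset_card_eq h3
    have hXB : X ⊆ B := hX.trans (filter_subset _ _)
    have hYc : (B \ X).card = 1 := by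
      have := card_sdiff_add_card_eq_card hXB
      omega
    obtain ⟨l, hl⟩ := card_eq_one.mp hYc
    have hlm : l ∈ B \ X := by rw [hl]; simp
    have h5 : ∀ x ∈ X, 3 ≤ c x := fun x hx => (mem_filter.mp (hX hx)).2
    have h6 : 3 * 3 ≤ ∑ x ∈ X, c x := by
      have h7 : ∑ _x ∈ X, 3 ≤ ∑ x ∈ X, c x := sum_le_sum h5
      rw [sum_const, smul_eq_mul, hXc] at h7
      exact h7
    have h7 : ∑ x ∈ B \ X, c x + ∑ x ∈ X, c x = ∑ x ∈ B, c x := sum_sdiff hXB
    rw [hl, sum_singleton] at h7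
    have h8 := col l (mem_sdiff.mp hlm).1
    refine H {l} X (singleton_subset_iff.mpr (mem_sdiff.mp hlm).1) ?_
      (hA1 l (mem_sdiff.mp hlm).1 (by omega)) (hC3 X hXB hXc h5)
    rw [← hl, Finset.sdiff_sdiff_eq_self hXB]
  by_cases h4 : (B.filter fun x => 3 ≤ c x).Nonempty
  · obtain ⟨w, hw⟩ := h4
    refine key (B.filter fun x => 3 ≤ c x) (filter_subset _ _) (by omega)
      (fun x hx => by have := (mem_filter.mp hx).2; omega)
      (fun x hx h5 => mem_filter.mpr ⟨hx, h5⟩) ?_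
    intro x y hx hy hxy hW h5 h6
    have h7 := hW hw
    rw [mem_insert, mem_singleton] at h7
    have h8 := (mem_filter.mp hw).2
    rcases h7 with rfl | rfl
    · exact hC2 _ hx _ hy hxy (by omega) h6
    · rw [pair_comm]
      exact hC2 _ hy _ hx hxy.symm (by omega) h5
  have hno3 : ∀ x ∈ B, ¬ 3 ≤ c x := fun x hx h5 => h4 ⟨x, mem_filter.mpr ⟨hx, h5⟩⟩
  by_cases h5 : ∃ w ∈ B, c w = 2
  · obtain ⟨w, hw, hw2⟩ := h5
    refine key {w} (singleton_subset_iff.mpr hw) (by rw [card_singleton]; omega)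
      (fun x hx => by rw [mem_singleton.mp hx]; omega) (fun x hx h6 => absurd h6 (hno3 x hx)) ?_
    intro x y hx hy hxy hW h5 h6
    have h7 := hW (mem_singleton_self w)
    rw [mem_insert, mem_singleton] at h7
    rcases h7 with rfl | rfl
    · exact hC2 _ hx _ hy hxy (by omega) h6
    · rw [pair_comm]
      exact hC2 _ hy _ hx hxy.symm (by omega) h5
  have hno2 : ∀ x ∈ B, c x ≤ 1 := by
    intro x hx
    have h6 := hno3 x hx
    have h7 : c x ≠ 2 := fun h8 => h5 ⟨x, hx, h8⟩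
    omega
  -- a good pair of ones
  have key2 : ∀ x ∈ B, ∀ y ∈ B, x ≠ y → 1 ≤ c x → 1 ≤ c y → C {x, y} → False := by
    intro x hx y hy hxy h6 h7 h8
    refine key {x, y} (by
      intro u hu
      rw [mem_insert, mem_singleton] at hu
      rcases hu with rfl | rfl
      · exact hx
      · exact hy) (by rw [card_pair hxy]) (by
      intro u hu
      rw [mem_insert, mem_singleton] at hu
      rcases hu with rfl | rfl
      · exact h6
      · exact h7) (fun x hx h6 => absurd h6 (hno3 x hx)) ?_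
    intro u v _ _ huv hW _ _
    have h9 : ({x, y} : Finset α) = {u, v} :=
      eq_of_subset_of_card_le hW (by rw [card_pair hxy, card_pair huv])
    rw [← h9]
    exact h8
  by_cases h6 : 3 ≤ (B.filter fun x => 1 ≤ c x).card
  · obtain ⟨T, hT, hTc⟩ := exists_subset_card_eq h6
    obtain ⟨x, y, z, hxy, hxz, hyz, he⟩ := card_eq_three.mp hTc
    have mx := mem_filter.mp (hT (show x ∈ T by rw [he]; simp))
    have my := mem_filter.mp (hT (show y ∈ T by rw [he]; simp))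
    have mz := mem_filter.mp (hT (show z ∈ T by rw [he]; simp))
    rcases hD x mx.1 y my.1 z mz.1 hxy hxz hyz mx.2 my.2 mz.2 with h7 | h7
    · exact key2 x mx.1 y my.1 hxy mx.2 my.2 h7
    · exact key2 x mx.1 z mz.1 hxz mx.2 mz.2 h7
  · obtain ⟨x, y, hxy, he⟩ := card_eq_two.mp (show (B.filter fun x => 1 ≤ c x).card = 2 by omega)
    have mx := mem_filter.mp (show x ∈ B.filter fun x => 1 ≤ c x by rw [he]; simp)
    have my := mem_filter.mp (show y ∈ B.filter fun x => 1 ≤ c x by rw [he]; simp)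
    obtain ⟨z, t, h⟩ := exists_Q4 hB mx.1 my.1 hxy
    have hz : ∀ u ∈ B, u ≠ x → u ≠ y → c u = 0 := by
      intro u hu hux huy
      by_contra hc
      have h7 : u ∈ B.filter fun x => 1 ≤ c x := mem_filter.mpr ⟨hu, by omega⟩
      rw [he, mem_insert, mem_singleton] at h7
      rcases h7 with h7 | h7
      · exact hux h7
      · exact huy h7
    apply hcon
    refine ⟨x, y, z, t, h, ?_, ?_, hz z h.mz h.xz.symm h.yz.symm, hz t h.mw h.xt.symm h.yt.symm,
      fun h7 => key2 x mx.1 y my.1 hxy mx.2 my.2 h7⟩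
    · have := hno2 x mx.1
      omega
    · have := hno2 y my.1
      omega

end two

end Pool.Agent.Helper34.C5
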