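import Pool.Agent.Helper34.C5.Rul
import Pool.Agent.Helper34.C5.Mat

/-!
# Components of type `D`, three components, two components
-/

set_option linter.unusedSectionVars false
set_option autoImplicit false

open Finset
open Pool.Agent.Helper20.C5

namespace Pool.Agent.Helper34.C5

variable {α ι : Type} [DecidableEq α] [DecidableEq ι] [Fintype ι]
variable {b : ι → Finset α} {V : Finset α}

/-! ## Systems of type `D` -/

/-- not three copies of a block -/
theorem dt_no3 {K : Finset α} (hs : Sys4 b K) (hD : Dt b K) {e f g : ι} (he : e ∈ mt b K)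
    (hf : f ∈ mt b K) (hg : g ∈ mt b K) (hef : e ≠ f) (heg : e ≠ g) (hfg : f ≠ g)
    (h1 : b e ∩ K = b f ∩ K) (h2 : b e ∩ K = b g ∩ K) : False := by
  have hc3 := dt_card3 hs hD
  have e1 : K \ (b e ∩ K) = K \ b e := by
    ext x
    simp only [mem_sdiff, mem_inter]
    tauto
  have hc : (K \ b e).card = 3 := by
    have h3 := card_sdiff_add_card_eq_card (inter_subset_right : b e ∩ K ⊆ K)
    rw [hc3 e he, hD.1, e1] at h3
    omega
  have hsum := sum4 (hs.mono (sdiff_subset (s := K) (t := b e)))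
  rw [hc] at hsum
  have hmt : mt b (K \ b e) ⊆ (((mt b K).erase e).erase f).erase g := by
    intro j hj
    obtain ⟨x, hx, hxj⟩ := mem_mt.mp hj
    rw [mem_sdiff] at hx
    rw [mem_erase, mem_erase, mem_erase]
    refine ⟨?_, ?_, ?_, mem_mt.mpr ⟨x, hx.1, hxj⟩⟩
    · rintro rfl
      have : x ∈ b j ∩ K := mem_inter.mpr ⟨hxj, hx.1⟩
      rw [← h2] at this
      exact hx.2 (mem_inter.mp this).1
    · rintro rfl
      have : x ∈ b j ∩ K := mem_inter.mpr ⟨hxj, hx.1⟩
      rw [← h1] at this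
      exact hx.2 (mem_inter.mp this).1
    · rintro rfl
      exact hx.2 hxj
  have hmc : (mt b (K \ b e)).card ≤ 7 := by
    refine (card_le_card hmt).trans ?_
    rw [card_erase_of_mem (mem_erase.mpr ⟨hfg.symm, mem_erase.mpr ⟨heg.symm, hg⟩⟩),
      card_erase_of_mem (mem_erase.mpr ⟨hef.symm, hf⟩), card_erase_of_mem he]
    have h5 : (mt b K).card = 10 := hD.2.1
    omega
  have hle : ∀ j ∈ mt b (K \ b e), (b j ∩ (K \ b e)).card ≤ 2 := by
    intro j _
    by_contra hcon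
    have h5 : b j ∩ (K \ b e) = K \ b e := eq_of_subset_of_card_le inter_subset_right (by omega)
    have h6 : Cv b K 2 := by
      refine ⟨{e, j}, card_le_two, fun x hx => ?_⟩
      by_cases hxe : x ∈ b e
      · exact ⟨e, mem_insert_self _ _, hxe⟩
      · have : x ∈ K \ b e := mem_sdiff.mpr ⟨hx, hxe⟩
        rw [← h5] at this
        exact ⟨j, mem_insert_of_mem (mem_singleton_self _), (mem_inter.mp this).1⟩
    have := tau_le h6
    have := hD.2.2
    omega
  have h7 := sum_le_sum hle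
  rw [sum_const, smul_eq_mul, hsum] at h7
  omega

/-- two blocks with different traces and a third one cover a system of type `D` -/
theorem dt_cover {K : Finset α} (hs : Sys4 b K) (hD : Dt b K) {e f : ι} (he : e ∈ mt b K)
    (hf : f ∈ mt b K) (hne : b e ∩ K ≠ b f ∩ K) {x y : α} (hx : x ∈ b e) (hy : y ∈ b f) :
    Cv b (K ∪ {x, y}) (tau b K) := by
  have hc3 := dt_card3 hs hD
  have hT : ∃ g, K \ (b e ∪ b f) ⊆ b g := by
    have h1 : 4 ≤ (b e ∩ K ∪ b f ∩ K).card := by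
      by_contra hcon
      have h2 := hc3 e he
      have h3 := hc3 f hf
      have h4 : b e ∩ K = b e ∩ K ∪ b f ∩ K :=
        eq_of_subset_of_card_le subset_union_left (by omega)
      have h5 : b f ∩ K = b e ∩ K ∪ b f ∩ K :=
        eq_of_subset_of_card_le subset_union_right (by omega)
      exact hne (h4.trans h5.symm)
    have h2 : (K \ (b e ∪ b f)).card ≤ 2 := by
      have h3 : K \ (b e ∪ b f) = K \ (b e ∩ K ∪ b f ∩ K) := by
        ext x
        simp only [mem_sdiff, mem_union, mem_inter]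
        tauto
      have h4 := card_sdiff_add_card_eq_card
        (union_subset inter_subset_right inter_subset_right : b e ∩ K ∪ b f ∩ K ⊆ K)
      rw [← h3, hD.1] at h4
      omega
    have h3 : (K \ (b e ∪ b f)).card = 0 ∨ (K \ (b e ∪ b f)).card = 1 ∨
        (K \ (b e ∪ b f)).card = 2 := by omega
    rcases h3 with h3 | h3 | h3
    · exact ⟨e, by rw [card_eq_zero.mp h3]; exact empty_subset _⟩
    · obtain ⟨p, hp⟩ := card_eq_one.mp h3
      have hpm : p ∈ K \ (b e ∪ b f) := by rw [hp]; simp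
      obtain ⟨g, hg⟩ := hs.cb p (mem_sdiff.mp hpm).1
      exact ⟨g, by rw [hp]; exact singleton_subset_iff.mpr hg⟩
    · obtain ⟨p, q, hpq, hp⟩ := card_eq_two.mp h3
      have hpm : p ∈ K \ (b e ∪ b f) := by rw [hp]; simp
      have hqm : q ∈ K \ (b e ∪ b f) := by rw [hp]; simp
      rw [mem_sdiff, mem_union, not_or] at hpm hqm
      by_cases hn : ∀ j, p ∈ b j → q ∉ b j
      · have hef : e ≠ f := by
          rintro rfl
          exact hne rfl
        have h6 := no_common hs hpm.1 hqm.1 hn {e, f} (by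
          intro j hj
          rw [mem_insert, mem_singleton] at hj
          rcases hj with rfl | rfl
          · exact he
          · exact hf) (by
          intro j hj
          rw [mem_insert, mem_singleton] at hj
          rcases hj with rfl | rfl
          · exact ⟨hpm.2.1, hqm.2.1⟩
          · exact ⟨hpm.2.2, hqm.2.2⟩)
        rw [card_pair hef, hD.2.1] at h6
        omega
      · rw [not_forall] at hn
        obtain ⟨j, hj⟩ := hn
        rw [Classical.not_imp, not_not] at hj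
        refine ⟨j, ?_⟩
        rw [hp]
        intro u hu
        rw [mem_insert, mem_singleton] at hu
        rcases hu with rfl | rfl
        · exact hj.1
        · exact hj.2
  obtain ⟨g, hg⟩ := hT
  refine ⟨{e, f, g}, by rw [hD.2.2]; exact card_le_three, fun z hz => ?_⟩
  simp only [mem_union, mem_insert, mem_singleton] at hz
  rcases hz with hz | rfl | rfl
  · by_cases hze : z ∈ b e
    · exact ⟨e, by simp, hze⟩
    · by_cases hzf : z ∈ b f
      · exact ⟨f, by simp, hzf⟩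
      · refine ⟨g, by simp, hg (mem_sdiff.mpr ⟨hz, ?_⟩)⟩
        rw [mem_union, not_or]
        exact ⟨hze, hzf⟩
  · exact ⟨e, by simp, hx⟩
  · exact ⟨f, by simp, hy⟩

section comp

variable {i : ι} {K : Finset α}

/-- a block at a component of type `D` has at most one point in the block `b i` -/
theorem MC.dOne (h : MC b V) (hK : K ∈ cps b (V \ b i)) (hD : Dt b K) {j : ι} (hj : j ∈ mt b K) :
    (b j ∩ (b i ∩ V)).card ≤ 1 := by
  have h1 := dt_card3 (h.sys.mono (sub_of_cps hK)) hD j hj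
  have h2 : (b j ∩ K) ∪ (b j ∩ (b i ∩ V)) ⊆ b j ∩ V := by
    intro x hx
    rcases mem_union.mp hx with hx | hx
    · exact mem_inter.mpr ⟨(mem_inter.mp hx).1, sub_of_cps hK (mem_inter.mp hx).2⟩
    · exact mem_inter.mpr ⟨(mem_inter.mp hx).1, (mem_inter.mp (mem_inter.mp hx).2).2⟩
  have h3 := (card_le_card h2).trans (h.sys.sz j)
  rw [card_union_of_disjoint] at h3
  · omega
  · rw [disjoint_left]
    intro x hx hx2
    exact notMem_of_cps hK (mem_inter.mp (mem_inter.mp hx2).2).1 (mem_inter.mp hx).2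

theorem MC.dNe (h : MC b V) (hK : K ∈ cps b (V \ b i)) (hD : Dt b K) {e f : ι}
    (he : e ∈ mt b K) {x y : α} (hx : x ∈ b i ∩ V) (hy : y ∈ b i ∩ V) (hxy : x ≠ y)
    (hxe : x ∈ b e) (hyf : y ∈ b f) : e ≠ f := by
  rintro rfl
  exact hxy (card_le_one.mp (h.dOne hK hD he) x (mem_inter.mpr ⟨hxe, hx⟩) y
    (mem_inter.mpr ⟨hyf, hy⟩))

theorem sum_aK (B : Finset α) : ∑ x ∈ B, aK b K x = ∑ j ∈ mt b K, (b j ∩ B).card := by
  have h1 : ∀ x ∈ B, aK b K x = ∑ j ∈ mt b K, if x ∈ b j then 1 else 0 := by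
    intro x _
    unfold aK
    rw [← card_filter]
    congr 1
    ext j
    rw [mem_filter, mem_filter]
    exact ⟨fun h => ⟨h.2.2, h.2.1⟩, fun h => ⟨mem_univ _, h.2, h.1⟩⟩
  rw [sum_congr rfl h1, sum_comm]
  apply sum_congr rfl
  intro j _
  rw [← card_filter]
  congr 1
  ext x
  rw [mem_filter, mem_inter, and_comm]

theorem MC.dSum (h : MC b V) (hK : K ∈ cps b (V \ b i)) (hD : Dt b K) :
    ∑ x ∈ b i ∩ V, aK b K x ≤ 10 := by
  rw [sum_aK]
  refine (sum_le_sum fun j hj => h.dOne hK hD hj).trans ?_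
  rw [sum_const, smul_eq_mul, mul_one]
  exact le_of_eq hD.2.1

/-- pairs with three blocks are absorbed -/
theorem MC.dPair (h : MC b V) (hK : K ∈ cps b (V \ b i)) (hD : Dt b K) {x y : α}
    (hx : x ∈ b i ∩ V) (hy : y ∈ b i ∩ V) (hxy : x ≠ y) (hax : 2 ≤ aK b K x)
    (hay : 1 ≤ aK b K y) : Cv b (K ∪ {x, y}) (tau b K) := by
  obtain ⟨e, he, e', he', hee⟩ := one_lt_card.mp (show 1 < aK b K x by omega)
  obtain ⟨f, hf, hyf⟩ := aK_pos.mp (show 0 < aK b K y by omega)
  rw [mem_filter] at he he'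
  have hs := h.sys.mono (sub_of_cps hK)
  by_cases h1 : b e ∩ K = b f ∩ K
  · by_cases h2 : b e' ∩ K = b f ∩ K
    · exact absurd (dt_no3 hs hD he.2.2 he'.2.2 hf hee
        (h.dNe hK hD he.2.2 hx hy hxy he.2.1 hyf) (h.dNe hK hD he'.2.2 hx hy hxy he'.2.1 hyf)
        (h1.trans h2.symm) h1) (fun h => h)
    · exact dt_cover hs hD he'.2.2 hf h2 he'.2.1 hyf
  · exact dt_cover hs hD he.2.2 hf h1 he.2.1 hyf

theorem MC.dTri (h : MC b V) (hK : K ∈ cps b (V \ b i)) (hD : Dt b K) {x y z : α}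
    (hx : x ∈ b i ∩ V) (hy : y ∈ b i ∩ V) (hz : z ∈ b i ∩ V) (hxy : x ≠ y) (hxz : x ≠ z)
    (hyz : y ≠ z) (hax : 1 ≤ aK b K x) (hay : 1 ≤ aK b K y) (haz : 1 ≤ aK b K z) :
    Cv b (K ∪ {x, y}) (tau b K) ∨ Cv b (K ∪ {x, z}) (tau b K) := by
  obtain ⟨e, he, hxe⟩ := aK_pos.mp (show 0 < aK b K x by omega)
  obtain ⟨f, hf, hyf⟩ := aK_pos.mp (show 0 < aK b K y by omega)
  obtain ⟨g, hg, hzg⟩ := aK_pos.mp (show 0 < aK b K z by omega)
  have hs := h.sys.mono (sub_of_cps hK)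
  by_cases h1 : b e ∩ K = b f ∩ K
  · by_cases h2 : b e ∩ K = b g ∩ K
    · exact absurd (dt_no3 hs hD he hf hg (h.dNe hK hD he hx hy hxy hxe hyf)
        (h.dNe hK hD he hx hz hxz hxe hzg) (h.dNe hK hD hf hy hz hyz hyf hzg) h1 h2) (fun h => h)
    · exact Or.inr (dt_cover hs hD he hg h2 hxe hzg)
  · exact Or.inl (dt_cover hs hD he hf h1 hxe hyf)

theorem MC.dPsH (h : MC b V) (hK : K ∈ cps b (V \ b i)) (hD : Dt b K) : PsH b V K = -10 := by
  have h1 := dt_n1 (h.sys.mono (sub_of_cps hK)) hD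
  have h2 : (in1 b V K).card ≤ 0 := by
    rw [← h1]
    exact card_le_card (in1_le (sub_of_cps hK))
  unfold PsH Ph
  rw [hD.1, hD.2.1, hD.2.2, Nat.le_zero.mp h2]
  norm_num

/-- systems of type `D` obey the rule R3 -/
theorem MC.dRule3 (h : MC b V) (h4 : (b i ∩ V).card = 4) (hK : K ∈ cps b (V \ b i))
    (hD : Dt b K) {X : Finset α} (hX : X ⊆ b i ∩ V) (hX3 : X.card = 3)
    (ha : ∀ x ∈ X, 3 ≤ aK b K x) : Cv b (K ∪ X) (tau b K) := by
  by_contra hab
  have h1 := h.dPsH hK hD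
  rcases h.rule3 h4 hK hX hX3 ha hab with h2 | h2
  · omega
  · omega

end comp

/-! ## Saving -/

theorem MC.supp (h : MC b V) {i : ι} (h4 : (b i ∩ V).card = 4) {K : Finset α}
    (hK : K ∈ cps b (V \ b i)) : ∀ x ∈ b i ∩ V, ∃ y ∈ b i ∩ V, y ≠ x ∧ 1 ≤ aK b K y := by
  intro x _
  obtain ⟨y, hy, z, hz, hyz⟩ := one_lt_card.mp (show 1 < (PK b V i K).card from h.P2 h4 hK)
  rw [mem_PK'] at hy hz
  by_cases hyx : y = x
  · exact ⟨z, hz.1, fun h => hyz (hyx.trans h.symm), hz.2⟩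
  · exact ⟨y, hy.1, hyx, hy.2⟩

theorem MC.sing (h : MC b V) {i : ι} (h4 : (b i ∩ V).card = 4) {K : Finset α}
    (hK : K ∈ cps b (V \ b i)) {x : α} (hx : 1 ≤ aK b K x) : Cv b (K ∪ {x}) (tau b K) := by
  obtain ⟨j, hj, hxj⟩ := aK_pos.mp (show 0 < aK b K x by omega)
  exact h.absC h4 hK hj (singleton_subset_iff.mpr hxj)

theorem MC.save2 (h : MC b V) {i : ι} (hi : i ∈ mt b V) {K C : Finset α} (hne : K ≠ C)
    (hc : cps b (V \ b i) = {K, C}) {X Y : Finset α} (hX : Cv b (K ∪ X) (tau b K))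
    (hY : Cv b (C ∪ Y) (tau b C)) (hB : b i ∩ V ⊆ X ∪ Y) : False := by
  have h1 := tau_cps (h.sys.cb.mono (sdiff_subset (s := V) (t := b i)))
  rw [hc, sum_pair hne] at h1
  have h2 : V ⊆ (K ∪ X) ∪ (C ∪ Y) := by
    intro x hx
    by_cases hxi : x ∈ b i
    · rcases mem_union.mp (hB (mem_inter.mpr ⟨hxi, hx⟩)) with h3 | h3
      · exact mem_union_left _ (mem_union_right _ h3)
      · exact mem_union_right _ (mem_union_right _ h3)
    · have h3 : x ∈ V \ b i := mem_sdiff.mpr ⟨hx, hxi⟩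
      rw [← cps_union (b := b) (U := V \ b i), hc, mem_biUnion] at h3
      obtain ⟨D, hD, hxD⟩ := h3
      rw [mem_insert, mem_singleton] at hD
      rcases hD with rfl | rfl
      · exact mem_union_left _ (mem_union_left _ hxD)
      · exact mem_union_right _ (mem_union_left _ hxD)
  have h3 := tau_le ((cv_union hX hY).mono h2 le_rfl)
  have h4 := h.sat hi
  omega

theorem MC.save3 (h : MC b V) {i : ι} (hi : i ∈ mt b V) {K C D : Finset α} (hKC : K ≠ C)
    (hKD : K ≠ D) (hCD : C ≠ D) (hc : ∀ W, W ∈ cps b (V \ b i) ↔ W = K ∨ W = C ∨ W = D)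
    {X Y Z : Finset α} (hX : Cv b (K ∪ X) (tau b K)) (hY : Cv b (C ∪ Y) (tau b C))
    (hZ : Cv b (D ∪ Z) (tau b D)) (hB : b i ∩ V ⊆ X ∪ Y ∪ Z) : False := by
  have hc' : cps b (V \ b i) = {K, C, D} := by
    ext W
    rw [hc, mem_insert, mem_insert, mem_singleton]
  have h1 := tau_cps (h.sys.cb.mono (sdiff_subset (s := V) (t := b i)))
  rw [hc', sum_insert (by rw [mem_insert, mem_singleton, not_or]; exact ⟨hKC, hKD⟩),
    sum_pair hCD] at h1
  have h2 : V ⊆ (K ∪ X) ∪ ((C ∪ Y) ∪ (D ∪ Z)) := by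
    intro x hx
    simp only [mem_union]
    by_cases hxi : x ∈ b i
    · have h3 := hB (mem_inter.mpr ⟨hxi, hx⟩)
      simp only [mem_union] at h3
      tauto
    · have h3 : x ∈ V \ b i := mem_sdiff.mpr ⟨hx, hxi⟩
      rw [← cps_union (b := b) (U := V \ b i), mem_biUnion] at h3
      obtain ⟨W, hW, hxW⟩ := h3
      rw [hc] at hW
      have hxW' : x ∈ W := hxW
      rcases hW with rfl | rfl | rfl
      · exact Or.inl (Or.inl hxW')
      · exact Or.inr (Or.inl (Or.inl hxW'))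
      · exact Or.inr (Or.inr (Or.inl hxW'))
  have h3 := tau_le ((cv_union hX (cv_union hY hZ)).mono h2 le_rfl)
  have h4 := h.sat hi
  omega

/-! ## Three components -/

theorem or3a {P Q R : Prop} : P ∨ Q ∨ R ↔ Q ∨ P ∨ R := by tauto

theorem or3b {P Q R : Prop} : P ∨ Q ∨ R ↔ R ∨ P ∨ Q := by tauto

theorem MC.hno (h : MC b V) {i : ι} (h4 : (b i ∩ V).card = 4) {K C D : Finset α} (hKC : K ≠ C)
    (hKD : K ≠ D) (hCD : C ≠ D) (hc : ∀ W, W ∈ cps b (V \ b i) ↔ W = K ∨ W = C ∨ W = D) :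
    ∀ x y z t, Q4 (b i ∩ V) x y z t → Cv b (K ∪ {x, y}) (tau b K) → 1 ≤ aK b C z →
      1 ≤ aK b D t → False := by
  intro x y z t hq hR hz ht
  have hC : C ∈ cps b (V \ b i) := (hc C).mpr (Or.inr (Or.inl rfl))
  have hD : D ∈ cps b (V \ b i) := (hc D).mpr (Or.inr (Or.inr rfl))
  refine h.save3 (mt_card_pos.mpr (by omega)) hKC hKD hCD hc hR (h.sing h4 hC hz)
    (h.sing h4 hD ht) ?_
  intro u hu
  simp only [mem_union, mem_insert, mem_singleton]
  rcases hq.cases h4 hu with rfl | rfl | rfl | rfl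
  · exact Or.inl (Or.inl (Or.inl rfl))
  · exact Or.inl (Or.inl (Or.inr rfl))
  · exact Or.inl (Or.inr rfl)
  · exact Or.inr rfl

theorem MC.three (h : MC b V) {i : ι} (h4 : (b i ∩ V).card = 4) {K C D : Finset α} (hKC : K ≠ C)
    (hKD : K ≠ D) (hCD : C ≠ D) (hc : ∀ W, W ∈ cps b (V \ b i) ↔ W = K ∨ W = C ∨ W = D)
    (hneg : PsH b V K + PsH b V C + PsH b V D < 0) (h16 : 16 ≤ PsH b V K) : False := by
  have hi : i ∈ mt b V := mt_card_pos.mpr (by omega)
  have hK : K ∈ cps b (V \ b i) := (hc K).mpr (Or.inl rfl)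
  have hC : C ∈ cps b (V \ b i) := (hc C).mpr (Or.inr (Or.inl rfl))
  have hD : D ∈ cps b (V \ b i) := (hc D).mpr (Or.inr (Or.inr rfl))
  have g10 : ∀ W ∈ cps b (V \ b i), -10 ≤ PsH b V W := fun W hW =>
    (h.ih.ge10 (cps_ne hW) (h.ltK hi hW) (h.sys.mono (sub_of_cps hW)) (cps_con hW)).trans
      (Ps_le_PsH (sub_of_cps hW))
  have g2 : ∀ W ∈ cps b (V \ b i), ¬ Dt b W → -2 ≤ PsH b V W := fun W hW hWD =>
    (h.ih.ge2 (cps_ne hW) (h.ltK hi hW) (h.sys.mono (sub_of_cps hW)) (cps_con hW) hWD).trans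
      (Ps_le_PsH (sub_of_cps hW))
  have hDC : Dt b C := by
    by_contra h1
    have := g2 C hC h1
    have := g10 D hD
    omega
  have hDD : Dt b D := by
    by_contra h1
    have := g2 D hD h1
    have := g10 C hC
    omega
  have hlt : PsH b V K < 52 := by
    have := g10 C hC
    have := g10 D hD
    omega
  have hcol : ∀ x ∈ b i ∩ V, aK b K x + aK b C x + aK b D x = 4 := by
    intro x hx
    have h1 := h.col h4 hx
    have hc' : cps b (V \ b i) = {K, C, D} := by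
      ext W
      rw [hc, mem_insert, mem_insert, mem_singleton]
    rw [hc', sum_insert (by rw [mem_insert, mem_singleton, not_or]; exact ⟨hKC, hKD⟩),
      sum_pair hCD] at h1
    omega
  refine m3w (B := b i ∩ V) (a := fun K x => aK b K x)
    (R := fun K x y => Cv b (K ∪ {x, y}) (tau b K)) h4 (p := K) (q := C) (s := D)
    (h.hno h4 hKC hKD hCD hc)
    (h.hno h4 hKC.symm hCD hKD (fun W => (hc W).trans or3a))
    (h.hno h4 hKD.symm hCD.symm hKC (fun W => (hc W).trans or3b))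
    (fun x hx y hy hxy h1 h2 => h.rule2' h4 hK hlt hx hy hxy h1 h2)
    (fun x hx y hy hxy h1 h2 => h.dPair hC hDC hx hy hxy h1 h2)
    (fun x hx y hy hxy h1 h2 => h.dPair hD hDD hx hy hxy h1 h2)
    (fun x hx y hy z hz hxy hxz hyz h1 h2 h3 => h.dTri hC hDC hx hy hz hxy hxz hyz h1 h2 h3)
    hcol (h.supp h4 hK) (h.supp h4 hC) (h.supp h4 hD)

theorem MC.no3 (h : MC b V) {i : ι} (h4 : (b i ∩ V).card = 4) : (cps b (V \ b i)).card ≠ 3 := by
  intro h3
  obtain ⟨K, C, D, hKC, hKD, hCD, hc'⟩ := card_eq_three.mp h3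
  have hc : ∀ W, W ∈ cps b (V \ b i) ↔ W = K ∨ W = C ∨ W = D := by
    intro W
    rw [hc', mem_insert, mem_insert, mem_singleton]
  have hi : i ∈ mt b V := mt_card_pos.mpr (by omega)
  have hK : K ∈ cps b (V \ b i) := (hc K).mpr (Or.inl rfl)
  have hC : C ∈ cps b (V \ b i) := (hc C).mpr (Or.inr (Or.inl rfl))
  have hD : D ∈ cps b (V \ b i) := (hc D).mpr (Or.inr (Or.inr rfl))
  have hsum := h.sum h4
  rw [hc', sum_insert (by rw [mem_insert, mem_singleton, not_or]; exact ⟨hKC, hKD⟩),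
    sum_pair hCD] at hsum
  have hneg := h.neg
  by_cases h1 : 16 ≤ PsH b V K
  · exact h.three h4 hKC hKD hCD hc (by omega) h1
  by_cases h2 : 16 ≤ PsH b V C
  · exact h.three h4 hKC.symm hCD hKD (fun W => (hc W).trans or3a) (by omega) h2
  by_cases h3 : 16 ≤ PsH b V D
  · exact h.three h4 hKD.symm hCD.symm hKC (fun W => (hc W).trans or3b) (by omega) h3
  have hcol : ∀ x ∈ b i ∩ V, aK b K x + aK b C x + aK b D x = 4 := by
    intro x hx
    have h1 := h.col h4 hx
    rw [hc', sum_insert (by rw [mem_insert, mem_singleton, not_or]; exact ⟨hKC, hKD⟩),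
      sum_pair hCD] at h1
    omega
  refine m3 (B := b i ∩ V) (a := fun K x => aK b K x)
    (R := fun K x y => Cv b (K ∪ {x, y}) (tau b K)) h4 (p := K) (q := C) (s := D)
    (h.hno h4 hKC hKD hCD hc)
    (h.hno h4 hKC.symm hCD hKD (fun W => (hc W).trans or3a))
    (h.hno h4 hKD.symm hCD.symm hKC (fun W => (hc W).trans or3b))
    (fun x hx y hy hxy h1 h2 => h.rule2 h4 hK (by omega) hx hy hxy h1 h2)
    (fun x hx y hy hxy h1 h2 => h.rule2 h4 hC (by omega) hx hy hxy h1 h2)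
    (fun x hx y hy hxy h1 h2 => h.rule2 h4 hD (by omega) hx hy hxy h1 h2)
    hcol (h.supp h4 hK) (h.supp h4 hC) (h.supp h4 hD)

/-! ## Two components -/

/-- one side of the case of two components -/
theorem MC.two_side (h : MC b V) {i : ι} (h4 : (b i ∩ V).card = 4) {K C : Finset α}
    (hne : K ≠ C) (hc : cps b (V \ b i) = {K, C})
    {X : Finset α} (hX : X ⊆ b i ∩ V) (hX3 : X.card = 3) (ha : ∀ x ∈ X, 3 ≤ aK b K x)
    (hab : ¬ Cv b (K ∪ X) (tau b K)) : TV b K X ∨
      (Dt b C ∧ ∃ x y z t, Q4 (b i ∩ V) x y z t ∧ aK b C x = 1 ∧ aK b C y = 1 ∧ aK b C z = 0 ∧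
        aK b C t = 0 ∧ ¬ Cv b (C ∪ {x, y}) (tau b C)) := by
  have hi : i ∈ mt b V := mt_card_pos.mpr (by omega)
  have hK : K ∈ cps b (V \ b i) := by rw [hc]; simp
  have hC : C ∈ cps b (V \ b i) := by rw [hc]; simp
  have hsum := h.sum h4
  rw [hc, sum_pair hne] at hsum
  have hneg := h.neg
  rcases h.rule3 h4 hK hX hX3 ha hab with h1 | h1
  · right
    have hDC : Dt b C := by
      by_contra h2
      have h3 := (h.ih.ge2 (cps_ne hC) (h.ltK hi hC) (h.sys.mono (sub_of_cps hC))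
        (cps_con hC) h2).trans (Ps_le_PsH (sub_of_cps hC))
      omega
    refine ⟨hDC, ?_⟩
    have hC10 := h.dPsH hC hDC
    have hsc : 2 ≤ ((b i ∩ V).filter fun x => 1 ≤ aK b C x).card := by
      have h2 := h.P2 h4 hC
      have h3 : PK b V i C = (b i ∩ V).filter fun x => 1 ≤ aK b C x := by
        ext x
        rw [mem_PK', mem_filter]
        exact ⟨fun h => ⟨h.1, h.2⟩, fun h => ⟨h.1, h.2⟩⟩
      rwa [h3] at h2
    have hcol : ∀ x ∈ b i ∩ V, aK b K x + aK b C x = 4 := by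
      intro x hx
      have h1 := h.col h4 hx
      rwa [hc, sum_pair hne] at h1
    exact m2d (B := b i ∩ V) (a := fun x => aK b K x) (c := fun x => aK b C x)
      (A := fun X => Cv b (K ∪ X) (tau b K)) (C := fun X => Cv b (C ∪ X) (tau b C)) h4
      (fun X Y hX hY h1 h2 => h.save2 hi hne hc h1 h2 (by
        rw [hY]
        intro u hu
        by_cases h5 : u ∈ X
        · exact mem_union_left _ h5
        · exact mem_union_right _ (mem_sdiff.mpr ⟨hu, h5⟩)))
      hcol (fun x _ h1 => h.sing h4 hK h1)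
      (fun x hx y hy hxy h1 h2 => h.rule2 h4 hK (by omega) hx hy hxy h1 h2)
      (fun x hx y hy hxy h1 h2 => h.dPair hC hDC hx hy hxy h1 h2)
      (fun X hX hX3 h1 => h.dRule3 h4 hC hDC hX hX3 h1)
      (fun x hx y hy z hz hxy hxz hyz h1 h2 h3 => h.dTri hC hDC hx hy hz hxy hxz hyz h1 h2 h3)
      (h.dSum hC hDC) hsc
  · exact Or.inl h1.1

theorem MC.two (h : MC b V) {i : ι} (h4 : (b i ∩ V).card = 4)
    (h2 : (cps b (V \ b i)).card = 2) :
    ∃ K C, K ≠ C ∧ cps b (V \ b i) = {K, C} ∧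
      ((∃ X, X ⊆ b i ∩ V ∧ TV b K X) ∨
      (Dt b C ∧ ∃ x y z t, Q4 (b i ∩ V) x y z t ∧ aK b C x = 1 ∧ aK b C y = 1 ∧ aK b C z = 0 ∧
        aK b C t = 0 ∧ ¬ Cv b (C ∪ {x, y}) (tau b C))) := by
  obtain ⟨K, C, hne, hc⟩ := card_eq_two.mp h2
  have hi : i ∈ mt b V := mt_card_pos.mpr (by omega)
  have hK : K ∈ cps b (V \ b i) := by rw [hc]; simp
  have hC : C ∈ cps b (V \ b i) := by rw [hc]; simp
  have hsum := h.sum h4
  rw [hc, sum_pair hne] at hsum
  have hneg := h.neg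
  have g10 : ∀ W ∈ cps b (V \ b i), -10 ≤ PsH b V W := fun W hW =>
    (h.ih.ge10 (cps_ne hW) (h.ltK hi hW) (h.sys.mono (sub_of_cps hW)) (cps_con hW)).trans
      (Ps_le_PsH (sub_of_cps hW))
  have gK := g10 K hK
  have gC := g10 C hC
  have hcol : ∀ x ∈ b i ∩ V, aK b K x + aK b C x = 4 := by
    intro x hx
    have h1 := h.col h4 hx
    rwa [hc, sum_pair hne] at h1
  by_cases h3K : ∀ X, X ⊆ b i ∩ V → X.card = 3 → (∀ x ∈ X, 3 ≤ aK b K x) →
      Cv b (K ∪ X) (tau b K)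
  · by_cases h3C : ∀ X, X ⊆ b i ∩ V → X.card = 3 → (∀ x ∈ X, 3 ≤ aK b C x) →
        Cv b (C ∪ X) (tau b C)
    · exfalso
      have hsp : ∀ W ∈ cps b (V \ b i), ∃ y ∈ b i ∩ V, 1 ≤ aK b W y := by
        intro W hW
        obtain ⟨x, hx⟩ := card_pos.mp (show 0 < (b i ∩ V).card by omega)
        obtain ⟨y, hy, -, hy2⟩ := h.supp h4 hW x hx
        exact ⟨y, hy, hy2⟩
      exact m2 (B := b i ∩ V) (a := fun x => aK b K x) (c := fun x => aK b C x)
        (A := fun X => Cv b (K ∪ X) (tau b K)) (C := fun X => Cv b (C ∪ X) (tau b C)) h4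
        (fun X Y hX hY h1 h2 => h.save2 hi hne hc h1 h2 (by
          rw [hY]
          intro u hu
          by_cases h5 : u ∈ X
          · exact mem_union_left _ h5
          · exact mem_union_right _ (mem_sdiff.mpr ⟨hu, h5⟩)))
        hcol (fun x _ h1 => h.sing h4 hK h1) (fun x _ h1 => h.sing h4 hC h1)
        (fun x hx y hy hxy h1 h2 => h.rule2 h4 hK (by omega) hx hy hxy h1 h2)
        (fun x hx y hy hxy h1 h2 => h.rule2 h4 hC (by omega) hx hy hxy h1 h2)
        h3K h3C (hsp K hK) (hsp C hC)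
    · rw [not_forall] at h3C
      obtain ⟨X, hX⟩ := h3C
      rw [Classical.not_imp, Classical.not_imp, Classical.not_imp] at hX
      obtain ⟨hX, hX3, ha, hab⟩ := hX
      refine ⟨C, K, hne.symm, by rw [hc, pair_comm], ?_⟩
      rcases h.two_side h4 hne.symm (by rw [hc, pair_comm]) hX hX3 ha hab with h5 | h5
      · exact Or.inl ⟨X, hX, h5⟩
      · exact Or.inr h5
  · rw [not_forall] at h3K
    obtain ⟨X, hX⟩ := h3K
    rw [Classical.not_imp, Classical.not_imp, Classical.not_imp] at hX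
    obtain ⟨hX, hX3, ha, hab⟩ := hX
    refine ⟨K, C, hne, hc, ?_⟩
    rcases h.two_side h4 hne hc hX hX3 ha hab with h5 | h5
    · exact Or.inl ⟨X, hX, h5⟩
    · exact Or.inr h5

end Pool.Agent.Helper34.C5
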