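import Mathlib

/-!
# Gram matrix
-/

set_option linter.unusedSectionVars false
set_option autoImplicit false

open Finset

namespace Pool.Agent.Helper34.C5

variable {α ι : Type} [DecidableEq α] [DecidableEq ι]

theorem gram {F : Finset ι} {c : ι → ℝ} {p : ι → ι → ℝ} (h0 : ∀ e ∈ F, ∀ f ∈ F, 0 ≤ p e f)
    (hs : ∀ e f, p e f = p f e) (h1 : ∀ e ∈ F, ∑ f ∈ F, p e f ≤ 1)
    (hsum : ∑ e ∈ F, ∑ f ∈ F, c e * c f * (2 + (if e = f then 2 else 0) + p e f) = 0) :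
    ∀ e ∈ F, c e = 0 := by
  have e1 : ∑ e ∈ F, ∑ f ∈ F, c e * c f * 2 = 2 * (∑ e ∈ F, c e) * ∑ f ∈ F, c f := by
    rw [mul_assoc, sum_mul_sum, mul_sum]
    apply sum_congr rfl
    intro e _
    rw [mul_sum]
    apply sum_congr rfl
    intro f _
    ring
  have e2 : ∑ e ∈ F, ∑ f ∈ F, c e * c f * (if e = f then 2 else 0) = ∑ e ∈ F, 2 * c e ^ 2 := by
    apply sum_congr rfl
    intro e he
    rw [sum_eq_single e]
    · rw [if_pos rfl]
      ring
    · intro f _ hf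
      rw [if_neg (Ne.symm hf), mul_zero]
    · exact fun h => absurd he h
  have e3 : ∑ e ∈ F, ∑ f ∈ F, (c e ^ 2 + c f ^ 2) / 2 * p e f = ∑ e ∈ F, c e ^ 2 * ∑ f ∈ F, p e f := by
    have e4 : ∑ e ∈ F, ∑ f ∈ F, (c e ^ 2 + c f ^ 2) / 2 * p e f =
        ∑ e ∈ F, ∑ f ∈ F, c e ^ 2 / 2 * p e f + ∑ e ∈ F, ∑ f ∈ F, c f ^ 2 / 2 * p e f := by
      rw [← sum_add_distrib]
      apply sum_congr rfl
      intro e _
      rw [← sum_add_distrib]
      apply sum_congr rfl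
      intro f _
      ring
    have e5 : ∑ e ∈ F, ∑ f ∈ F, c f ^ 2 / 2 * p e f = ∑ e ∈ F, ∑ f ∈ F, c e ^ 2 / 2 * p e f := by
      rw [sum_comm]
      apply sum_congr rfl
      intro e _
      apply sum_congr rfl
      intro f _
      rw [hs]
    rw [e4, e5, ← sum_add_distrib]
    apply sum_congr rfl
    intro e _
    rw [mul_sum, ← sum_add_distrib]
    apply sum_congr rfl
    intro f _
    ring
  have e6 : ∑ e ∈ F, c e ^ 2 * ∑ f ∈ F, p e f ≤ ∑ e ∈ F, c e ^ 2 := by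
    apply sum_le_sum
    intro e he
    have := mul_le_mul_of_nonneg_left (h1 e he) (sq_nonneg (c e))
    linarith
  have e7 : 0 ≤ ∑ e ∈ F, ∑ f ∈ F, (c e * c f * p e f + (c e ^ 2 + c f ^ 2) / 2 * p e f) := by
    apply sum_nonneg
    intro e he
    apply sum_nonneg
    intro f hf
    have h2 : c e * c f * p e f + (c e ^ 2 + c f ^ 2) / 2 * p e f = (c e + c f) ^ 2 / 2 * p e f := by
      ring
    rw [h2]
    exact mul_nonneg (by positivity) (h0 e he f hf)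
  have e8 : ∑ e ∈ F, ∑ f ∈ F, (c e * c f * p e f + (c e ^ 2 + c f ^ 2) / 2 * p e f) =
      ∑ e ∈ F, ∑ f ∈ F, c e * c f * p e f + ∑ e ∈ F, ∑ f ∈ F, (c e ^ 2 + c f ^ 2) / 2 * p e f := by
    rw [← sum_add_distrib]
    apply sum_congr rfl
    intro e _
    rw [← sum_add_distrib]
  have e9 : ∑ e ∈ F, ∑ f ∈ F, c e * c f * (2 + (if e = f then 2 else 0) + p e f) =
      ∑ e ∈ F, ∑ f ∈ F, c e * c f * 2 + ∑ e ∈ F, ∑ f ∈ F, c e * c f * (if e = f then 2 else 0) +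
      ∑ e ∈ F, ∑ f ∈ F, c e * c f * p e f := by
    rw [← sum_add_distrib, ← sum_add_distrib]
    apply sum_congr rfl
    intro e _
    rw [← sum_add_distrib, ← sum_add_distrib]
    apply sum_congr rfl
    intro f _
    ring
  rw [e9, e1, e2] at hsum
  rw [e8, e3] at e7
  have e10 : ∑ e ∈ F, 2 * c e ^ 2 = 2 * ∑ e ∈ F, c e ^ 2 := by
    rw [mul_sum]
  have e11 : 0 ≤ 2 * (∑ e ∈ F, c e) * ∑ f ∈ F, c f := by
    have := mul_self_nonneg (∑ e ∈ F, c e)
    linarith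
  have e12 : ∑ e ∈ F, c e ^ 2 ≤ 0 := by
    rw [e10] at hsum
    linarith
  have e13 : ∑ e ∈ F, c e ^ 2 = 0 := le_antisymm e12 (sum_nonneg fun e _ => sq_nonneg (c e))
  intro e he
  exact pow_eq_zero_iff (two_ne_zero) |>.mp
    ((sum_eq_zero_iff_of_nonneg fun e _ => sq_nonneg (c e)).mp e13 e he)

theorem dep (F : Finset ι) (V : Finset α) (hF : V.card < F.card) (m : ι → α → ℝ) :
    ∃ c : ι → ℝ, (∃ e ∈ F, c e ≠ 0) ∧ ∀ x ∈ V, ∑ e ∈ F, c e * m e x = 0 := by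
  have hnot : ¬ LinearIndependent ℝ (fun (e : {e // e ∈ F}) (x : {x // x ∈ V}) => m e.1 x.1) := by
    intro hl
    have h1 := hl.fintype_card_le_finrank
    rw [Fintype.card_coe, Module.finrank_fintype_fun_eq_card, Fintype.card_coe] at h1
    omega
  rw [Fintype.not_linearIndependent_iff] at hnot
  obtain ⟨g, hg, e, he⟩ := hnot
  refine ⟨fun e => if h : e ∈ F then g ⟨e, h⟩ else 0, ⟨e.1, e.2, ?_⟩, ?_⟩
  · show (if h : e.1 ∈ F then g ⟨e.1, h⟩ else 0) ≠ 0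
    rw [dif_pos e.2]
    exact he
  · intro x hx
    have h1 := congrFun hg ⟨x, hx⟩
    rw [Finset.sum_apply] at h1
    have h2 : ∑ e ∈ F.attach, (g e • fun y : {x // x ∈ V} => m e.1 y.1) ⟨x, hx⟩ = 0 := h1
    rw [← sum_attach]
    refine (sum_congr rfl ?_).trans h2
    intro e _
    show (if h : e.1 ∈ F then g ⟨e.1, h⟩ else 0) * m e.1 x = g e * m e.1 x
    rw [dif_pos e.2]

/-- **the Gram argument**: the intersections are 4 on the diagonal, 2 or 3 outside, and at most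
one 3 in each row -/
theorem gram_card {b : ι → Finset α} {F : Finset ι} {V : Finset α}
    (h4 : ∀ e ∈ F, (b e ∩ V).card = 4)
    (h2 : ∀ e ∈ F, ∀ f ∈ F, e ≠ f → (b e ∩ b f ∩ V).card = 2 ∨ (b e ∩ b f ∩ V).card = 3)
    (h3 : ∀ e ∈ F, ∀ f ∈ F, ∀ g ∈ F, e ≠ f → e ≠ g → (b e ∩ b f ∩ V).card = 3 →
      (b e ∩ b g ∩ V).card = 3 → f = g) : F.card ≤ V.card := by
  by_contra hcon
  obtain ⟨c, ⟨e, he, hce⟩, hc⟩ := dep F V (by omega) (fun e x => if x ∈ b e then 1 else 0)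
  apply hce
  let p : ι → ι → ℝ := fun e f => if e ≠ f ∧ (b e ∩ b f ∩ V).card = 3 then 1 else 0
  apply gram (F := F) (c := c) (p := p) ?_ ?_ ?_ ?_ e he
  · intro e _ f _
    show 0 ≤ (if e ≠ f ∧ (b e ∩ b f ∩ V).card = 3 then (1 : ℝ) else 0)
    split_ifs
    · exact zero_le_one
    · exact le_rfl
  · intro e f
    show (if e ≠ f ∧ (b e ∩ b f ∩ V).card = 3 then (1 : ℝ) else 0) =
      (if f ≠ e ∧ (b f ∩ b e ∩ V).card = 3 then (1 : ℝ) else 0)
    rw [inter_comm (b f) (b e)]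
    exact if_congr ⟨fun h => ⟨Ne.symm h.1, h.2⟩, fun h => ⟨Ne.symm h.1, h.2⟩⟩ rfl rfl
  · intro e he
    show ∑ f ∈ F, (if e ≠ f ∧ (b e ∩ b f ∩ V).card = 3 then (1 : ℝ) else 0) ≤ 1
    rw [← sum_filter, sum_const, nsmul_eq_mul, mul_one]
    have h5 : (F.filter fun f => e ≠ f ∧ (b e ∩ b f ∩ V).card = 3).card ≤ 1 := by
      rw [card_le_one]
      intro f hf g hg
      rw [mem_filter] at hf hg
      exact h3 e he f hf.1 g hg.1 hf.2.1 hg.2.1 hf.2.2 hg.2.2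
    exact_mod_cast h5
  · have h5 : ∑ x ∈ V, (∑ e ∈ F, c e * (if x ∈ b e then (1 : ℝ) else 0)) *
        (∑ f ∈ F, c f * (if x ∈ b f then (1 : ℝ) else 0)) = 0 := by
      apply sum_eq_zero
      intro x hx
      rw [hc x hx, mul_zero]
    refine Eq.trans ?_ h5
    have h6 : ∀ x ∈ V, (∑ e ∈ F, c e * (if x ∈ b e then (1 : ℝ) else 0)) *
        (∑ f ∈ F, c f * (if x ∈ b f then (1 : ℝ) else 0)) =
        ∑ e ∈ F, ∑ f ∈ F, c e * c f * (if x ∈ b e ∩ b f then (1 : ℝ) else 0) := by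
      intro x _
      rw [sum_mul_sum]
      apply sum_congr rfl
      intro e _
      apply sum_congr rfl
      intro f _
      by_cases hxe : x ∈ b e
      · by_cases hxf : x ∈ b f
        · rw [if_pos hxe, if_pos hxf, if_pos (mem_inter.mpr ⟨hxe, hxf⟩)]
          ring
        · rw [if_neg hxf, if_neg fun h => hxf (mem_inter.mp h).2]
          ring
      · rw [if_neg hxe, if_neg fun h => hxe (mem_inter.mp h).1]
        ring
    have h9 : ∑ x ∈ V, ∑ e ∈ F, ∑ f ∈ F, c e * c f * (if x ∈ b e ∩ b f then (1 : ℝ) else 0) =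
        ∑ e ∈ F, ∑ f ∈ F, ∑ x ∈ V, c e * c f * (if x ∈ b e ∩ b f then (1 : ℝ) else 0) := by
      rw [sum_comm]
      apply sum_congr rfl
      intro e _
      rw [sum_comm]
    rw [sum_congr rfl h6, h9]
    apply sum_congr rfl
    intro e he
    apply sum_congr rfl
    intro f hf
    rw [← mul_sum]
    congr 1
    rw [← sum_filter, sum_const, nsmul_eq_mul, mul_one]
    have h7 : (V.filter fun x => x ∈ b e ∩ b f) = b e ∩ b f ∩ V := by
      ext x
      rw [mem_filter, mem_inter (s₂ := V), and_comm]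
    rw [h7]
    by_cases hef : e = f
    · rw [← hef, if_pos rfl, inter_self, h4 e he]
      show (2 + 2 + (if e ≠ e ∧ (b e ∩ b e ∩ V).card = 3 then (1 : ℝ) else 0)) = _
      rw [if_neg (fun h => h.1 rfl)]
      norm_num
    · rw [if_neg hef]
      show (2 + 0 + (if e ≠ f ∧ (b e ∩ b f ∩ V).card = 3 then (1 : ℝ) else 0)) = _
      rcases h2 e he f hf hef with h8 | h8
      · rw [if_neg (fun h => by omega), h8]
        norm_num
      · rw [if_pos ⟨hef, h8⟩, h8]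
        norm_num

end Pool.Agent.Helper34.C5
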