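import Pool.Agent.Helper34.C5.Sp4
import Pool.Agent.Helper34.C5.Gram

/-!
# The four-level step
-/

set_option linter.unusedSectionVars false
set_option autoImplicit false

open Finset
open Pool.Agent.Helper20.C5

namespace Pool.Agent.Helper34.C5

section

variable {α ι : Type} [DecidableEq α] [DecidableEq ι] [Fintype ι]
variable {b : ι → Finset α} {V : Finset α} {i : ι}

theorem MC.cps1 (h : MC b V) (h4 : (b i ∩ V).card = 4) : cps b (V \ b i) = {V \ b i} := by
  obtain ⟨K, hK⟩ := card_eq_one.mp (h.one h4)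
  have h1 : (cps b (V \ b i)).biUnion id = V \ b i := cps_union
  rw [hK, singleton_biUnion] at h1
  rw [hK]
  exact congrArg _ h1

theorem MC.memR (h : MC b V) (h4 : (b i ∩ V).card = 4) : V \ b i ∈ cps b (V \ b i) := by
  rw [h.cps1 h4]
  exact mem_singleton_self _

theorem MC.typ (h : MC b V) (h4 : (b i ∩ V).card = 4) :
    T3 b (V \ b i) ∨ E4 b (V \ b i) := by
  have hi : i ∈ mt b V := mt_card_pos.mpr (by omega)
  have hK := h.memR h4
  have h1 := h.sum h4
  rw [h.cps1 h4, sum_singleton] at h1
  have h2 := Ps_le_PsH (b := b) (sub_of_cps hK)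
  have h3 := h.neg
  rcases h.ih _ _ b (V \ b i) (cps_ne hK) (h.ltK hi hK) (h.sys.mono (sub_of_cps hK))
    (cps_con hK) with h5 | h5 | h5 | h5
  · omega
  · exfalso
    have h6 := h.dSum hK h5
    have h7 : ∀ x ∈ b i ∩ V, aK b (V \ b i) x = 4 := by
      intro x hx
      have h8 := h.col h4 hx
      rwa [h.cps1 h4, sum_singleton] at h8
    rw [sum_congr rfl h7, sum_const, h4] at h6
    norm_num at h6
  · exact Or.inl h5
  · exact Or.inr h5

theorem card_V (h4 : (b i ∩ V).card = 4) : V.card = (V \ b i).card + 4 := by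
  have h1 := card_sdiff_add_card_eq_card (inter_subset_right : b i ∩ V ⊆ V)
  have e1 : V \ (b i ∩ V) = V \ b i := by
    ext x
    simp only [mem_sdiff, mem_inter]
    tauto
  rw [e1] at h1
  omega

theorem tr_sdiff {i j : ι} : (b j ∩ (V \ b i)).card + (b j ∩ b i ∩ V).card = (b j ∩ V).card := by
  rw [← card_union_of_disjoint]
  · congr 1
    ext x
    simp only [mem_union, mem_inter, mem_sdiff]
    tauto
  · rw [disjoint_left]
    intro x hx hx2
    exact (mem_sdiff.mp (mem_inter.mp hx).2).2 (mem_inter.mp (mem_inter.mp hx2).1).2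

theorem MC.noT (h : MC b V) (h4 : (b i ∩ V).card = 4) : ¬ T3 b (V \ b i) := by
  intro hT
  have hV : V.card = 7 := by
    rw [card_V h4, hT.1]
  have hTe : ∀ e, (b e ∩ V).card = 4 → T3 b (V \ b e) := by
    intro e he
    rcases h.typ he with h1 | h1
    · exact h1
    · exfalso
      have h2 := card_V (V := V) he
      rw [h1.1] at h2
      omega
  have hne : ∀ e f, (b e ∩ V).card = 4 → (b f ∩ V).card = 4 → e ≠ f →
      1 ≤ (b f ∩ (V \ b e)).card := by
    intro e f he hf hef
    obtain ⟨K, hK, hfK⟩ := h.meets he (mt_card_pos.mpr (by omega)) (Ne.symm hef)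
    rw [h.cps1 he, mem_singleton] at hK
    rw [hK] at hfK
    exact mt_card_pos.mp hfK
  let F : Finset ι := univ.filter fun e => (b e ∩ V).card = 4
  have hF : ∀ e, e ∈ F ↔ (b e ∩ V).card = 4 := by
    intro e
    rw [mem_filter]
    exact ⟨fun h => h.2, fun h => ⟨mem_univ _, h⟩⟩
  have h1 : F.card ≤ V.card := by
    apply gram_card (b := b)
    · exact fun e he => (hF e).mp he
    · intro e he f hf hef
      rw [hF] at he hf
      have h2 := hne e f he hf hef
      have h3 := t3_card (hTe e he) f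
      have h5 := tr_sdiff (b := b) (V := V) (i := e) (j := f)
      rw [inter_comm (b f) (b e)] at h5
      omega
    · intro e he f hf g hg hef heg h2 h3
      rw [hF] at he hf hg
      have h5 := t3_n1 (h.sys.mono sdiff_subset) (hTe e he)
      have h6 := tr_sdiff (b := b) (V := V) (i := e) (j := f)
      have h7 := tr_sdiff (b := b) (V := V) (i := e) (j := g)
      rw [inter_comm (b f) (b e)] at h6
      rw [inter_comm (b g) (b e)] at h7
      exact card_le_one.mp (le_of_eq h5) f (mem_filter.mpr ⟨mem_univ _, by omega⟩) g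
        (mem_filter.mpr ⟨mem_univ _, by omega⟩)
  -- the number of blocks
  have hmt : mt b V ⊆ insert i (mt b (V \ b i)) := by
    intro j hj
    rw [mem_insert]
    by_cases hji : j = i
    · exact Or.inl hji
    · right
      obtain ⟨K, hK, hjK⟩ := h.meets h4 hj hji
      rw [h.cps1 h4, mem_singleton] at hK
      rwa [hK] at hjK
  have h2 := card_le_card hmt
  have h3 := card_insert_le i (mt b (V \ b i))
  have h5 : (mt b (V \ b i)).card = 8 := hT.2.1
  have h6 := sum4 h.sys
  have h7 : ∑ j ∈ mt b V, (b j ∩ V).card ≤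
      ∑ j ∈ mt b V, (3 + if (b j ∩ V).card = 4 then 1 else 0) := by
    apply sum_le_sum
    intro j _
    have h8 := h.sys.sz j
    by_cases h9 : (b j ∩ V).card = 4
    · rw [if_pos h9]
      omega
    · rw [if_neg h9]
      omega
  rw [sum_add_distrib, sum_const, smul_eq_mul, ← card_filter] at h7
  have h8 : ((mt b V).filter fun j => (b j ∩ V).card = 4) ⊆ F := by
    intro j hj
    rw [hF]
    exact (mem_filter.mp hj).2
  have h9 := card_le_card h8
  omega

theorem MC.no4 (h : MC b V) : (b i ∩ V).card ≠ 4 := by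
  intro h4
  have hE : ∀ e, (b e ∩ V).card = 4 → E4 b (V \ b e) := by
    intro e he
    rcases h.typ he with h1 | h1
    · exact absurd h1 (h.noT he)
    · exact h1
  obtain ⟨-, -, -, -, j, j', h1, h2, h3⟩ := hE i h4
  have h5 := tr_sdiff (b := b) (V := V) (i := i) (j := j)
  have h6 := h.sys.sz j
  have h7 := hE j (by omega)
  have h8 : b j' ∩ (V \ b j) = (b j' ∩ (V \ b i)) \ b j := by
    have h9 := tr_sdiff (b := b) (V := V) (i := i) (j := j')
    have h10 := h.sys.sz j'
    have h11 : (b j' ∩ b i ∩ V) = ∅ := card_eq_zero.mp (by omega)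
    ext x
    rw [mem_inter, mem_sdiff, mem_sdiff, mem_inter, mem_sdiff]
    constructor
    · rintro ⟨hx, hxV, hxj⟩
      refine ⟨⟨hx, hxV, fun hxi => ?_⟩, hxj⟩
      have : x ∈ b j' ∩ b i ∩ V := mem_inter.mpr ⟨mem_inter.mpr ⟨hx, hxi⟩, hxV⟩
      rw [h11] at this
      exact notMem_empty x this
    · rintro ⟨⟨hx, hxV, -⟩, hxj⟩
      exact ⟨hx, hxV, hxj⟩
  have h9 : n1 b (V \ b j) = 0 := h7.2.2.2.1
  unfold n1 at h9
  rw [card_eq_zero] at h9
  have h10 : j' ∈ univ.filter fun i => (b i ∩ (V \ b j)).card = 1 := by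
    rw [mem_filter]
    refine ⟨mem_univ _, ?_⟩
    rw [h8, h3]
  rw [h9] at h10
  exact notMem_empty j' h10

end

/-- the statement of the three levels -/
def SL : Prop :=
  ∀ (α ι : Type) [DecidableEq α] [DecidableEq ι] [Fintype ι] (b : ι → Finset α) (U : Finset α),
    U.Nonempty → Sys b U → Con b U → 0 ≤ Ps b U ∨ Dt b U ∨ T3 b U

/-- **the statement of the four levels** -/
theorem s4 (hSL : SL) : ∀ (α ι : Type) [DecidableEq α] [DecidableEq ι] [Fintype ι]
    (b : ι → Finset α) (U : Finset α), U.Nonempty → Sys4 b U → Con b U →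
    0 ≤ Ps b U ∨ Dt b U ∨ T3 b U ∨ E4 b U := by
  have key : ∀ n, IH4 n := by
    intro n
    induction n with
    | zero =>
      intro α ι _ _ _ b U _ h2
      omega
    | succ n ih =>
      intro α ι _ _ _ b U hne hU hs hc
      by_cases hlt : U.card < n
      · exact ih α ι b U hne hlt hs hc
      by_contra hcon
      rw [not_or, not_or, not_or] at hcon
      have hMC : MC b U := by
        refine ⟨hs, hc, hne, ?_, by omega, hcon.2.1, hcon.2.2.1, hcon.2.2.2⟩
        have : U.card = n := by omega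
        rw [this]
        exact ih
      have h3 : Sys b U := by
        refine ⟨hs.deg, fun i => ?_⟩
        have h4 := hs.sz i
        have h5 := hMC.no4 (i := i)
        omega
      rcases hSL α ι b U hne h3 hc with h4 | h4 | h4
      · exact hcon.1 h4
      · exact hcon.2.1 h4
      · exact hcon.2.2.1 h4
  intro α ι _ _ _ b U h1 h2 h3
  exact key (U.card + 1) α ι b U h1 (by omega) h2 h3

/-! ## The bound `16 τ ≤ 3 (n + m)` -/

section

variable {α ι : Type} [DecidableEq α] [DecidableEq ι] [Fintype ι] {b : ι → Finset α}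

theorem nb4 {U : Finset α} (h : Sys4 b U) : 5 * U.card ≤ 4 * nb b U := by
  have h1 := sum4 h
  have h2 : ∑ i ∈ mt b U, (b i ∩ U).card ≤ ∑ _i ∈ mt b U, 4 := sum_le_sum fun i _ => h.sz i
  rw [h1, sum_const, smul_eq_mul] at h2
  unfold nb
  omega

theorem con16 (hSL : SL) {U : Finset α} (hne : U.Nonempty) (h : Sys4 b U) (hc : Con b U) :
    16 * tau b U ≤ 3 * (nb b U + U.card) := by
  have h4 := nb4 h
  rcases s4 hSL α ι b U hne h hc with h1 | h1 | h1 | h1
  · unfold Ps Ph at h1
    have h2 : (0 : ℤ) ≤ (n1 b U : ℤ) := Int.natCast_nonneg _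
    omega
  · rw [h1.1, h1.2.1, h1.2.2]
  · rw [h1.1, h1.2.1, h1.2.2]
    norm_num
  · rw [h1.1, h1.2.1, h1.2.2.1]
    norm_num

theorem all16 (hSL : SL) {U : Finset α} (h : Sys4 b U) :
    16 * tau b U ≤ 3 * (nb b U + U.card) := by
  have h1 : ∀ C ∈ cps b U, 16 * tau b C ≤ 3 * (nb b C + C.card) := by
    intro C hC
    exact con16 hSL (cps_ne hC) (h.mono (cps_sub hC)) (cps_con hC)
  have h2 := sum_le_sum h1
  rw [← mul_sum, ← mul_sum, sum_add_distrib] at h2
  have h3 := tau_cps h.cb
  have h4 : nb b U = ∑ C ∈ cps b U, nb b C :=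
    sum_cps h.cb (nb b) nb_empty fun _ _ _ _ _ hs => nb_sep hs
  have h5 : U.card = ∑ C ∈ cps b U, C.card :=
    sum_cps h.cb (fun C => C.card) card_empty fun _ _ _ _ hd _ => card_union_of_disjoint hd
  rw [h3, h4]
  omega

/-- **the bound for families with five blocks at every point** -/
theorem deg16 (hSL : SL) {U : Finset α} (h : ∀ x ∈ U, (univ.filter fun i => x ∈ b i).card = 5) :
    16 * tau b U ≤ 3 * (nb b U + U.card) := by
  induction hn : U.card using Nat.strong_induction_on generalizing U with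
  | _ n ih =>
    by_cases h4 : ∀ i, (b i ∩ U).card ≤ 4
    · have := all16 (b := b) hSL ⟨h, h4⟩
      omega
    · rw [not_forall] at h4
      obtain ⟨i, hi⟩ := h4
      have h1 := card_sdiff_add_card_eq_card (inter_subset_right : b i ∩ U ⊆ U)
      have e1 : U \ (b i ∩ U) = U \ b i := by
        ext x
        simp only [mem_sdiff, mem_inter]
        tauto
      rw [e1] at h1
      have h2 := ih (U \ b i).card (by omega) (U := U \ b i)
        (fun x hx => h x (mem_sdiff.mp hx).1) rfl
      have hcb : Cb b U := by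
        intro x hx
        have h5 : (univ.filter fun i => x ∈ b i).Nonempty := card_pos.mp (by
          rw [h x hx]
          omega)
        obtain ⟨j, hj⟩ := h5
        exact ⟨j, (mem_filter.mp hj).2⟩
      have h3 := tau_sdiff_le hcb i
      have h6 : mt b (U \ b i) ⊆ (mt b U).erase i := by
        intro j hj
        obtain ⟨x, hx, hxj⟩ := mem_mt.mp hj
        rw [mem_sdiff] at hx
        rw [mem_erase]
        refine ⟨?_, mem_mt.mpr ⟨x, hx.1, hxj⟩⟩
        rintro rfl
        exact hx.2 hxj
      have h7 := card_le_card h6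
      have hi2 : i ∈ mt b U := mt_card_pos.mpr (by omega)
      rw [card_erase_of_mem hi2] at h7
      have h8 : 0 < (mt b U).card := card_pos.mpr ⟨i, hi2⟩
      unfold nb at h2 ⊢
      omega

end

end Pool.Agent.Helper34.C5
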