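import Pool.Agent.Helper34.C5.End4
import Pool.Agent.Helper74.TZ.Exa

/-!
# The Tuza constant for `k = 5` from the statement of the three levels
-/

set_option linter.unusedSectionVars false
set_option autoImplicit false

open Finset
open Pool.Agent.Helper20.C5 (mt nb)

namespace Pool.Agent.Helper34.C5

/-- a transversal of a 5-uniform hypergraph -/
theorem trans5 (hSL : SL) {X : Type} [Fintype X] [DecidableEq X] (E : Finset (Finset X))
    (hE : ∀ e ∈ E, e.card = 5) : ∃ T : Finset X, (∀ e ∈ E, ∃ x ∈ T, x ∈ e) ∧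
      16 * T.card ≤ 3 * (Fintype.card X + E.card) := by
  let b : X → Finset (Finset X) := fun x => E.filter fun e => x ∈ e
  have hb : ∀ x, ∀ e ∈ E, (e ∈ b x ↔ x ∈ e) := by
    intro x e he
    show e ∈ E.filter (fun e => x ∈ e) ↔ _
    rw [mem_filter]
    exact ⟨fun h => h.2, fun h => ⟨he, h⟩⟩
  have hdeg : ∀ e ∈ E, (univ.filter fun x => e ∈ b x).card = 5 := by
    intro e he
    rw [← hE e he]
    congr 1
    ext x
    rw [mem_filter, hb x e he]
    exact ⟨fun h => h.2, fun h => ⟨mem_univ _, h⟩⟩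
  have h1 := deg16 (b := b) hSL hdeg
  have hcb : Pool.Agent.Helper20.C5.Cb b E := by
    intro e he
    have h5 : e.Nonempty := card_pos.mp (by rw [hE e he]; omega)
    obtain ⟨x, hx⟩ := h5
    exact ⟨x, (hb x e he).mpr hx⟩
  obtain ⟨T, hT, hcov⟩ := Pool.Agent.Helper20.C5.tau_cv hcb
  refine ⟨T, fun e he => ?_, ?_⟩
  · obtain ⟨x, hx, hex⟩ := hcov e he
    exact ⟨x, hx, (hb x e he).mp hex⟩
  · have h2 : nb b E ≤ Fintype.card X := card_le_univ _
    omega

/-- `T` is a transversal of the hypergraph with edge set `E`: it meets every edge. -/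
def IsTransversal {X : Type} (E : Finset (Finset X)) (T : Finset X) : Prop :=
  ∀ e ∈ E, ∃ x ∈ T, x ∈ e

/-- The transversal number: the least number of vertices in a transversal. -/
noncomputable def tauH {X : Type} (E : Finset (Finset X)) : ℕ :=
  sInf {t : ℕ | ∃ T : Finset X, IsTransversal E T ∧ T.card = t}

/-- The Tuza constant `c_k`: the supremum of `τ(H) / (n_H + m_H)` over the `k`-uniform hypergraphs
`H` (with a nonempty finite vertex set). -/
noncomputable def tuza (k : ℕ) : ℝ :=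
  sSup {r : ℝ | ∃ (X : Type) (_ : Fintype X) (E : Finset (Finset X)),
    Nonempty X ∧ (∀ e ∈ E, e.card = k) ∧
      r = (tauH E : ℝ) / ((Fintype.card X : ℝ) + (E.card : ℝ))}

theorem tau5 (hSL : SL) {X : Type} [Fintype X] (E : Finset (Finset X))
    (hE : ∀ e ∈ E, e.card = 5) : 16 * tauH E ≤ 3 * (Fintype.card X + E.card) := by
  classical
  obtain ⟨T, hT, hTc⟩ := trans5 hSL E hE
  have h4 : tauH E ≤ T.card := Nat.sInf_le ⟨T, hT, rfl⟩
  omega

/-- **the Tuza constant for `k = 5`**; the supremum is a maximum -/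
theorem tuza5 (hSL : SL) : IsGreatest {r : ℝ | ∃ (X : Type) (_ : Fintype X)
    (E : Finset (Finset X)), Nonempty X ∧ (∀ e ∈ E, e.card = 5) ∧
      r = (tauH E : ℝ) / ((Fintype.card X : ℝ) + (E.card : ℝ))} (3 / 16) := by
  constructor
  · obtain ⟨X, hX, hX', E, hne, hE, hD, hn, hm, hT⟩ := Helper74.TZ.exa (k := 5) (by omega)
    refine ⟨X, hX, E, hne, hE, ?_⟩
    have h1 := tau5 hSL E hE
    have h2 : 3 ≤ tauH E := by
      refine le_csInf ⟨_, Finset.univ, ?_, rfl⟩ ?_
      · intro e he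
        obtain ⟨x, hx⟩ := Finset.card_pos.1 (by rw [hE e he]; omega : 0 < e.card)
        exact ⟨x, Finset.mem_univ x, hx⟩
      · rintro t ⟨T, hT', rfl⟩
        exact hT T hT'
    rw [hn, hm] at h1 ⊢
    have h3 : tauH E = 3 := by omega
    rw [h3]
    norm_num
  · rintro r ⟨X, hX, E, hne, hE, rfl⟩
    have h1 := tau5 hSL E hE
    have h2 : (0 : ℝ) < (Fintype.card X : ℝ) + (E.card : ℝ) := by
      have : (0 : ℝ) < Fintype.card X := by exact_mod_cast Fintype.card_pos
      positivity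
    rw [div_le_iff₀ h2]
    have h3 : (16 : ℝ) * (tauH E : ℝ) ≤ 3 * ((Fintype.card X : ℝ) + (E.card : ℝ)) := by
      exact_mod_cast h1
    linarith

theorem tuza_eq (hSL : SL) : tuza 5 = 3 / 16 := (tuza5 hSL).csSup_eq

end Pool.Agent.Helper34.C5
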