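import Pool.Agent.Helper34.C5T.TenF
import Pool.Agent.Helper28.C5.Dbk2
import Pool.Agent.Helper74.C5.One
import Pool.Agent.Helper34.C5.Fin5

/-!
# The Tuza constant for five-uniform hypergraphs
-/

set_option linter.unusedSectionVars false

open Finset

namespace Pool.Agent.Helper34.C5

open Pool.Agent.Helper20.C5

theorem dbk1 : Dbk 1 := by
  intro α ι _ _ _ b V hMC he i0 j0 U h
  exact Pool.Agent.Helper74.C5.MC.no1 hMC he h

/-- The class statement. -/
theorem c34v : C34V := c34v_of C5T.ten20 dbk1 Pool.Agent.Helper28.C5.dbk2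

theorem sl : SL := sl_of c34v

/-- **Transversals of five-uniform hypergraphs**: `16 τ ≤ 3 (n + m)`. -/
theorem tau5_final {X : Type} [Fintype X] (E : Finset (Finset X))
    (hE : ∀ e ∈ E, e.card = 5) : 16 * tauH E ≤ 3 * (Fintype.card X + E.card) := tau5 sl E hE

/-- **The Tuza constant `c_5` is `3 / 16`**. -/
theorem tuza_five : tuza 5 = 3 / 16 := tuza_eq sl

/-- The supremum is a maximum. -/
theorem tuza_five_max : IsGreatest {r : ℝ | ∃ (X : Type) (_ : Fintype X)
    (E : Finset (Finset X)), Nonempty X ∧ (∀ e ∈ E, e.card = 5) ∧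
      r = (tauH E : ℝ) / ((Fintype.card X : ℝ) + (E.card : ℝ))} (3 / 16) := tuza5 sl

end Pool.Agent.Helper34.C5
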