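import Pool.Agent.Helper34.C5.ThmG
import Pool.Agent.Helper74.C5.CapV

/-!
# `K+` and `f ≥ -1`
-/

set_option linter.unusedSectionVars false
set_option autoImplicit false

open Finset
open Pool.Agent.Helper20.C5 Pool.Agent.Helper74.C5

namespace Pool.Agent.Helper34.C5

theorem kp : KP := by
  intro α ι _ _ _ b U hne hsys hcon hvc
  exact thmG' hne hsys hcon hvc

theorem fm_aux : ∀ n : ℕ, ∀ (α ι : Type) [DecidableEq α] [DecidableEq ι] [Fintype ι]
    (b : ι → Finset α) (U : Finset α), U.card < n → U.Nonempty → Sys b U → Con b U → Vc b U →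
    2 * tau b U ≤ U.card + 1 := by
  intro n
  induction n with
  | zero => exact fun α ι _ _ _ b U h => absurd h (Nat.not_lt_zero _)
  | succ n ih =>
    intro α ι _ _ _ b V hlt hne hsys hcon hvc
    have hcb := hsys.cb
    by_cases hf : ∀ i, (b i ∩ V).card ≤ 2
    · exact le_of_eq (kt_small hcb hf hne hcon hvc).tau
    rw [not_forall] at hf
    obtain ⟨i0, hi0⟩ := hf
    have hi3 : (b i0 ∩ V).card = 3 := by
      have := hsys.sz i0
      omega
    obtain ⟨U, k, h⟩ := exists_FG hsys hvc hi3
    have hcU := hcb.mono h.sub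
    have hN := h.num hcb hcon hvc
    have h1 : ∀ C ∈ cps b U, 2 * tau b C ≤ C.card + 1 := by
      intro C hC
      have h2 := card_le_card (cps_sub hC)
      have h3 := h.card
      exact ih α ι b C (by omega) (cps_ne hC) (hsys.mono ((cps_sub hC).trans h.sub))
        (cps_con hC) (h.typ C hC)
    have h2 := sum_le_sum h1
    rw [← mul_sum, sum_add_distrib, sum_const, smul_eq_mul, mul_one, ← tau_cps hcU,
      ← card_cps hcU] at h2
    have h3 := h.card
    have h4 := h.tt
    omega

theorem fm : FM := by
  intro α ι _ _ _ b U hne hsys hcon hvc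
  exact fm_aux (U.card + 1) α ι b U (by omega) hne hsys hcon hvc

end Pool.Agent.Helper34.C5
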