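import Pool.Agent.Helper34.C5.Cap4

/-!
# The rules R2, R3 and the exceptional type
-/

set_option linter.unusedSectionVars false
set_option autoImplicit false

open Finset
open Pool.Agent.Helper20.C5

namespace Pool.Agent.Helper34.C5

variable {α ι : Type} [DecidableEq α] [DecidableEq ι] [Fintype ι]
variable {b : ι → Finset α} {V : Finset α}

/-- the own blocks -/
def own (b : ι → Finset α) (K X : Finset α) (m : ℕ) : Fin m → Finset α :=
  fun t => X.filter fun x => (t : ℕ) + aK b K x ≤ 4

theorem mem_own {K X : Finset α} {m : ℕ} {t : Fin m} {x : α} :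
    x ∈ own b K X m t ↔ x ∈ X ∧ (t : ℕ) + aK b K x ≤ 4 := by
  unfold own
  rw [mem_filter]

theorem card_lt_filter (m c : ℕ) (hc : c ≤ m) :
    (univ.filter fun t : Fin m => (t : ℕ) < c).card = c := by
  have h1 : (univ.filter fun t : Fin m => (t : ℕ) < c).map Fin.valEmbedding = range c := by
    ext x
    rw [mem_map, mem_range]
    constructor
    · rintro ⟨t, ht, rfl⟩
      exact (mem_filter.mp ht).2
    · intro hx
      exact ⟨⟨x, by omega⟩, mem_filter.mpr ⟨mem_univ _, hx⟩, rfl⟩
  rw [← card_map Fin.valEmbedding, h1, card_range]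

/-- the standard cap -/
theorem MC.cp (h : MC b V) {i : ι} (h4 : (b i ∩ V).card = 4) {K : Finset α}
    (hK : K ∈ cps b (V \ b i)) {X : Finset α} (hX : X ⊆ b i ∩ V) (hX3 : X.card ≤ 3) (m : ℕ)
    (hm : ∀ x ∈ X, 5 ≤ aK b K x + m) (hp : ∀ x ∈ X, 0 < aK b K x)
    (hab : ¬ Cv b (K ∪ X) (tau b K)) : Cp b V K X (own b K X m) := by
  refine ⟨h.sys, sub_of_cps hK, hX.trans inter_subset_right, ?_, cps_con hK, cps_ne hK, hX3,
    fun t => filter_subset _ _, hp, ?_, hab⟩
  · rw [disjoint_left]
    intro x hx hxX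
    exact notMem_of_cps hK (mem_inter.mp (hX hxX)).1 hx
  · intro x hx
    have h1 : (univ.filter fun t => x ∈ own b K X m t) =
        univ.filter fun t : Fin m => (t : ℕ) < 5 - aK b K x := by
      ext t
      rw [mem_filter, mem_filter, mem_own]
      constructor
      · rintro ⟨h1, -, h2⟩
        exact ⟨h1, by omega⟩
      · rintro ⟨h1, h2⟩
        exact ⟨h1, hx, by omega⟩
    have h2 := h.aK_le h4 hK (hX hx)
    rw [h1, card_lt_filter _ _ (by have := hm x hx; omega)]
    omega

theorem MC.cp_lt (h : MC b V) {i : ι} (h4 : (b i ∩ V).card = 4) {K : Finset α}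
    (hK : K ∈ cps b (V \ b i)) {X : Finset α} (hX : X ⊆ b i ∩ V) (hX3 : X.card ≤ 3) :
    (K ∪ X).card < V.card := by
  have h1 : ∃ x ∈ b i ∩ V, x ∉ X := by
    by_contra hcon
    have h2 : b i ∩ V ⊆ X := by
      intro x hx
      by_contra hxX
      exact hcon ⟨x, hx, hxX⟩
    have := card_le_card h2
    omega
  obtain ⟨x, hx, hxX⟩ := h1
  rw [mem_inter] at hx
  refine MC.lt (union_subset (sub_of_cps hK) (hX.trans inter_subset_right)) hx.2 ?_
  rw [mem_union, not_or]
  exact ⟨notMem_of_cps hK hx.1, hxX⟩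

/-- **R2** -/
theorem MC.rule2 (h : MC b V) {i : ι} (h4 : (b i ∩ V).card = 4) {K : Finset α}
    (hK : K ∈ cps b (V \ b i)) (hlt : PsH b V K < 16) {x y : α} (hx : x ∈ b i ∩ V)
    (hy : y ∈ b i ∩ V) (hxy : x ≠ y) (hax : 2 ≤ aK b K x) (hay : 2 ≤ aK b K y) :
    Cv b (K ∪ {x, y}) (tau b K) := by
  by_contra hab
  have hX : ({x, y} : Finset α) ⊆ b i ∩ V := by
    intro z hz
    rw [mem_insert, mem_singleton] at hz
    rcases hz with rfl | rfl
    · exact hx
    · exact hy
  have hXc : ({x, y} : Finset α).card = 2 := card_pair hxy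
  have hall : ∀ z ∈ ({x, y} : Finset α), 2 ≤ aK b K z := by
    intro z hz
    rw [mem_insert, mem_singleton] at hz
    rcases hz with rfl | rfl
    · exact hax
    · exact hay
  have hcp := h.cp h4 hK hX (by omega) 3 (fun z hz => by have := hall z hz; omega)
    (fun z hz => by have := hall z hz; omega) hab
  have hm := hcp.main
  have hne : (K ∪ {x, y}).Nonempty := (cps_ne hK).mono subset_union_left
  have hD : ¬ Dt (cB b K {x, y} (own b K {x, y} 3)) (K ∪ {x, y}) := by
    intro hD
    have h5 := dt_card3 hcp.sys4 hD (Sum.inr 0)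
    have h6 : own b K {x, y} 3 0 = {x, y} := by
      ext z
      rw [mem_own]
      constructor
      · exact fun h => h.1
      · intro hz
        refine ⟨hz, ?_⟩
        have := h.aK_le h4 hK (hX hz)
        show 0 + aK b K z ≤ 4
        omega
    rw [hcp.cB_inr, h6, hXc] at h5
    have := h5 (mt_card_pos.mpr (by rw [hcp.cB_inr, h6, hXc]; omega))
    omega
  have h5 := h.ih.ge2 hne (h.cp_lt h4 hK hX (by omega)) hcp.sys4 hcp.conn hD
  rw [hXc] at hm
  push_cast at hm
  omega

/-- **R2** for `a ≥ 3` -/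
theorem MC.rule2' (h : MC b V) {i : ι} (h4 : (b i ∩ V).card = 4) {K : Finset α}
    (hK : K ∈ cps b (V \ b i)) (hlt : PsH b V K < 52) {x y : α} (hx : x ∈ b i ∩ V)
    (hy : y ∈ b i ∩ V) (hxy : x ≠ y) (hax : 3 ≤ aK b K x) (hay : 3 ≤ aK b K y) :
    Cv b (K ∪ {x, y}) (tau b K) := by
  by_contra hab
  have hX : ({x, y} : Finset α) ⊆ b i ∩ V := by
    intro z hz
    rw [mem_insert, mem_singleton] at hz
    rcases hz with rfl | rfl
    · exact hx
    · exact hy
  have hXc : ({x, y} : Finset α).card = 2 := card_pair hxy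
  have hall : ∀ z ∈ ({x, y} : Finset α), 3 ≤ aK b K z := by
    intro z hz
    rw [mem_insert, mem_singleton] at hz
    rcases hz with rfl | rfl
    · exact hax
    · exact hay
  have hcp := h.cp h4 hK hX (by omega) 2 (fun z hz => by have := hall z hz; omega)
    (fun z hz => by have := hall z hz; omega) hab
  have hm := hcp.main
  have hne : (K ∪ {x, y}).Nonempty := (cps_ne hK).mono subset_union_left
  have h5 := h.ih.ge10 hne (h.cp_lt h4 hK hX (by omega)) hcp.sys4 hcp.conn
  rw [hXc] at hm
  push_cast at hm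
  omega

/-- the exceptional type -/
structure TV (b : ι → Finset α) (K X : Finset α) : Prop where
  k3 : K.card = 3
  x3 : X.card = 3
  nbK : nb b K = 8
  tauK : tau b K = 2
  a3 : ∀ x ∈ X, aK b K x = 3
  tri : ∀ j ∈ mt b K, (b j ∩ (K ∪ X)).card = 3

/-- **R3** -/
theorem MC.rule3 (h : MC b V) {i : ι} (h4 : (b i ∩ V).card = 4) {K : Finset α}
    (hK : K ∈ cps b (V \ b i)) {X : Finset α} (hX : X ⊆ b i ∩ V) (hX3 : X.card = 3)
    (ha : ∀ x ∈ X, 3 ≤ aK b K x) (hab : ¬ Cv b (K ∪ X) (tau b K)) :
    7 ≤ PsH b V K ∨ (TV b K X ∧ -1 ≤ PsH b V K) := by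
  have hne : (K ∪ X).Nonempty := (cps_ne hK).mono subset_union_left
  have hlt := h.cp_lt h4 hK hX (by omega)
  by_cases hall : ∀ x ∈ X, aK b K x = 4
  · left
    have hcp := h.cp h4 hK hX (by omega) 1 (fun z hz => by have := hall z hz; omega)
      (fun z hz => by have := hall z hz; omega) hab
    have hm := hcp.main
    have h5 := h.ih.ge10 hne hlt hcp.sys4 hcp.conn
    rw [hX3] at hm
    push_cast at hm
    omega
  · have hcp := h.cp h4 hK hX (by omega) 2 (fun z hz => by have := ha z hz; omega)
      (fun z hz => by have := ha z hz; omega) hab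
    have hm := hcp.main
    rw [hX3] at hm
    push_cast at hm
    by_cases hD : Dt (cB b K X (own b K X 2)) (K ∪ X)
    · right
      have h5 := dt_ps hcp.sys4 hD
      refine ⟨?_, by omega⟩
      have hO0 : own b K X 2 0 = X := by
        ext z
        rw [mem_own]
        constructor
        · exact fun h => h.1
        · intro hz
          refine ⟨hz, ?_⟩
          have := h.aK_le h4 hK (hX hz)
          show 0 + aK b K z ≤ 4
          omega
      have hO1 : ∀ z, z ∈ own b K X 2 1 ↔ z ∈ X ∧ aK b K z = 3 := by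
        intro z
        rw [mem_own]
        constructor
        · rintro ⟨hz, h6⟩
          have h7 := ha z hz
          have h8 : 1 + aK b K z ≤ 4 := h6
          exact ⟨hz, by omega⟩
        · rintro ⟨hz, h6⟩
          refine ⟨hz, ?_⟩
          show 1 + aK b K z ≤ 4
          omega
      have hO1ne : (own b K X 2 1).Nonempty := by
        rw [not_forall] at hall
        obtain ⟨z, hz⟩ := hall
        rw [Classical.not_imp] at hz
        refine ⟨z, (hO1 z).mpr ⟨hz.1, ?_⟩⟩
        have h6 := ha z hz.1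
        have h7 := h.aK_le h4 hK (hX hz.1)
        omega
      have h6 := dt_card3 hcp.sys4 hD
      have h7 := h6 (Sum.inr 1) (mt_card_pos.mpr (by
        rw [hcp.cB_inr]
        exact card_pos.mpr hO1ne))
      rw [hcp.cB_inr] at h7
      have hO1X : own b K X 2 1 = X := eq_of_subset_of_card_le (filter_subset _ _) (by omega)
      have hone : ∀ t, (own b K X 2 t).Nonempty := by
        intro t
        fin_cases t
        · show (own b K X 2 0).Nonempty
          rw [hO0]
          exact card_pos.mp (by omega)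
        · exact hO1ne
      have h8 := hcp.nb_eq hone
      have h9 : K.card = 3 := by
        have := card_union_of_disjoint hcp.dis
        rw [hD.1] at this
        omega
      have h10 := hcp.tau_ge
      rw [hD.2.2] at h10
      have htri : ∀ j ∈ mt b K, (b j ∩ (K ∪ X)).card = 3 := by
        intro j hj
        have h11 := h6 (Sum.inl j) (mt_card_pos.mpr (by
          rw [cB_card_inl hj]
          obtain ⟨x, hx, hxj⟩ := mem_mt.mp hj
          exact card_pos.mpr ⟨x, mem_inter.mpr ⟨hxj, mem_union_left _ hx⟩⟩))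
        rwa [cB_card_inl hj] at h11
      refine ⟨h9, hX3, by rw [hD.2.1] at h8; omega, ?_, ?_, htri⟩
      · by_contra hcon
        have h12 : tau b K ≤ 1 := by omega
        obtain ⟨s, hs, hcov⟩ := tau_cv (hcp.sys.cb.mono hcp.kv)
        obtain ⟨x0, hx0⟩ := cps_ne hK
        obtain ⟨j, hj, -⟩ := hcov x0 hx0
        have h13 : Cv (cB b K X (own b K X 2)) (K ∪ X) 2 := by
          refine ⟨{Sum.inl j, Sum.inr 0}, card_le_two, fun x hx => ?_⟩
          rcases mem_union.mp hx with hxK | hxX
          · obtain ⟨j', hj', hxj'⟩ := hcov x hxK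
            have h14 : j' = j := card_le_one.mp (hs.trans h12) j' hj' j hj
            rw [h14] at hxj'
            exact ⟨Sum.inl j, mem_insert_self _ _,
              mem_cB_inl.mpr ⟨mem_mt.mpr ⟨x, hxK, hxj'⟩, hxj', hx⟩⟩
          · refine ⟨Sum.inr 0, mem_insert_of_mem (mem_singleton_self _), ?_⟩
            rw [mem_cB_inr, hO0]
            exact hxX
        have h15 := tau_le h13
        have h16 := hD.2.2
        omega
      · intro x hx
        rw [← hO1X] at hx
        exact ((hO1 x).mp hx).2
    · left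
      have h5 := h.ih.ge2 hne hlt hcp.sys4 hcp.conn hD
      omega

end Pool.Agent.Helper34.C5
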