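import Pool.Agent.Helper34.C5.Dcp

/-!
# SP: two components, one of the exceptional type
-/

set_option linter.unusedSectionVars false
set_option autoImplicit false

open Finset
open Pool.Agent.Helper20.C5

namespace Pool.Agent.Helper34.C5

variable {α ι : Type} [DecidableEq α] [DecidableEq ι] [Fintype ι]

/-- the situation of SP -/
structure SPd (b : ι → Finset α) (V : Finset α) (i : ι) (K C X : Finset α) (c : α) : Prop where
  mc : MC b V
  h4 : (b i ∩ V).card = 4
  ne : K ≠ C
  hc : cps b (V \ b i) = {K, C}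
  hB : b i ∩ V = insert c X
  cX : c ∉ X
  tv : TV b K X
  c0 : aK b K c = 0

variable {b : ι → Finset α} {V : Finset α} {i : ι} {K C X : Finset α} {c : α}

theorem TV.t3 (h : TV b K X) : T3 b K := ⟨h.k3, h.nbK, h.tauK⟩

/-- the fourth point is not attached to the exceptional component -/
theorem MC.tv_c0 (h : MC b V) (h4 : (b i ∩ V).card = 4) (hne : K ≠ C)
    (hc : cps b (V \ b i) = {K, C}) (hB : b i ∩ V = insert c X) (hT : TV b K X) :
    aK b K c = 0 := by
  by_contra hcon
  have hi : i ∈ mt b V := mt_card_pos.mpr (by omega)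
  have hK : K ∈ cps b (V \ b i) := by rw [hc]; simp
  have hC : C ∈ cps b (V \ b i) := by rw [hc]; simp
  have hs := h.sys.mono (sub_of_cps hK)
  have hXB : X ⊆ b i ∩ V := by rw [hB]; exact subset_insert _ _
  have hKX : Disjoint K X := by
    rw [disjoint_left]
    intro x hx hxX
    exact notMem_of_cps hK (mem_inter.mp (hXB hxX)).1 hx
  have hsplit : ∀ j ∈ mt b K, (b j ∩ K).card + (b j ∩ X).card = 3 := by
    intro j hj
    rw [← hT.tri j hj, inter_union_distrib_left, card_union_of_disjoint]
    exact disjoint_of_subset_left inter_subset_right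
      (disjoint_of_subset_right inter_subset_right hKX)
  have h2 := t3_card hT.t3
  obtain ⟨f, hf, hcf⟩ := aK_pos.mp (show 0 < aK b K c by omega)
  have hf1 := mt_card_pos.mp hf
  have hf2 := h2 f
  have hf3 := hsplit f hf
  have key : ∃ g, K ⊆ b f ∪ b g ∧ 2 ≤ ((b f ∪ b g) ∩ X).card := by
    have hrest := card_sdiff_add_card_eq_card (inter_subset_right : b f ∩ K ⊆ K)
    rw [hT.k3] at hrest
    have e1 : K \ (b f ∩ K) = K \ b f := by
      ext x
      simp only [mem_sdiff, mem_inter]
      tauto
    rw [e1] at hrest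
    by_cases hf4 : (b f ∩ K).card = 2
    · obtain ⟨z, hz⟩ := card_eq_one.mp (show (K \ b f).card = 1 by omega)
      have hzm : z ∈ K \ b f := by rw [hz]; simp
      obtain ⟨p, hp⟩ := card_eq_one.mp (show (b f ∩ X).card = 1 by omega)
      have hpm : p ∈ b f ∩ X := by rw [hp]; simp
      have hpX := (mem_inter.mp hpm).2
      have hg : ∃ g, z ∈ b g ∧ ¬ b g ∩ X ⊆ {p} := by
        by_contra hno
        have h5 : (univ.filter fun g => z ∈ b g) ⊆
            univ.filter fun g => p ∈ b g ∧ g ∈ mt b K := by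
          intro g hg
          rw [mem_filter] at hg
          have hgm : g ∈ mt b K := mem_mt.mpr ⟨z, (mem_sdiff.mp hzm).1, hg.2⟩
          rw [mem_filter]
          refine ⟨mem_univ _, ?_, hgm⟩
          have h6 : b g ∩ X ⊆ {p} := by
            by_contra h7
            exact hno ⟨g, hg.2, h7⟩
          have h7 := hsplit g hgm
          have h8 := h2 g
          obtain ⟨q, hq⟩ := card_pos.mp (show 0 < (b g ∩ X).card by omega)
          have := mem_singleton.mp (h6 hq)
          rw [this] at hq
          exact (mem_inter.mp hq).1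
        have h6 := card_le_card h5
        rw [hs.deg z (mem_sdiff.mp hzm).1] at h6
        have h7 := hT.a3 p hpX
        unfold aK at h7
        omega
      obtain ⟨g, hzg, hg⟩ := hg
      rw [not_subset] at hg
      obtain ⟨q, hq, hqp⟩ := hg
      refine ⟨g, ?_, ?_⟩
      · intro x hx
        by_cases hxf : x ∈ b f
        · exact mem_union_left _ hxf
        · have : x ∈ K \ b f := mem_sdiff.mpr ⟨hx, hxf⟩
          rw [hz, mem_singleton] at this
          rw [this]
          exact mem_union_right _ hzg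
      · rw [mem_inter] at hq hpm
        have h5 : ({p, q} : Finset α) ⊆ (b f ∪ b g) ∩ X := by
          intro u hu
          rw [mem_insert, mem_singleton] at hu
          rcases hu with rfl | rfl
          · exact mem_inter.mpr ⟨mem_union_left _ hpm.1, hpm.2⟩
          · exact mem_inter.mpr ⟨mem_union_right _ hq.1, hq.2⟩
        have h6 := card_le_card h5
        rw [card_pair (fun h => hqp (mem_singleton.mpr h.symm))] at h6
        exact h6
    · have hf5 : (b f ∩ X).card = 2 := by omega
      obtain ⟨z, z', hzz, hz⟩ := card_eq_two.mp (show (K \ b f).card = 2 by omega)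
      have hzm : z ∈ K \ b f := by rw [hz]; simp
      have hzm' : z' ∈ K \ b f := by rw [hz]; simp
      have hg : ∃ g, z ∈ b g ∧ z' ∈ b g := by
        by_contra hno
        have h5 := no_common hs (mem_sdiff.mp hzm).1 (mem_sdiff.mp hzm').1
          (fun g h6 h7 => hno ⟨g, h6, h7⟩) {f} (singleton_subset_iff.mpr hf) (by
          intro g hg
          rw [mem_singleton.mp hg]
          exact ⟨(mem_sdiff.mp hzm).2, (mem_sdiff.mp hzm').2⟩)
        rw [hT.nbK] at h5
        omega
      obtain ⟨g, hzg, hzg'⟩ := hg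
      refine ⟨g, ?_, ?_⟩
      · intro x hx
        by_cases hxf : x ∈ b f
        · exact mem_union_left _ hxf
        · have : x ∈ K \ b f := mem_sdiff.mpr ⟨hx, hxf⟩
          rw [hz, mem_insert, mem_singleton] at this
          rcases this with rfl | rfl
          · exact mem_union_right _ hzg
          · exact mem_union_right _ hzg'
      · rw [← hf5]
        exact card_le_card (inter_subset_inter_right subset_union_left)
  obtain ⟨g, hg, hg2⟩ := key
  have hY : Cv b (K ∪ insert c ((b f ∪ b g) ∩ X)) (tau b K) := by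
    rw [hT.tauK]
    refine ⟨{f, g}, card_le_two, fun x hx => ?_⟩
    have h5 : x ∈ b f ∪ b g := by
      rw [mem_union, mem_insert, mem_inter] at hx
      rcases hx with hx | rfl | hx
      · exact hg hx
      · exact mem_union_left _ hcf
      · exact hx.1
    rcases mem_union.mp h5 with h6 | h6
    · exact ⟨f, by simp, h6⟩
    · exact ⟨g, by simp, h6⟩
  have hZc : (X \ (b f ∪ b g)).card ≤ 1 := by
    have e1 : X \ ((b f ∪ b g) ∩ X) = X \ (b f ∪ b g) := by
      ext x
      simp only [mem_sdiff, mem_inter]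
      tauto
    have h5 := card_sdiff_add_card_eq_card (inter_subset_right : (b f ∪ b g) ∩ X ⊆ X)
    rw [e1, hT.x3] at h5
    omega
  have hZ : Cv b (C ∪ (X \ (b f ∪ b g))) (tau b C) := by
    rcases (X \ (b f ∪ b g)).eq_empty_or_nonempty with h0 | ⟨z, hz⟩
    · rw [h0, union_empty]
      exact tau_cv (h.sys.mono (sub_of_cps hC)).cb
    · have h5 : X \ (b f ∪ b g) = {z} := by
        ext u
        rw [mem_singleton]
        exact ⟨fun hu => card_le_one.mp hZc u hu z hz, fun hu => hu ▸ hz⟩
      rw [h5]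
      have hzX := (mem_sdiff.mp hz).1
      have h6 := h.col h4 (hXB hzX)
      rw [hc, sum_pair hne, hT.a3 z hzX] at h6
      exact h.sing h4 hC (by omega)
  refine h.save2 hi hne hc hY hZ ?_
  rw [hB]
  intro u hu
  rw [mem_union, mem_insert, mem_inter, mem_sdiff]
  rcases mem_insert.mp hu with rfl | hu
  · exact Or.inl (Or.inl rfl)
  · by_cases h5 : u ∈ b f ∪ b g
    · exact Or.inl (Or.inr ⟨h5, hu⟩)
    · exact Or.inr ⟨hu, h5⟩

namespace SPd

variable (h : SPd b V i K C X c)
include h

theorem hi : i ∈ mt b V := mt_card_pos.mpr (by have := h.h4; omega)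

theorem hK : K ∈ cps b (V \ b i) := by rw [h.hc]; simp

theorem hC : C ∈ cps b (V \ b i) := by rw [h.hc]; simp

theorem XB : X ⊆ b i ∩ V := by rw [h.hB]; exact subset_insert _ _

theorem cB : c ∈ b i ∩ V := by rw [h.hB]; exact mem_insert_self _ _

theorem CV : C ⊆ V := sub_of_cps h.hC

theorem KV : K ⊆ V := sub_of_cps h.hK

theorem iC : i ∉ mt b C := by
  intro hi
  obtain ⟨x, hx, hxi⟩ := mem_mt.mp hi
  exact notMem_of_cps h.hC hxi hx

theorem cC : c ∉ C := notMem_of_cps h.hC (mem_inter.mp h.cB).1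

theorem in1K : in1 b V K = ∅ := by
  ext j
  rw [mem_in1]
  constructor
  · rintro ⟨h1, h2⟩
    obtain ⟨x, hx⟩ := card_eq_one.mp h1
    have hxm : x ∈ b j ∩ V := by rw [hx]; simp
    have hj : j ∈ mt b K := mem_mt.mpr ⟨x, h2 hxm, (mem_inter.mp hxm).1⟩
    have h3 := h.tv.tri j hj
    have h4 : b j ∩ (K ∪ X) ⊆ b j ∩ V :=
      inter_subset_inter_left (union_subset h.KV (h.XB.trans inter_subset_right))
    have := card_le_card h4
    omega
  · exact fun h => absurd h (notMem_empty j)

theorem psK : PsH b V K = -1 := by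
  unfold PsH Ph
  rw [h.in1K, h.tv.k3, h.tv.nbK, h.tv.tauK, card_empty]
  norm_num

theorem psC : PsH b V C ≤ 0 := by
  have h1 := h.mc.sum h.h4
  rw [h.hc, sum_pair h.ne, h.psK] at h1
  have := h.mc.neg
  omega

theorem aC {x : α} (hx : x ∈ X) : aK b C x = 1 := by
  have h1 := h.mc.col h.h4 (h.XB hx)
  rw [h.hc, sum_pair h.ne, h.tv.a3 x hx] at h1
  omega

theorem aCc : aK b C c = 4 := by
  have h1 := h.mc.col h.h4 h.cB
  rw [h.hc, sum_pair h.ne, h.c0] at h1
  omega

/-- `C` does not absorb `c` and a point of `X` -/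
theorem nab {x : α} (hx : x ∈ X) : ¬ Cv b (C ∪ {c, x}) (tau b C) := by
  intro hab
  have h1 : Cv b (K ∪ X.erase x) (tau b K) := by
    have h2 : (X.erase x).card = 2 := by
      rw [card_erase_of_mem hx, h.tv.x3]
    obtain ⟨p, q, hpq, he⟩ := card_eq_two.mp h2
    have hp : p ∈ X.erase x := by rw [he]; simp
    have hq : q ∈ X.erase x := by rw [he]; simp
    rw [mem_erase] at hp hq
    rw [he]
    exact h.mc.rule2 h.h4 h.hK (by rw [h.psK]; norm_num) (h.XB hp.2) (h.XB hq.2) hpq
      (by rw [h.tv.a3 p hp.2]; omega) (by rw [h.tv.a3 q hq.2]; omega)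
  refine h.mc.save2 h.hi h.ne h.hc h1 hab ?_
  rw [h.hB]
  intro u hu
  rw [mem_union, mem_erase, mem_insert, mem_singleton]
  rcases mem_insert.mp hu with rfl | hu
  · exact Or.inr (Or.inl rfl)
  · by_cases h2 : u = x
    · exact Or.inr (Or.inr h2)
    · exact Or.inl ⟨h2, hu⟩

/-- the block at `x` -/
theorem exists_e {x : α} (hx : x ∈ X) : ∃ e, e ∈ mt b C ∧ x ∈ b e ∧
    ∀ j, x ∈ b j → j ∈ mt b C → j = e := by
  have h1 := h.aC hx
  unfold aK at h1
  obtain ⟨e, he⟩ := card_eq_one.mp h1
  have hem : e ∈ univ.filter fun j => x ∈ b j ∧ j ∈ mt b C := by rw [he]; simp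
  rw [mem_filter] at hem
  refine ⟨e, hem.2.2, hem.2.1, fun j hj hj2 => ?_⟩
  have : j ∈ univ.filter fun j => x ∈ b j ∧ j ∈ mt b C := mem_filter.mpr ⟨mem_univ _, hj, hj2⟩
  rw [he] at this
  exact mem_singleton.mp this

theorem cne {x : α} (hx : x ∈ X) {e : ι} (he : e ∈ mt b C) (hxe : x ∈ b e) : c ∉ b e := by
  intro hce
  refine h.nab hx (h.mc.absC h.h4 h.hC he ?_)
  intro u hu
  rw [mem_insert, mem_singleton] at hu
  rcases hu with rfl | rfl
  · exact hce
  · exact hxe

/-- the blocks at `c` -/
theorem cBlocks {j : ι} (hj : c ∈ b j) : j = i ∨ j ∈ mt b C := by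
  by_cases hji : j = i
  · exact Or.inl hji
  · right
    obtain ⟨W, hW, hjW⟩ := h.mc.meets h.h4 (mem_mt.mpr ⟨c, (mem_inter.mp h.cB).2, hj⟩) hji
    rw [h.hc, mem_insert, mem_singleton] at hW
    rcases hW with rfl | rfl
    · have h1 : 0 < aK b W c := aK_pos.mpr ⟨j, hjW, hj⟩
      have := h.c0
      omega
    · exact hjW

theorem mtG : mt b (insert c C) = insert i (mt b C) := by
  ext j
  rw [mem_insert, mem_mt]
  constructor
  · rintro ⟨x, hx, hxj⟩
    rcases mem_insert.mp hx with rfl | hx
    · exact h.cBlocks hxj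
    · exact Or.inr (mem_mt.mpr ⟨x, hx, hxj⟩)
  · rintro (rfl | hj)
    · exact ⟨c, mem_insert_self _ _, (mem_inter.mp h.cB).1⟩
    · obtain ⟨x, hx, hxj⟩ := mem_mt.mp hj
      exact ⟨x, mem_insert_of_mem hx, hxj⟩

theorem nbG : nb b (insert c C) = nb b C + 1 := by
  unfold nb
  rw [h.mtG, card_insert_of_notMem h.iC]

theorem tauG : tau b (insert c C) = tau b C := by
  have hs := h.mc.sys.mono (insert_subset (mem_inter.mp h.cB).2 h.CV)
  apply le_antisymm
  · have h1 := h.mc.sing h.h4 h.hC (show 1 ≤ aK b C c by rw [h.aCc]; omega)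
    have h2 : C ∪ {c} = insert c C := by
      rw [union_comm]
      rfl
    rw [h2] at h1
    exact tau_le h1
  · exact tau_mono hs.cb (subset_insert _ _)

theorem sysG : Sys4 b (insert c C) :=
  h.mc.sys.mono (insert_subset (mem_inter.mp h.cB).2 h.CV)

theorem PhG : Ph b (insert c C) = Ph b C + 97 := by
  unfold Ph
  rw [h.nbG, h.tauG, card_insert_of_notMem h.cC]
  push_cast
  ring

theorem conG : Con b (insert c C) := by
  obtain ⟨j, hj, hcj⟩ := aK_pos.mp (show 0 < aK b C c by rw [h.aCc]; omega)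
  obtain ⟨x, hx, hxj⟩ := mem_mt.mp hj
  have h1 := con_union (cps_con h.hC) (show Con b {c} from by
    intro u hu v hv
    rw [mem_singleton.mp hu, mem_singleton.mp hv]) hx hxj (mem_singleton_self c) hcj
  have h2 : C ∪ {c} = insert c C := by
    rw [union_comm]
    rfl
  rwa [h2] at h1

theorem tauGe {x : α} (hx : x ∈ X) {e : ι} (he : e ∈ mt b C) (hxe : x ∈ b e) :
    tau b (insert c C \ b e) = tau b (insert c C) := by
  have hs := h.sysG
  have h1 := tau_sdiff_le hs.cb e
  have h2 := tau_mono hs.cb (sdiff_subset (s := insert c C) (t := b e))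
  by_contra hcon
  have h3 : tau b (insert c C \ b e) + 1 = tau b (insert c C) := by omega
  have h4 := absb hs.cb h3 (singleton_subset_iff.mpr hxe)
  rw [h.tauG] at h4
  refine h.nab hx (h4.mono ?_ le_rfl)
  intro u hu
  rw [mem_union, mem_insert, mem_singleton] at hu
  rw [mem_union, mem_insert, mem_singleton]
  tauto

/-- step 5 -/
theorem step5 {x : α} (hx : x ∈ X) {e : ι} (he : e ∈ mt b C) (hxe : x ∈ b e) :
    Ps b (insert c C \ b e) + 53 * ((b e ∩ C).card : ℤ) +
      43 * ((inn b (insert c C) (b e ∩ C)).card : ℤ) - 95 ≤ PsH b V C := by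
  have hce := h.cne hx he hxe
  have e1 : b e ∩ C = b e ∩ insert c C := by
    ext u
    rw [mem_inter, mem_inter, mem_insert]
    constructor
    · exact fun h => ⟨h.1, Or.inr h.2⟩
    · rintro ⟨h1, rfl | h2⟩
      · exact absurd h1 hce
      · exact ⟨h1, h2⟩
  have hT : b e ∩ C ⊆ insert c C := inter_subset_right.trans (subset_insert _ _)
  have e2 : insert c C \ (b e ∩ C) = insert c C \ b e := by
    rw [e1]
    ext u
    simp only [mem_sdiff, mem_inter]
    tauto
  have h1 := nb_rem b (insert c C) (b e ∩ C)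
  have h2 := card_rem hT
  rw [e2] at h1 h2
  have h3 := h.tauGe hx he hxe
  have hxV := mem_inter.mp (h.XB hx)
  have heV : (b e ∩ V).card ≠ 1 := by
    obtain ⟨y, hy, hye⟩ := mem_mt.mp he
    intro h5
    have h6 : x = y := card_le_one.mp (le_of_eq h5) x (mem_inter.mpr ⟨hxe, hxV.2⟩) y
      (mem_inter.mpr ⟨hye, h.CV hy⟩)
    rw [← h6] at hy
    exact notMem_of_cps h.hC hxV.1 hy
  have hein : e ∈ inn b (insert c C) (b e ∩ C) := by
    rw [mem_inn, ← e1]
    refine ⟨?_, Subset.refl _⟩
    obtain ⟨y, hy, hye⟩ := mem_mt.mp he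
    exact ⟨y, mem_inter.mpr ⟨hye, hy⟩⟩
  -- the singletons
  have h4 : in1 b V C ∪ {i} ⊆ (univ.filter fun j => (b j ∩ (insert c C \ b e)).card = 1) ∪
      (inn b (insert c C) (b e ∩ C)).erase e := by
    intro j hj
    rw [mem_union, mem_filter, mem_erase]
    rcases mem_union.mp hj with hj | hj
    · rw [mem_in1] at hj
      obtain ⟨p, hp⟩ := card_eq_one.mp hj.1
      have hpm : p ∈ b j ∩ V := by rw [hp]; simp
      have hpC := hj.2 hpm
      have hpj := (mem_inter.mp hpm).1
      have huniq : ∀ u ∈ b j, u ∈ insert c C → u = p := by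
        intro u hu hu2
        have : u ∈ b j ∩ V := mem_inter.mpr ⟨hu, (insert_subset (mem_inter.mp h.cB).2 h.CV) hu2⟩
        rw [hp] at this
        exact mem_singleton.mp this
      by_cases hpe : p ∈ b e
      · right
        refine ⟨?_, ?_⟩
        · rintro rfl
          exact heV hj.1
        · rw [mem_inn]
          refine ⟨⟨p, mem_inter.mpr ⟨hpj, mem_insert_of_mem hpC⟩⟩, ?_⟩
          intro u hu
          rw [mem_inter] at hu
          rw [huniq u hu.1 hu.2]
          exact mem_inter.mpr ⟨hpe, hpC⟩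
      · left
        refine ⟨mem_univ _, ?_⟩
        rw [card_eq_one]
        refine ⟨p, ?_⟩
        ext u
        rw [mem_inter, mem_sdiff, mem_singleton]
        constructor
        · rintro ⟨h5, h6, -⟩
          exact huniq u h5 h6
        · rintro rfl
          exact ⟨hpj, mem_insert_of_mem hpC, hpe⟩
    · rw [mem_singleton.mp hj]
      left
      refine ⟨mem_univ _, ?_⟩
      rw [card_eq_one]
      refine ⟨c, ?_⟩
      ext u
      rw [mem_inter, mem_sdiff, mem_insert, mem_singleton]
      constructor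
      · rintro ⟨h5, rfl | h6, -⟩
        · rfl
        · exact absurd h6 (notMem_of_cps h.hC h5)
      · rintro rfl
        exact ⟨(mem_inter.mp h.cB).1, Or.inl rfl, hce⟩
  have h5 := (card_le_card h4).trans (card_union_le _ _)
  rw [card_union_of_disjoint, card_singleton, card_erase_of_mem hein] at h5
  · have h6 : (in1 b V C).card + 2 ≤ n1 b (insert c C \ b e) +
        (inn b (insert c C) (b e ∩ C)).card := by
      have : 0 < (inn b (insert c C) (b e ∩ C)).card := card_pos.mpr ⟨e, hein⟩
      unfold n1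
      omega
    have h7 : ((in1 b V C).card : ℤ) + 2 ≤ (n1 b (insert c C \ b e) : ℤ) +
        ((inn b (insert c C) (b e ∩ C)).card : ℤ) := by exact_mod_cast h6
    have h8 := h.PhG
    unfold PsH Ps
    unfold Ph at h8 ⊢
    rw [h1, h2, ← h3] at h8
    push_cast at h8
    linarith
  · rw [disjoint_singleton_right]
    intro h6
    have h7 := (mem_in1.mp h6).1
    have := h.h4
    omega

end SPd

end Pool.Agent.Helper34.C5
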