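import Pool.Agent.Helper34.C5.Sp1

/-!
# SP, part 2: the traces of the blocks at `X`
-/

set_option linter.unusedSectionVars false
set_option autoImplicit false

open Finset
open Pool.Agent.Helper20.C5

namespace Pool.Agent.Helper34.C5

variable {α ι : Type} [DecidableEq α] [DecidableEq ι] [Fintype ι]
variable {b : ι → Finset α} {V : Finset α} {i : ι} {K C X : Finset α} {c : α}

namespace SPd

variable (h : SPd b V i K C X c)
include h

theorem GV : insert c C ⊆ V := insert_subset (mem_inter.mp h.cB).2 h.CV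

/-- a block at `C` which leaves `C`, `c` contains a point of `X` -/
theorem leave {j : ι} (hj : j ∈ mt b C) {z : α} (hz : z ∈ b j) (hzV : z ∈ V) (hzC : z ∉ C)
    (hzc : z ≠ c) : z ∈ X := by
  by_cases hzi : z ∈ b i
  · have h1 : z ∈ b i ∩ V := mem_inter.mpr ⟨hzi, hzV⟩
    rw [h.hB, mem_insert] at h1
    exact h1.resolve_left hzc
  · exfalso
    obtain ⟨u, hu, huj⟩ := mem_mt.mp hj
    exact cps_sep h.hC j u hu z (mem_sdiff.mpr ⟨mem_sdiff.mpr ⟨hzV, hzi⟩, hzC⟩) huj hz

/-- a component of `G - e` without `c` which meets no block at `X` -/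
theorem compY {x : α} (hx : x ∈ X) {e : ι} (he : e ∈ mt b C) (hxe : x ∈ b e)
    {N : Finset α} (hN : N ∈ cps b (insert c C \ b e)) (hcN : c ∉ N)
    (hX : ∀ x' ∈ X, ∀ j ∈ mt b N, x' ∉ b j) {y : α} (hy : y ∈ b e ∩ C)
    (hy2 : ∀ y' ∈ b e ∩ C, y' ≠ y → aK b N y' = 0) : N ∈ cps b (V \ {y}) := by
  have hce := h.cne hx he hxe
  have hNs := cps_sub hN
  have hNC : N ⊆ C := by
    intro u hu
    rcases mem_insert.mp (mem_sdiff.mp (hNs hu)).1 with rfl | h1
    · exact absurd hu hcN
    · exact h1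
  have hye := mem_inter.mp hy
  refine mem_cps_of ?_ (cps_ne hN) (cps_con hN) ?_
  · intro u hu
    rw [mem_sdiff, mem_singleton]
    refine ⟨h.CV (hNC hu), ?_⟩
    rintro rfl
    exact (mem_sdiff.mp (hNs hu)).2 hye.1
  · intro j u hu z hz huj hzj
    rw [mem_sdiff, mem_sdiff, mem_singleton] at hz
    have hjN : j ∈ mt b N := mem_mt.mpr ⟨u, hu, huj⟩
    have hjC : j ∈ mt b C := mem_mt.mpr ⟨u, hNC hu, huj⟩
    have hin : z ∈ insert c C \ b e → False := fun h1 =>
      cps_sep hN j u hu z (mem_sdiff.mpr ⟨h1, hz.2⟩) huj hzj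
    by_cases hzc : z = c
    · rw [hzc] at hin
      exact hin (mem_sdiff.mpr ⟨mem_insert_self _ _, hce⟩)
    by_cases hzC : z ∈ C
    · by_cases hze : z ∈ b e
      · have h1 := hy2 z (mem_inter.mpr ⟨hze, hzC⟩) hz.1.2
        have h2 : 0 < aK b N z := aK_pos.mpr ⟨j, hjN, hzj⟩
        omega
      · exact hin (mem_sdiff.mpr ⟨mem_insert_of_mem hzC, hze⟩)
    · exact hX z (h.leave hjC hzj hz.1.1 hzC hzc) j hjN hzj

/-- `G` is attached to the removed trace -/
theorem attG {e : ι} (he : e ∈ mt b C) {N : Finset α}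
    (hN : N ∈ cps b (insert c C \ b e)) :
    ∃ j ∈ mt b N, ∃ y ∈ b e ∩ insert c C, y ∈ b j := by
  have hT : (b e ∩ insert c C).Nonempty := by
    obtain ⟨y, hy, hye⟩ := mem_mt.mp he
    exact ⟨y, mem_inter.mpr ⟨hye, mem_insert_of_mem hy⟩⟩
  obtain ⟨j, hj, hj2⟩ := att h.conG hT hN
  obtain ⟨y, hy, hyj⟩ := mem_mt.mp hj2
  exact ⟨j, hj, y, hy, hyj⟩

theorem eG {x : α} (hx : x ∈ X) {e : ι} (he : e ∈ mt b C) (hxe : x ∈ b e) :
    b e ∩ insert c C = b e ∩ C := by
  have hce := h.cne hx he hxe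
  ext u
  rw [mem_inter, mem_inter, mem_insert]
  constructor
  · rintro ⟨h1, rfl | h2⟩
    · exact absurd h1 hce
    · exact ⟨h1, h2⟩
  · exact fun h => ⟨h.1, Or.inr h.2⟩

theorem ltG {e : ι} : (insert c C \ b e).card < V.card := by
  obtain ⟨x, hx⟩ := cps_ne h.hK
  refine MC.lt (sdiff_subset.trans h.GV) (h.KV hx) ?_
  rw [mem_sdiff, mem_insert, not_and_or]
  left
  rintro (rfl | h1)
  · exact notMem_of_cps h.hK (mem_inter.mp h.cB).1 hx
  · exact (disjoint_left.mp (cps_disj h.hK h.hC h.ne)) hx h1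

/-- **step 6**: the trace is one point -/
theorem trace1 {x : α} (hx : x ∈ X) {e : ι} (he : e ∈ mt b C) (hxe : x ∈ b e) :
    (b e ∩ C).card = 1 := by
  classical
  by_contra hcon
  have hpos := mt_card_pos.mp he
  have hxV := mem_inter.mp (h.XB hx)
  have hxC : x ∉ C := notMem_of_cps h.hC hxV.1
  have h3 : (b e ∩ C).card ≤ 3 := by
    have h1 : insert x (b e ∩ C) ⊆ b e ∩ V := by
      apply insert_subset (mem_inter.mpr ⟨hxe, hxV.2⟩)
      exact inter_subset_inter_left h.CV
    have h2 := (card_le_card h1).trans (h.mc.sys.sz e)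
    rw [card_insert_of_notMem (fun h5 => hxC (mem_inter.mp h5).2)] at h2
    omega
  have hE : ∀ x' ∈ X, ∃ e', e' ∈ mt b C ∧ x' ∈ b e' ∧ ∀ j, x' ∈ b j → j ∈ mt b C → j = e' :=
    fun x' hx' => h.exists_e hx'
  have : Nonempty ι := ⟨i⟩
  choose! g hg1 hg2 hg3 using hE
  have hgx : g x = e := (hg3 x hx e hxe he).symm
  let L : Finset ι := insert i ((X.erase x).image g)
  have hL : L.card ≤ 3 := by
    refine (card_insert_le _ _).trans ?_
    have h1 : ((X.erase x).image g).card ≤ (X.erase x).card := card_image_le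
    rw [card_erase_of_mem hx, h.tv.x3] at h1
    omega
  -- incidences
  have heN : ∀ N ∈ cps b (insert c C \ b e), e ∉ mt b N := by
    intro N hN heN
    obtain ⟨u, hu, hue⟩ := mem_mt.mp heN
    exact (mem_sdiff.mp (cps_sub hN hu)).2 hue
  have hinc : ∀ S ⊆ cps b (insert c C \ b e), ∑ N ∈ S, ∑ y ∈ b e ∩ C, aK b N y ≤
      4 * (b e ∩ C).card := by
    intro S hS
    rw [sum_comm]
    have h1 : ∀ y ∈ b e ∩ C, ∑ N ∈ S, aK b N y ≤ 4 := by
      intro y hy
      rw [mem_inter] at hy
      have h2 : (S.biUnion fun N => univ.filter fun j => y ∈ b j ∧ j ∈ mt b N) ⊆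
          univ.filter fun j => y ∈ b j ∧ ¬ j = e := by
        intro j hj
        obtain ⟨N, hN, hj⟩ := mem_biUnion.mp hj
        rw [mem_filter] at hj ⊢
        refine ⟨hj.1, hj.2.1, ?_⟩
        rintro rfl
        exact heN N (hS hN) hj.2.2
      have h4 := card_le_card h2
      have h5 := deg_split h.mc.sys (h.CV hy.2) (fun j => j = e)
      have h6 : 0 < (univ.filter fun j => y ∈ b j ∧ j = e).card :=
        card_pos.mpr ⟨e, mem_filter.mpr ⟨mem_univ _, hy.1, rfl⟩⟩
      rw [card_biUnion] at h4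
      · unfold aK
        omega
      · intro N hN N' hN' hne
        refine disjoint_left.mpr ?_
        intro j hj hj'
        exact hne (cps_unique (hS hN) (hS hN') (mem_filter.mp hj).2.2 (mem_filter.mp hj').2.2)
    refine (sum_le_sum h1).trans ?_
    rw [sum_const, smul_eq_mul, mul_comm]
  let S := (cps b (insert c C \ b e)).filter fun N => Ps b N < 0
  let S1 := S.filter fun N => ∃ j ∈ L, j ∈ mt b N
  have hS1 : S1.card ≤ 3 := by
    refine le_trans ?_ hL
    apply cps_card_le (W := insert c C \ b e)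
    · exact (filter_subset _ _).trans (filter_subset _ _)
    · intro N hN
      exact (mem_filter.mp hN).2
  have hge : ∀ N ∈ S, 2 ≤ ∑ y ∈ b e ∩ C, aK b N y + (if N ∈ S1 then 1 else 0) := by
    intro N hN
    have hN' := mem_filter.mp hN
    obtain ⟨j, hj, y, hy, hyj⟩ := h.attG he hN'.1
    rw [h.eG hx he hxe] at hy
    have h1 : 1 ≤ aK b N y := aK_pos.mpr ⟨j, hj, hyj⟩
    have h2 : aK b N y ≤ ∑ y ∈ b e ∩ C, aK b N y :=
      single_le_sum (f := fun y => aK b N y) (fun _ _ => Nat.zero_le _) hy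
    by_cases hN1 : N ∈ S1
    · rw [if_pos hN1]
      omega
    · rw [if_neg hN1, add_zero]
      by_contra hlt
      have hno : ∀ j ∈ L, j ∉ mt b N := by
        intro j hj hjN
        exact hN1 (mem_filter.mpr ⟨hN, j, hj, hjN⟩)
      have hcN : c ∉ N := fun hcN => hno i (mem_insert_self _ _)
        (mem_mt.mpr ⟨c, hcN, (mem_inter.mp h.cB).1⟩)
      have hNC : N ⊆ C := by
        intro u hu
        rcases mem_insert.mp (mem_sdiff.mp (cps_sub hN'.1 hu)).1 with rfl | h1
        · exact absurd hu hcN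
        · exact h1
      have h5 := h.compY hx he hxe hN'.1 hcN (by
        intro x' hx' j hj hxj
        obtain ⟨u, hu, huj⟩ := mem_mt.mp hj
        have h6 : j = g x' := hg3 x' hx' j hxj (mem_mt.mpr ⟨u, hNC hu, huj⟩)
        by_cases hxx : x' = x
        · rw [hxx, hgx] at h6
          rw [h6] at hj
          exact heN N hN'.1 hj
        · exact hno j (mem_insert_of_mem (mem_image.mpr ⟨x', mem_erase.mpr ⟨hxx, hx'⟩,
            h6.symm⟩)) hj) hy (by
        intro y' hy' hne
        have h6 : aK b N y + aK b N y' ≤ ∑ y ∈ b e ∩ C, aK b N y := by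
          have h7 : ({y, y'} : Finset α) ⊆ b e ∩ C := by
            intro u hu
            rw [mem_insert, mem_singleton] at hu
            rcases hu with rfl | rfl
            · exact hy
            · exact hy'
          have h8 := sum_le_sum_of_subset (f := fun y => aK b N y) h7
          rw [sum_pair hne.symm] at h8
          exact h8
        omega)
      have h6 := h.mc.f3 (h.CV (mem_inter.mp hy).2) h5
      have := hN'.2
      omega
  have h5 := sum_le_sum hge
  rw [sum_const, smul_eq_mul, sum_add_distrib, ← card_filter] at h5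
  have h6 : (S.filter fun N => N ∈ S1) = S1 := by
    ext N
    rw [mem_filter]
    exact ⟨fun h => h.2, fun h => ⟨(mem_filter.mp h).1, h⟩⟩
  rw [h6] at h5
  have h7 := hinc S (filter_subset _ _)
  have h8 := h.step5 hx he hxe
  have h9 : 1 ≤ (inn b (insert c C) (b e ∩ C)).card := by
    apply card_pos.mpr
    refine ⟨e, ?_⟩
    rw [mem_inn, h.eG hx he hxe]
    exact ⟨card_pos.mp (by omega), Subset.refl _⟩
  have h9' : (1 : ℤ) ≤ ((inn b (insert c C) (b e ∩ C)).card : ℤ) := by exact_mod_cast h9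
  have h10 := h.psC
  have hsysW := h.sysG.mono (sdiff_subset (s := insert c C) (t := b e))
  have hk : (b e ∩ C).card = 2 ∨ (b e ∩ C).card = 3 := by omega
  rcases hk with hk | hk
  · have h11 := h.mc.ih.sum_ge' h.ltG hsysW 5 (show S.card ≤ 5 by omega)
    rw [hk] at h8
    push_cast at h8 h11
    omega
  · have h11 := h.mc.ih.sum_ge' h.ltG hsysW 7 (show S.card ≤ 7 by omega)
    rw [hk] at h8
    push_cast at h8 h11
    omega

/-- **step 7** -/
theorem inn1 {x : α} (hx : x ∈ X) {e : ι} (he : e ∈ mt b C) (hxe : x ∈ b e) :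
    inn b (insert c C) (b e ∩ C) = {e} := by
  classical
  have h1 := h.trace1 hx he hxe
  obtain ⟨y, hy⟩ := card_eq_one.mp h1
  have hein : e ∈ inn b (insert c C) (b e ∩ C) := by
    rw [mem_inn, h.eG hx he hxe]
    exact ⟨card_pos.mp (by omega), Subset.refl _⟩
  by_contra hcon
  have h2 : 2 ≤ (inn b (insert c C) (b e ∩ C)).card := by
    by_contra h3
    apply hcon
    ext j
    rw [mem_singleton]
    exact ⟨fun hj => card_le_one.mp (by omega) j hj e hein, fun hj => hj ▸ hein⟩
  have hym : y ∈ b e ∩ C := by rw [hy]; simp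
  have hyV := h.CV (mem_inter.mp hym).2
  have h3 : (cps b (insert c C \ b e)).card ≤
      (univ.filter fun j => y ∈ b j ∧ ¬ j ∈ inn b (insert c C) (b e ∩ C)).card := by
    apply cps_card_le (Subset.refl _)
    intro N hN
    obtain ⟨j, hj, y', hy', hyj⟩ := h.attG he hN
    rw [h.eG hx he hxe, hy, mem_singleton] at hy'
    rw [hy'] at hyj
    refine ⟨j, mem_filter.mpr ⟨mem_univ _, hyj, fun h4 => ?_⟩, hj⟩
    obtain ⟨u, hu, huj⟩ := mem_mt.mp hj
    have h5 := mem_sdiff.mp (cps_sub hN hu)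
    have h6 := (mem_inn.mp h4).2 (mem_inter.mpr ⟨huj, h5.1⟩)
    exact h5.2 (mem_inter.mp h6).1
  have h4 := deg_split h.mc.sys hyV (fun j => j ∈ inn b (insert c C) (b e ∩ C))
  have h5 : inn b (insert c C) (b e ∩ C) ⊆
      univ.filter fun j => y ∈ b j ∧ j ∈ inn b (insert c C) (b e ∩ C) := by
    intro j hj
    rw [mem_filter]
    refine ⟨mem_univ _, ?_, hj⟩
    obtain ⟨⟨u, hu⟩, h6⟩ := mem_inn.mp hj
    have h7 := h6 hu
    rw [hy, mem_singleton] at h7
    rw [← h7]
    exact (mem_inter.mp hu).1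
  have h6 := card_le_card h5
  have h7 := h.mc.ih.sum_ge h.ltG (h.sysG.mono (sdiff_subset (s := insert c C) (t := b e))) 3
    (show (cps b (insert c C \ b e)).card ≤ 3 by omega)
  have h8 := h.step5 hx he hxe
  have h9 := h.psC
  rw [h1] at h8
  have h10 : (2 : ℤ) ≤ ((inn b (insert c C) (b e ∩ C)).card : ℤ) := by exact_mod_cast h2
  push_cast at h7 h8
  omega

end SPd

end Pool.Agent.Helper34.C5
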