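import Pool.Agent.Helper34.C5.Sp2

/-!
# SP, part 3: the end
-/

set_option linter.unusedSectionVars false
set_option autoImplicit false

open Finset
open Pool.Agent.Helper20.C5

namespace Pool.Agent.Helper34.C5

variable {α ι : Type} [DecidableEq α] [DecidableEq ι] [Fintype ι]
variable {b : ι → Finset α} {V : Finset α} {i : ι} {K C X : Finset α} {c : α}

theorem exists_neg {W : Finset α} (hc : Cb b W) (h : Ps b W < 0) : ∃ N ∈ cps b W, Ps b N < 0 := by
  by_contra hcon
  rw [Ps_cps hc] at h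
  have h1 : 0 ≤ ∑ N ∈ cps b W, Ps b N := by
    apply sum_nonneg
    intro N hN
    by_contra h2
    exact hcon ⟨N, hN, not_le.mp h2⟩
  omega

namespace SPd

variable (h : SPd b V i K C X c)
include h

theorem xV {x : α} (hx : x ∈ X) : x ∈ V := (mem_inter.mp (h.XB hx)).2

theorem xi {x : α} (hx : x ∈ X) : x ∈ b i := (mem_inter.mp (h.XB hx)).1

theorem xC {x : α} (hx : x ∈ X) : x ∉ C := notMem_of_cps h.hC (h.xi hx)

theorem xG {x : α} (hx : x ∈ X) : x ∉ insert c C := by
  rw [mem_insert, not_or]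
  exact ⟨fun h1 => h.cX (h1 ▸ hx), h.xC hx⟩

/-- a block at `X` and `C` has at least two points -/
theorem two_pts {x : α} (hx : x ∈ X) {e : ι} (he : e ∈ mt b C) (hxe : x ∈ b e) :
    (b e ∩ V).card ≠ 1 := by
  obtain ⟨y, hy, hye⟩ := mem_mt.mp he
  intro h5
  have h6 : x = y := card_le_one.mp (le_of_eq h5) x (mem_inter.mpr ⟨hxe, h.xV hx⟩) y
    (mem_inter.mpr ⟨hye, h.CV hy⟩)
  exact h.xC hx (h6 ▸ hy)

/-- **step 8** -/
theorem step8 {x : α} (hx : x ∈ X) {e : ι} (he : e ∈ mt b C) (hxe : x ∈ b e) (E : Finset ι)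
    (hE : ∀ j ∈ E, j ∈ mt b C ∧ ∃ x' ∈ X, x' ∈ b j) (heE : e ∈ E) :
    Ps b (insert c C \ b e) + (E.card : ℤ) ≤ PsH b V C := by
  have hce := h.cne hx he hxe
  have e1 := h.eG hx he hxe
  have hT : b e ∩ C ⊆ insert c C := inter_subset_right.trans (subset_insert _ _)
  have e2 : insert c C \ (b e ∩ C) = insert c C \ b e := by
    rw [← e1]
    ext u
    simp only [mem_sdiff, mem_inter]
    tauto
  have h1 := nb_rem b (insert c C) (b e ∩ C)
  have h2 := card_rem hT
  rw [e2] at h1 h2
  have h3 := h.tauGe hx he hxe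
  have ht1 := h.trace1 hx he hxe
  have hi1 := h.inn1 hx he hxe
  have hinE : ∀ j, j ∈ inn b (insert c C) (b e ∩ C) → j = e := by
    intro j hj
    rw [hi1] at hj
    exact mem_singleton.mp hj
  have h4 : in1 b V C ∪ ({i} ∪ E.erase e) ⊆
      univ.filter fun j => (b j ∩ (insert c C \ b e)).card = 1 := by
    intro j hj
    rw [mem_filter]
    refine ⟨mem_univ _, ?_⟩
    rcases mem_union.mp hj with hj | hj
    · rw [mem_in1] at hj
      obtain ⟨p, hp⟩ := card_eq_one.mp hj.1
      have hpm : p ∈ b j ∩ V := by rw [hp]; simp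
      have hpC := hj.2 hpm
      have hpj := (mem_inter.mp hpm).1
      have huniq : ∀ u ∈ b j, u ∈ insert c C → u = p := by
        intro u hu hu2
        have : u ∈ b j ∩ V := mem_inter.mpr ⟨hu, h.GV hu2⟩
        rw [hp] at this
        exact mem_singleton.mp this
      have hpe : p ∉ b e := by
        intro hpe
        have h5 : j = e := by
          apply hinE
          rw [mem_inn]
          refine ⟨⟨p, mem_inter.mpr ⟨hpj, mem_insert_of_mem hpC⟩⟩, ?_⟩
          intro u hu
          rw [mem_inter] at hu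
          rw [huniq u hu.1 hu.2]
          exact mem_inter.mpr ⟨hpe, hpC⟩
        rw [h5] at hj
        exact h.two_pts hx he hxe hj.1
      rw [card_eq_one]
      refine ⟨p, ?_⟩
      ext u
      rw [mem_inter, mem_sdiff, mem_singleton]
      constructor
      · rintro ⟨h5, h6, -⟩
        exact huniq u h5 h6
      · rintro rfl
        exact ⟨hpj, mem_insert_of_mem hpC, hpe⟩
    · rcases mem_union.mp hj with hj | hj
      · rw [mem_singleton.mp hj, card_eq_one]
        refine ⟨c, ?_⟩
        ext u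
        rw [mem_inter, mem_sdiff, mem_insert, mem_singleton]
        constructor
        · rintro ⟨h5, rfl | h6, -⟩
          · rfl
          · exact absurd h6 (notMem_of_cps h.hC h5)
        · rintro rfl
          exact ⟨(mem_inter.mp h.cB).1, Or.inl rfl, hce⟩
      · rw [mem_erase] at hj
        obtain ⟨hjC, x', hx', hxj⟩ := hE j hj.2
        have hcj := h.cne hx' hjC hxj
        obtain ⟨p, hp⟩ := card_eq_one.mp (h.trace1 hx' hjC hxj)
        have hpm : p ∈ b j ∩ C := by rw [hp]; simp
        rw [mem_inter] at hpm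
        have hpe : p ∉ b e := by
          intro hpe
          apply hj.1
          apply hinE
          rw [mem_inn]
          refine ⟨⟨p, mem_inter.mpr ⟨hpm.1, mem_insert_of_mem hpm.2⟩⟩, ?_⟩
          rw [h.eG hx' hjC hxj, hp]
          exact singleton_subset_iff.mpr (mem_inter.mpr ⟨hpe, hpm.2⟩)
        rw [card_eq_one]
        refine ⟨p, ?_⟩
        ext u
        rw [mem_inter, mem_sdiff, mem_insert, mem_singleton]
        constructor
        · rintro ⟨h5, rfl | h6, -⟩
          · exact absurd h5 hcj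
          · have : u ∈ b j ∩ C := mem_inter.mpr ⟨h5, h6⟩
            rw [hp] at this
            exact mem_singleton.mp this
        · rintro rfl
          exact ⟨hpm.1, Or.inr hpm.2, hpe⟩
  have h5 := card_le_card h4
  rw [card_union_of_disjoint, card_union_of_disjoint, card_singleton, card_erase_of_mem heE] at h5
  · have h6 : (in1 b V C).card + E.card ≤ n1 b (insert c C \ b e) := by
      have : 0 < E.card := card_pos.mpr ⟨e, heE⟩
      unfold n1
      omega
    have h7 : ((in1 b V C).card : ℤ) + (E.card : ℤ) ≤ (n1 b (insert c C \ b e) : ℤ) := by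
      exact_mod_cast h6
    have h8 := h.PhG
    unfold PsH Ps
    unfold Ph at h8 ⊢
    rw [h1, h2, ← h3, hi1, card_singleton, ht1] at h8
    push_cast at h8
    linarith
  · rw [disjoint_singleton_left, mem_erase, not_and]
    intro _ h6
    exact h.iC (hE i h6).1
  · rw [disjoint_left]
    intro j hj hj2
    rw [mem_in1] at hj
    rcases mem_union.mp hj2 with hj2 | hj2
    · rw [mem_singleton.mp hj2] at hj
      have := h.h4
      omega
    · obtain ⟨hjC, x', hx', hxj⟩ := hE j (mem_erase.mp hj2).2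
      exact h.two_pts hx' hjC hxj hj.1

/-- the blocks which leave a component of `G - e` -/
theorem nblocks {x : α} (hx : x ∈ X) {e : ι} (he : e ∈ mt b C) (hxe : x ∈ b e) {y : α}
    (hy : b e ∩ C = {y}) {N : Finset α} (hN : N ∈ cps b (insert c C \ b e)) {j : ι}
    (hj : j ∈ mt b N) {z : α} (hz : z ∈ b j) (hzV : z ∈ V) (hzN : z ∉ N) (hzy : z ≠ y) :
    j = i ∨ (j ∈ mt b C ∧ ∃ x' ∈ X, x' ∈ b j) := by
  have hce := h.cne hx he hxe
  obtain ⟨u, hu, huj⟩ := mem_mt.mp hj
  have hin : z ∉ insert c C \ b e := fun h1 =>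
    cps_sep hN j u hu z (mem_sdiff.mpr ⟨h1, hzN⟩) huj hz
  by_cases hjC : j ∈ mt b C
  · right
    refine ⟨hjC, z, ?_, hz⟩
    have hzc : z ≠ c := by
      rintro rfl
      exact hin (mem_sdiff.mpr ⟨mem_insert_self _ _, hce⟩)
    have hzC : z ∉ C := by
      intro hzC
      apply hin
      refine mem_sdiff.mpr ⟨mem_insert_of_mem hzC, fun hze => hzy ?_⟩
      have : z ∈ b e ∩ C := mem_inter.mpr ⟨hze, hzC⟩
      rw [hy] at this
      exact mem_singleton.mp this
    exact h.leave hjC hz hzV hzC hzc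
  · left
    have huC : u ∉ C := fun h1 => hjC (mem_mt.mpr ⟨u, h1, huj⟩)
    have huc : u = c := (mem_insert.mp (mem_sdiff.mp (cps_sub hN hu)).1).resolve_right huC
    rw [huc] at huj
    exact (h.cBlocks huj).resolve_right hjC

/-- they meet it in one point -/
theorem nblocks1 {e : ι} {N : Finset α} (hN : N ∈ cps b (insert c C \ b e)) {j : ι}
    (hj : j ∈ mt b N) (hj2 : j = i ∨ (j ∈ mt b C ∧ ∃ x' ∈ X, x' ∈ b j)) :
    (b j ∩ N).card = 1 := by
  have hNG : N ⊆ insert c C := (cps_sub hN).trans sdiff_subset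
  have hpos := mt_card_pos.mp hj
  have hle : (b j ∩ N).card ≤ 1 := by
    rcases hj2 with rfl | ⟨hjC, x', hx', hxj⟩
    · have h1 : b j ∩ N ⊆ {c} := by
        intro u hu
        rw [mem_inter] at hu
        rw [mem_singleton]
        exact (mem_insert.mp (hNG hu.2)).resolve_right (notMem_of_cps h.hC hu.1)
      have := card_le_card h1
      rwa [card_singleton] at this
    · rw [← h.trace1 hx' hjC hxj, ← h.eG hx' hjC hxj]
      exact card_le_card (inter_subset_inter_left hNG)
  omega

/-- **the end of SP** -/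
theorem false : False := by
  classical
  have hE : ∀ x' ∈ X, ∃ e', e' ∈ mt b C ∧ x' ∈ b e' ∧ ∀ j, x' ∈ b j → j ∈ mt b C → j = e' :=
    fun x' hx' => h.exists_e hx'
  have : Nonempty ι := ⟨i⟩
  choose! g hg1 hg2 hg3 using hE
  obtain ⟨x, hx⟩ := card_pos.mp (show 0 < X.card by rw [h.tv.x3]; omega)
  obtain ⟨e, hge⟩ : ∃ e, g x = e := ⟨_, rfl⟩
  have he : e ∈ mt b C := hge ▸ hg1 x hx
  have hxe : x ∈ b e := hge ▸ hg2 x hx
  have ht1 := h.trace1 hx he hxe
  have hi1 := h.inn1 hx he hxe
  have heG := h.eG hx he hxe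
  have hce := h.cne hx he hxe
  obtain ⟨y, hy⟩ := card_eq_one.mp ht1
  have hym : y ∈ b e ∩ C := by rw [hy]; simp
  rw [mem_inter] at hym
  have hyV := h.CV hym.2
  have hyc : y ≠ c := by
    rintro rfl
    exact hce hym.1
  have hyX : ∀ x' ∈ X, x' ≠ y := by
    rintro x' hx' rfl
    exact h.xC hx' hym.2
  -- a negative component
  have hneg : Ps b (insert c C \ b e) < 0 := by
    have h1 := h.step8 hx he hxe {e} (by
      intro j hj
      rw [mem_singleton.mp hj]
      exact ⟨he, x, hx, hxe⟩) (mem_singleton_self e)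
    rw [card_singleton] at h1
    have := h.psC
    push_cast at h1
    omega
  obtain ⟨N, hN, hNneg⟩ := exists_neg (h.sysG.mono sdiff_subset).cb hneg
  have hNs := cps_sub hN
  have hNG : N ⊆ insert c C := hNs.trans sdiff_subset
  have hNV : N ⊆ V := hNG.trans h.GV
  have hyN : y ∉ N := fun h1 => (mem_sdiff.mp (hNs h1)).2 hym.1
  have hXN : ∀ x' ∈ X, x' ∉ N := fun x' hx' h1 => h.xG hx' (hNG h1)
  have hNlt : N.card < V.card := (card_le_card hNs).trans_lt h.ltG
  -- a block which leaves it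
  have hleave : ∃ f ∈ mt b N, ∃ z ∈ b f, z ∈ V ∧ z ∉ N ∧ z ≠ y := by
    by_contra hno
    have h1 : N ∈ cps b (V \ {y}) := by
      refine mem_cps_of ?_ (cps_ne hN) (cps_con hN) ?_
      · intro u hu
        rw [mem_sdiff, mem_singleton]
        refine ⟨hNV hu, ?_⟩
        rintro rfl
        exact hyN hu
      · intro j u hu z hz huj hzj
        rw [mem_sdiff, mem_sdiff, mem_singleton] at hz
        exact hno ⟨j, mem_mt.mpr ⟨u, hu, huj⟩, z, hzj, hz.1.1, hz.2, hz.1.2⟩
    have := h.mc.f3 hyV h1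
    omega
  obtain ⟨f, hfN, zf, hzf, hzfV, hzfN, hzfy⟩ := hleave
  have hf := h.nblocks hx he hxe hy hN hfN hzf hzfV hzfN hzfy
  have hf1 := h.nblocks1 hN hfN hf
  have hn1pos : 0 < n1 b N := card_pos.mpr ⟨f, mem_filter.mpr ⟨mem_univ _, hf1⟩⟩
  have hNT : T3 b N := by
    rcases h.mc.ih α ι b N (cps_ne hN) hNlt (h.mc.sys.mono hNV) (cps_con hN) with h1 | h1 | h1 | h1
    · omega
    · have := dt_n1 (h.mc.sys.mono hNV) h1
      omega
    · exact h1
    · have := h1.2.2.2.1
      omega
  have hn1 := t3_n1 (h.mc.sys.mono hNV) hNT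
  have huniq : ∀ j, (b j ∩ N).card = 1 → j = f := by
    intro j hj
    unfold n1 at hn1
    exact card_le_one.mp (le_of_eq hn1) j (mem_filter.mpr ⟨mem_univ _, hj⟩) f
      (mem_filter.mpr ⟨mem_univ _, hf1⟩)
  have hstay : ∀ j ∈ mt b N, j ≠ f → b j ∩ V ⊆ insert y N := by
    intro j hj hjf z hz
    rw [mem_inter] at hz
    by_contra hcon
    rw [mem_insert, not_or] at hcon
    exact hjf (huniq j (h.nblocks1 hN hj (h.nblocks hx he hxe hy hN hj hz.1 hz.2 hcon.2 hcon.1)))
  obtain ⟨xf, hxf, hxff⟩ : ∃ xf ∈ X, xf ∈ b f := by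
    rcases hf with rfl | ⟨-, h1⟩
    · exact ⟨x, hx, h.xi hx⟩
    · exact h1
  have hfV : (b f ∩ V).card ≠ 1 := by
    intro h1
    obtain ⟨u, hu⟩ := card_eq_one.mp hf1
    have hum : u ∈ b f ∩ N := by rw [hu]; simp
    rw [mem_inter] at hum
    have h2 : xf = u := card_le_one.mp (le_of_eq h1) xf (mem_inter.mpr ⟨hxff, h.xV hxf⟩) u
      (mem_inter.mpr ⟨hum.1, hNV hum.2⟩)
    exact hXN xf hxf (h2 ▸ hum.2)
  -- removal of `N + y`
  have hW : insert y N ⊆ V := insert_subset hyV hNV
  have hWc : (insert y N).card = 4 := by rw [card_insert_of_notMem hyN, hNT.1]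
  have hcv : Cv b (insert y N) 2 := by
    obtain ⟨j, hj, y', hy', hyj⟩ := h.attG he hN
    rw [heG, hy, mem_singleton] at hy'
    rw [hy'] at hyj
    have h1 := f1' h.mc.ih (h.mc.sys.mono hNV) (cps_con hN) hNlt.le (by omega) hj
    have h2 := absb (h.mc.sys.mono hNV).cb h1 (singleton_subset_iff.mpr hyj)
    rw [hNT.2.2] at h2
    have h3 : N ∪ {y} = insert y N := by
      rw [union_comm]
      rfl
    rwa [h3] at h2
  have hinn : 7 ≤ (inn b V (insert y N)).card := by
    have h1 : (mt b N).erase f ⊆ inn b V (insert y N) := by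
      intro j hj
      rw [mem_erase] at hj
      rw [mem_inn]
      obtain ⟨u, hu, huj⟩ := mem_mt.mp hj.2
      exact ⟨⟨u, mem_inter.mpr ⟨huj, hNV hu⟩⟩, hstay j hj.2 hj.1⟩
    have h2 := card_le_card h1
    rw [card_erase_of_mem hfN] at h2
    have h3 : (mt b N).card = 8 := hNT.2.1
    omega
  have hin1 : (in1 b V (insert y N)).card = 0 := by
    rw [card_eq_zero]
    ext j
    rw [mem_in1]
    refine ⟨?_, fun h => absurd h (notMem_empty j)⟩
    rintro ⟨h1, h2⟩
    exfalso
    obtain ⟨p, hp⟩ := card_eq_one.mp h1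
    have hpm : p ∈ b j ∩ V := by rw [hp]; simp
    rcases mem_insert.mp (h2 hpm) with rfl | hpN
    · have h3 : j ∈ inn b (insert c C) (b e ∩ C) := by
        rw [mem_inn, hy]
        refine ⟨⟨p, mem_inter.mpr ⟨(mem_inter.mp hpm).1, mem_insert_of_mem hym.2⟩⟩, ?_⟩
        rw [← hp]
        exact inter_subset_inter_left h.GV
      rw [hi1, mem_singleton] at h3
      rw [h3] at h1
      exact h.two_pts hx he hxe h1
    · have h3 : j = f := by
        apply huniq
        rw [card_eq_one]
        refine ⟨p, ?_⟩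
        ext u
        rw [mem_inter, mem_singleton]
        constructor
        · rintro ⟨h3, h4⟩
          have : u ∈ b j ∩ V := mem_inter.mpr ⟨h3, hNV h4⟩
          rw [hp] at this
          exact mem_singleton.mp this
        · rintro rfl
          exact ⟨(mem_inter.mp hpm).1, hpN⟩
      rw [h3] at h1
      exact hfV h1
  have h8 := Ps_rem_le h.mc.sys.cb hW hcv
  rw [hWc, hin1] at h8
  have hinn' : (7 : ℤ) ≤ ((inn b V (insert y N)).card : ℤ) := by exact_mod_cast hinn
  have hnw : (0 : ℤ) ≤ ((nw b V (insert y N)).card : ℤ) := Int.natCast_nonneg _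
  have hVneg := h.mc.neg
  have h9 : Ps b (V \ insert y N) < -8 := by
    push_cast at h8
    omega
  -- the big component
  have hXV' : ∀ x' ∈ X, x' ∈ V \ insert y N := by
    intro x' hx'
    rw [mem_sdiff, mem_insert, not_or]
    exact ⟨h.xV hx', hyX x' hx', hXN x' hx'⟩
  obtain ⟨M, hMdef⟩ : ∃ M, Cmp b (V \ insert y N) xf = M := ⟨_, rfl⟩
  have hM : M ∈ cps b (V \ insert y N) := mem_cps.mpr ⟨xf, hXV' xf hxf, hMdef⟩
  have hxfM : xf ∈ M := hMdef ▸ self_Cmp (hXV' xf hxf)
  have hcl : ∀ j, ∀ u ∈ M, u ∈ b j → ∀ z ∈ V \ insert y N, z ∈ b j → z ∈ M := by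
    intro j u hu huj z hz hzj
    by_contra hzM
    exact cps_sep hM j u hu z (mem_sdiff.mpr ⟨hz, hzM⟩) huj hzj
  have hXM : ∀ x' ∈ X, x' ∈ M := fun x' hx' => hcl i xf hxfM (h.xi hxf) x' (hXV' x' hx') (h.xi hx')
  have hKG : ∀ u ∈ K, u ∉ insert c C := by
    intro u hu
    rw [mem_insert, not_or]
    refine ⟨?_, fun h1 => (disjoint_left.mp (cps_disj h.hK h.hC h.ne)) hu h1⟩
    rintro rfl
    exact notMem_of_cps h.hK (mem_inter.mp h.cB).1 hu
  have hKV' : ∀ u ∈ K, u ∈ V \ insert y N := by
    intro u hu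
    rw [mem_sdiff, mem_insert, not_or]
    refine ⟨h.KV hu, ?_, fun h1 => hKG u hu (hNG h1)⟩
    rintro rfl
    exact hKG u hu (mem_insert_of_mem hym.2)
  have hKM : ∀ u ∈ K, u ∈ M := by
    obtain ⟨j, hj, hxj⟩ := aK_pos.mp (show 0 < aK b K x by rw [h.tv.a3 x hx]; omega)
    obtain ⟨u0, hu0, hu0j⟩ := mem_mt.mp hj
    have hu0M := hcl j x (hXM x hx) hxj u0 (hKV' u0 hu0) hu0j
    intro u hu
    by_contra huM
    obtain ⟨j', u', _, hu'M, hu'j, w, hwK, hwM, hwj⟩ := con_exit (cps_con h.hK) hu0 hu0M hu huM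
    exact hwM (hcl j' u' hu'M hu'j w (hKV' w hwK) hwj)
  -- the other components are nonnegative
  have hoth : ∀ N' ∈ cps b (V \ insert y N), N' ≠ M → 0 ≤ Ps b N' := by
    intro N' hN' hne
    apply h.mc.f3 hyV
    have hN's := cps_sub hN'
    refine mem_cps_of ?_ (cps_ne hN') (cps_con hN') ?_
    · intro u hu
      have h1 := mem_sdiff.mp (hN's hu)
      rw [mem_insert, not_or] at h1
      rw [mem_sdiff, mem_singleton]
      exact ⟨h1.1, h1.2.1⟩
    · intro j u hu z hz huj hzj
      rw [mem_sdiff, mem_sdiff, mem_singleton] at hz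
      have huV := mem_sdiff.mp (hN's hu)
      rw [mem_insert, not_or] at huV
      by_cases hzN : z ∈ N
      · have hjN : j ∈ mt b N := mem_mt.mpr ⟨z, hzN, hzj⟩
        have hjf : j = f := by
          by_contra hjf
          have h1 := hstay j hjN hjf (mem_inter.mpr ⟨huj, huV.1⟩)
          rw [mem_insert] at h1
          rcases h1 with h1 | h1
          · exact huV.2.1 h1
          · exact huV.2.2 h1
        rw [hjf] at huj
        have h1 := hcl f xf hxfM hxff u (hN's hu) huj
        exact (disjoint_left.mp (cps_disj hN' hM hne)) hu h1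
      · refine cps_sep hN' j u hu z (mem_sdiff.mpr ⟨mem_sdiff.mpr ⟨hz.1.1, ?_⟩, hz.2⟩) huj hzj
        rw [mem_insert, not_or]
        exact ⟨hz.1.2, hzN⟩
  have hsysV' := h.mc.sys.mono (sdiff_subset (s := V) (t := insert y N))
  have hMneg : Ps b M < -8 := by
    rw [Ps_cps hsysV'.cb, ← add_sum_erase _ _ hM] at h9
    have h1 : 0 ≤ ∑ N' ∈ (cps b (V \ insert y N)).erase M, Ps b N' :=
      sum_nonneg fun N' hN' => hoth N' (mem_erase.mp hN').2 (mem_erase.mp hN').1
    omega
  have hMV : M ⊆ V := (cps_sub hM).trans sdiff_subset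
  have hMlt : M.card < V.card :=
    MC.lt hMV hyV fun h1 => (mem_sdiff.mp (cps_sub hM h1)).2 (mem_insert_self _ _)
  have hMD : Dt b M := by
    by_contra h1
    have := h.mc.ih.ge2 (cps_ne hM) hMlt (h.mc.sys.mono hMV) (cps_con hM) h1
    omega
  have hXK : Disjoint X K := by
    rw [disjoint_left]
    intro u hu hu2
    exact notMem_of_cps h.hK (h.xi hu) hu2
  have hMe : ∀ u ∈ M, u ∈ X ∨ u ∈ K := by
    have h1 : X ∪ K = M := by
      apply eq_of_subset_of_card_le
      · exact union_subset (fun u hu => hXM u hu) (fun u hu => hKM u hu)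
      · rw [hMD.1, card_union_of_disjoint hXK, h.tv.x3, h.tv.k3]
    intro u hu
    rw [← h1, mem_union] at hu
    exact hu
  have hCM : ∀ u ∈ insert c C, u ∉ M := by
    intro u hu huM
    rcases hMe u huM with h1 | h1
    · exact h.xG h1 hu
    · exact hKG u h1 hu
  -- the point `c`
  have hcN : c ∈ N := by
    by_contra hcN
    apply hCM c (mem_insert_self _ _)
    refine hcl i x (hXM x hx) (h.xi hx) c ?_ (mem_inter.mp h.cB).1
    rw [mem_sdiff, mem_insert, not_or]
    exact ⟨(mem_inter.mp h.cB).2, hyc.symm, hcN⟩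
  have hfi : f = i := by
    symm
    apply huniq
    exact h.nblocks1 hN (mem_mt.mpr ⟨c, hcN, (mem_inter.mp h.cB).1⟩) (Or.inl rfl)
  have hgall : ∀ x' ∈ X, g x' = e := by
    intro x' hx'
    by_contra hne
    obtain ⟨y', hy'⟩ := card_eq_one.mp (h.trace1 hx' (hg1 x' hx') (hg2 x' hx'))
    have hy'm : y' ∈ b (g x') ∩ C := by rw [hy']; simp
    rw [mem_inter] at hy'm
    apply hCM y' (mem_insert_of_mem hy'm.2)
    refine hcl (g x') x' (hXM x' hx') (hg2 x' hx') y' ?_ hy'm.1
    rw [mem_sdiff, mem_insert, not_or]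
    refine ⟨h.CV hy'm.2, ?_, ?_⟩
    · rintro rfl
      apply hne
      have h1 : g x' ∈ inn b (insert c C) (b e ∩ C) := by
        rw [mem_inn, h.eG hx' (hg1 x' hx') (hg2 x' hx'), hy', hy]
        exact ⟨singleton_nonempty _, Subset.refl _⟩
      rw [hi1] at h1
      exact mem_singleton.mp h1
    · intro hy'N
      have h1 : g x' = f := by
        apply huniq
        exact h.nblocks1 hN (mem_mt.mpr ⟨y', hy'N, hy'm.1⟩)
          (Or.inr ⟨hg1 x' hx', x', hx', hg2 x' hx'⟩)
      rw [hfi] at h1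
      have h2 := hg1 x' hx'
      rw [h1] at h2
      exact h.iC h2
  -- type `E`
  have hbe : b e ∩ V = insert y X := by
    symm
    apply eq_of_subset_of_card_le
    · apply insert_subset (mem_inter.mpr ⟨hym.1, hyV⟩)
      intro x' hx'
      exact mem_inter.mpr ⟨hgall x' hx' ▸ hg2 x' hx', h.xV hx'⟩
    · rw [card_insert_of_notMem (fun h1 => hyX y h1 rfl), h.tv.x3]
      exact h.mc.sys.sz e
  have h4e : (b e ∩ V).card = 4 := by
    rw [hbe, card_insert_of_notMem (fun h1 => hyX y h1 rfl), h.tv.x3]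
  have hGN : cps b (insert c C \ b e) = {N} := by
    ext N''
    rw [mem_singleton]
    refine ⟨fun hN'' => ?_, fun h1 => h1 ▸ hN⟩
    by_contra hne
    have hcN'' : c ∉ N'' := fun h1 => (disjoint_left.mp (cps_disj hN'' hN hne)) h1 hcN
    have hN''s := cps_sub hN''
    have hN''C : ∀ u ∈ N'', u ∈ C := by
      intro u hu
      rcases mem_insert.mp (mem_sdiff.mp (hN''s hu)).1 with h1 | h1
      · exact absurd (h1 ▸ hu) hcN''
      · exact h1
    have heN'' : e ∉ mt b N'' := by
      intro h1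
      obtain ⟨u, hu, hue⟩ := mem_mt.mp h1
      exact (mem_sdiff.mp (hN''s hu)).2 hue
    have h1 : N'' ∈ cps b (V \ b e) := by
      refine mem_cps_of ?_ (cps_ne hN'') (cps_con hN'') ?_
      · exact hN''s.trans (sdiff_subset_sdiff h.GV (Subset.refl _))
      · intro j u hu z hz huj hzj
        rw [mem_sdiff, mem_sdiff] at hz
        have hjN : j ∈ mt b N'' := mem_mt.mpr ⟨u, hu, huj⟩
        rcases h.nblocks hx he hxe hy hN'' hjN hzj hz.1.1 hz.2 (by
          rintro rfl
          exact hz.1.2 hym.1) with h2 | ⟨h2, x', hx', hxj⟩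
        · rw [h2] at huj
          exact notMem_of_cps h.hC huj (hN''C u hu)
        · have h3 : j = e := (hg3 x' hx' j hxj h2).trans (hgall x' hx')
          rw [h3] at hjN
          exact heN'' hjN
    have h2 := h.mc.P2 h4e h1
    have h3 : PK b V e N'' ⊆ {y} := by
      intro u hu
      obtain ⟨⟨hue, huV⟩, j, hj, huj⟩ := mem_PK.mp hu
      have h4 : u ∈ b e ∩ V := mem_inter.mpr ⟨hue, huV⟩
      rw [hbe, mem_insert] at h4
      rw [mem_singleton]
      rcases h4 with h4 | h4
      · exact h4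
      · exfalso
        obtain ⟨w, hw, hwj⟩ := mem_mt.mp hj
        have h5 : j = e := (hg3 u h4 j huj (mem_mt.mpr ⟨w, hN''C w hw, hwj⟩)).trans (hgall u h4)
        rw [h5] at hj
        exact heN'' hj
    have h4 := card_le_card h3
    rw [card_singleton] at h4
    omega
  have hGe : insert c C \ b e = N := by
    have h1 := cps_union (b := b) (U := insert c C \ b e)
    rw [hGN, singleton_biUnion] at h1
    exact h1.symm
  have e2 : insert c C \ (b e ∩ C) = insert c C \ b e := by
    rw [← heG]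
    ext u
    simp only [mem_sdiff, mem_inter]
    tauto
  have hCc : C.card = 3 := by
    have h1 := card_sdiff_add_card_eq_card
      (inter_subset_right.trans (subset_insert c C) : b e ∩ C ⊆ insert c C)
    rw [e2, hGe, hNT.1, ht1, card_insert_of_notMem h.cC] at h1
    omega
  have hnbC : nb b C = 8 := by
    have h1 := nb_rem b (insert c C) (b e ∩ C)
    have h2 : nb b N = 8 := hNT.2.1
    rw [e2, hGe, hi1, card_singleton, h.nbG, h2] at h1
    omega
  have htC : tau b C = 2 := by
    have h1 := h.tauGe hx he hxe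
    rw [hGe, h.tauG, hNT.2.2] at h1
    exact h1.symm
  have hcU := h.mc.sys.cb.mono (sdiff_subset (s := V) (t := b i))
  have e3 : V \ (b i ∩ V) = V \ b i := by
    ext u
    simp only [mem_sdiff, mem_inter]
    tauto
  have hVc : V.card = 10 := by
    have h1 := card_cps hcU
    rw [h.hc, sum_pair h.ne, h.tv.k3, hCc] at h1
    have h2 := card_sdiff_add_card_eq_card (inter_subset_right : b i ∩ V ⊆ V)
    rw [e3, h.h4] at h2
    omega
  have hUKC : V \ b i = K ∪ C := by
    have h1 := cps_union (b := b) (U := V \ b i)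
    rw [h.hc, biUnion_insert, singleton_biUnion] at h1
    exact h1.symm
  have hsep : Sep b K C := by
    refine (cps_sep h.hK).mono (Subset.refl _) ?_
    intro u hu
    exact mem_sdiff.mpr ⟨cps_sub h.hC hu, fun h1 =>
      (disjoint_left.mp (cps_disj h.hK h.hC h.ne)) h1 hu⟩
  have hnbV : nb b V = 17 := by
    have h1 := nb_rem b V (b i ∩ V)
    rw [e3, hUKC, nb_sep hsep, h.tv.nbK, hnbC, (h.mc.x0 h.h4).1] at h1
    exact h1
  have htV : tau b V = 5 := by
    have h1 := h.mc.sat h.hi
    rw [hUKC, tau_sep hsep (h.mc.sys.mono h.KV).cb (h.mc.sys.mono h.CV).cb, h.tv.tauK, htC] at h1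
    exact h1.symm
  have hn1V : n1 b V = 0 := by
    unfold n1
    rw [card_eq_zero]
    ext j
    rw [mem_filter]
    refine ⟨?_, fun h => absurd h (notMem_empty j)⟩
    rintro ⟨-, h1⟩
    exfalso
    obtain ⟨p, hp⟩ := card_eq_one.mp h1
    have hpm : p ∈ b j ∩ V := by rw [hp]; simp
    rw [mem_inter] at hpm
    by_cases hpi : p ∈ b i
    · have h2 : j ∈ in1 b V (b i ∩ V) := by
        rw [mem_in1]
        refine ⟨h1, ?_⟩
        rw [hp]
        exact singleton_subset_iff.mpr (mem_inter.mpr ⟨hpi, hpm.2⟩)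
      have h3 := (h.mc.x0 h.h4).2
      rw [card_eq_zero] at h3
      rw [h3] at h2
      exact absurd h2 (notMem_empty j)
    · have h2 : p ∈ K ∪ C := by
        rw [← hUKC]
        exact mem_sdiff.mpr ⟨hpm.2, hpi⟩
      rcases mem_union.mp h2 with h2 | h2
      · have h3 : j ∈ in1 b V K := by
          rw [mem_in1]
          refine ⟨h1, ?_⟩
          rw [hp]
          exact singleton_subset_iff.mpr h2
        rw [h.in1K] at h3
        exact absurd h3 (notMem_empty j)
      · have h3 : j ∈ in1 b V (insert y N) := by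
          rw [mem_in1]
          refine ⟨h1, ?_⟩
          rw [hp]
          apply singleton_subset_iff.mpr
          by_cases hpe : p ∈ b e
          · have h4 : p ∈ b e ∩ C := mem_inter.mpr ⟨hpe, h2⟩
            rw [hy, mem_singleton] at h4
            rw [h4]
            exact mem_insert_self _ _
          · apply mem_insert_of_mem
            rw [← hGe]
            exact mem_sdiff.mpr ⟨mem_insert_of_mem h2, hpe⟩
        rw [card_eq_zero] at hin1
        rw [hin1] at h3
        exact absurd h3 (notMem_empty j)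
  apply h.mc.nE
  refine ⟨hVc, hnbV, htV, hn1V, i, e, h.h4, h4e, ?_⟩
  rw [hbe, card_eq_one]
  refine ⟨y, ?_⟩
  ext u
  rw [mem_sdiff, mem_insert, mem_singleton]
  constructor
  · rintro ⟨h1 | h1, h2⟩
    · exact h1
    · exact absurd (h.xi h1) h2
  · rintro rfl
    exact ⟨Or.inl rfl, fun h1 => notMem_of_cps h.hC h1 hym.2⟩

end SPd

end Pool.Agent.Helper34.C5
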