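import Pool.Agent.Helper34.C5.Sp3

/-!
# Two components: the end
-/

set_option linter.unusedSectionVars false
set_option autoImplicit false

open Finset
open Pool.Agent.Helper20.C5

namespace Pool.Agent.Helper34.C5

variable {α ι : Type} [DecidableEq α] [DecidableEq ι] [Fintype ι]
variable {b : ι → Finset α} {V : Finset α} {i : ι} {K C X : Finset α} {c : α}

theorem con_of_pairs {U : Finset α} (h : ∀ u ∈ U, ∀ w ∈ U, u ≠ w → ∃ j, u ∈ b j ∧ w ∈ b j) :
    Con b U := by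
  apply con_of_exit
  intro A hA hne hAne
  obtain ⟨u, hu⟩ := hne
  have h1 : ∃ w ∈ U, w ∉ A := by
    by_contra hcon
    apply hAne
    apply Subset.antisymm hA
    intro w hw
    by_contra hwA
    exact hcon ⟨w, hw, hwA⟩
  obtain ⟨w, hw, hwA⟩ := h1
  obtain ⟨j, hj1, hj2⟩ := h u (hA hu) w hw (fun h2 => hwA (h2 ▸ hu))
  exact ⟨j, u, hu, hj1, w, hw, hwA, hj2⟩

/-- the first alternative -/
theorem MC.no_tv (h : MC b V) (h4 : (b i ∩ V).card = 4) (hne : K ≠ C)
    (hc : cps b (V \ b i) = {K, C}) (hX : X ⊆ b i ∩ V) (hT : TV b K X) : False := by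
  have h1 : ((b i ∩ V) \ X).card = 1 := by
    have h2 := card_sdiff_add_card_eq_card hX
    rw [h4, hT.x3] at h2
    omega
  obtain ⟨c, hcX⟩ := card_eq_one.mp h1
  have hB : b i ∩ V = insert c X := by
    ext z
    rw [mem_insert]
    constructor
    · intro hz
      by_cases hzX : z ∈ X
      · exact Or.inr hzX
      · have : z ∈ (b i ∩ V) \ X := mem_sdiff.mpr ⟨hz, hzX⟩
        rw [hcX, mem_singleton] at this
        exact Or.inl this
    · rintro (rfl | hz)
      · have : z ∈ (b i ∩ V) \ X := by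
          rw [hcX]
          exact mem_singleton_self z
        exact (mem_sdiff.mp this).1
      · exact hX hz
  have hcX' : c ∉ X := by
    have : c ∈ (b i ∩ V) \ X := by
      rw [hcX]
      exact mem_singleton_self c
    exact (mem_sdiff.mp this).2
  exact SPd.false ⟨h, h4, hne, hc, hB, hcX', hT, h.tv_c0 h4 hne hc hB hT⟩

/-- a component of type `D` with two blocks to the block `b i` -/
structure S2 (b : ι → Finset α) (V : Finset α) (i : ι) (K C : Finset α) (x y z t : α)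
    (e f : ι) : Prop where
  mc : MC b V
  h4 : (b i ∩ V).card = 4
  ne : K ≠ C
  hc : cps b (V \ b i) = {K, C}
  hD : Dt b C
  q4 : Q4 (b i ∩ V) x y z t
  ax : aK b C x = 1
  ay : aK b C y = 1
  az : aK b C z = 0
  at' : aK b C t = 0
  he : e ∈ mt b C
  hf : f ∈ mt b C
  xe : x ∈ b e
  yf : y ∈ b f
  nab : ¬ Cv b (C ∪ {x, y}) (tau b C)

namespace S2

variable {x y z t : α} {e f : ι} (h : S2 b V i K C x y z t e f)
include h

theorem hK : K ∈ cps b (V \ b i) := by rw [h.hc]; simp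

theorem hC : C ∈ cps b (V \ b i) := by rw [h.hc]; simp

theorem CV : C ⊆ V := sub_of_cps h.hC

theorem KV : K ⊆ V := sub_of_cps h.hK

theorem sC : Sys4 b C := h.mc.sys.mono h.CV

theorem ef : e ≠ f := h.mc.dNe h.hC h.hD h.he h.q4.mx h.q4.my h.q4.xy h.xe h.yf

theorem onlye {j : ι} (hj : j ∈ mt b C) (hx : x ∈ b j) : j = e :=
  card_le_one.mp (le_of_eq h.ax) j (mem_filter.mpr ⟨mem_univ _, hx, hj⟩) e
    (mem_filter.mpr ⟨mem_univ _, h.xe, h.he⟩)

theorem onlyf {j : ι} (hj : j ∈ mt b C) (hy : y ∈ b j) : j = f :=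
  card_le_one.mp (le_of_eq h.ay) j (mem_filter.mpr ⟨mem_univ _, hy, hj⟩) f
    (mem_filter.mpr ⟨mem_univ _, h.yf, h.hf⟩)

theorem noz {j : ι} (hj : j ∈ mt b C) : z ∉ b j := by
  intro hz
  have := aK_pos.mpr ⟨j, hj, hz⟩
  have := h.az
  omega

theorem not_t {j : ι} (hj : j ∈ mt b C) : t ∉ b j := by
  intro hz
  have := aK_pos.mpr ⟨j, hj, hz⟩
  have := h.at'
  omega

theorem Bcases {w : α} (hw : w ∈ b i ∩ V) : w = x ∨ w = y ∨ w = z ∨ w = t := by
  by_contra hcon
  rw [not_or, not_or, not_or] at hcon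
  have h1 : ({w, x, y, z, t} : Finset α) ⊆ b i ∩ V := by
    intro u hu
    simp only [mem_insert, mem_singleton] at hu
    rcases hu with rfl | rfl | rfl | rfl | rfl
    · exact hw
    · exact h.q4.mx
    · exact h.q4.my
    · exact h.q4.mz
    · exact h.q4.mw
  have h2 := card_le_card h1
  have hq := h.q4
  rw [card_insert_of_notMem (by
      simp only [mem_insert, mem_singleton, not_or]; exact ⟨hcon.1, hcon.2.1, hcon.2.2.1,
        hcon.2.2.2⟩),
    card_insert_of_notMem (by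
      simp only [mem_insert, mem_singleton, not_or]; exact ⟨hq.xy, hq.xz, hq.xt⟩),
    card_insert_of_notMem (by
      simp only [mem_insert, mem_singleton, not_or]; exact ⟨hq.yz, hq.yt⟩),
    card_pair hq.zt, h.h4] at h2
  omega

theorem tr : b e ∩ C = b f ∩ C := by
  by_contra hcon
  exact h.nab (dt_cover h.sC h.hD h.he h.hf hcon h.xe h.yf)

theorem xC : x ∉ C := notMem_of_cps h.hC (mem_inter.mp h.q4.mx).1

theorem beV : b e ∩ V = insert x (b e ∩ C) := by
  symm
  apply eq_of_subset_of_card_le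
  · intro w hw
    rw [mem_insert] at hw
    rcases hw with rfl | hw
    · exact mem_inter.mpr ⟨h.xe, (mem_inter.mp h.q4.mx).2⟩
    · exact mem_inter.mpr ⟨(mem_inter.mp hw).1, h.CV (mem_inter.mp hw).2⟩
  · rw [card_insert_of_notMem (fun hx => h.xC (mem_inter.mp hx).2), dt_card3 h.sC h.hD e h.he]
    exact h.mc.sys.sz e

theorem be4 : (b e ∩ V).card = 4 := by
  rw [h.beV, card_insert_of_notMem (fun hx => h.xC (mem_inter.mp hx).2),
    dt_card3 h.sC h.hD e h.he]

theorem e1 : C \ b e = C \ (b e ∩ C) := by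
  ext w
  simp only [mem_sdiff, mem_inter]
  tauto

theorem card3 : (C \ b e).card = 3 := by
  rw [h.e1]
  have h1 := card_sdiff_add_card_eq_card (inter_subset_right : b e ∩ C ⊆ C)
  rw [dt_card3 h.sC h.hD e h.he, h.hD.1] at h1
  omega

theorem mtE : mt b (C \ b e) = ((mt b C).erase e).erase f := by
  ext j
  rw [mem_erase, mem_erase]
  constructor
  · intro hj
    obtain ⟨w, hw, hwj⟩ := mem_mt.mp hj
    rw [mem_sdiff] at hw
    refine ⟨?_, ?_, mem_mt.mpr ⟨w, hw.1, hwj⟩⟩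
    · rintro rfl
      have : w ∈ b j ∩ C := mem_inter.mpr ⟨hwj, hw.1⟩
      rw [← h.tr] at this
      exact hw.2 (mem_inter.mp this).1
    · rintro rfl
      exact hw.2 hwj
  · rintro ⟨hjf, hje, hj⟩
    by_contra hcon
    have h1 : b j ∩ C ⊆ b e ∩ C := by
      intro w hw
      rw [mem_inter] at hw
      rw [mem_inter]
      refine ⟨?_, hw.2⟩
      by_contra hwe
      exact hcon (mem_mt.mpr ⟨w, mem_sdiff.mpr ⟨hw.2, hwe⟩, hw.1⟩)
    have h2 : b j ∩ C = b e ∩ C := eq_of_subset_of_card_le h1 (by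
      rw [dt_card3 h.sC h.hD e h.he, dt_card3 h.sC h.hD j hj])
    exact dt_no3 h.sC h.hD h.he h.hf hj h.ef (Ne.symm hje) (Ne.symm hjf) h.tr h2.symm

theorem nb8 : nb b (C \ b e) = 8 := by
  show (mt b (C \ b e)).card = 8
  rw [h.mtE, card_erase_of_mem (mem_erase.mpr ⟨h.ef.symm, h.hf⟩), card_erase_of_mem h.he]
  have : (mt b C).card = 10 := h.hD.2.1
  omega

theorem sK' : Sys4 b (C \ b e) := h.sC.mono sdiff_subset

theorem conK' : Con b (C \ b e) := by
  apply con_of_pairs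
  intro u hu w hw _
  by_contra hcon
  have h1 := no_common h.sK' hu hw (fun j hj1 hj2 => hcon ⟨j, hj1, hj2⟩) ∅ (empty_subset _)
    (fun j hj => absurd hj (notMem_empty j))
  rw [card_empty, h.nb8] at h1
  omega

theorem tau2 : tau b (C \ b e) = 2 := by
  have h1 := tau_sdiff_le h.sC.cb e
  rw [h.hD.2.2] at h1
  have h2 : ∃ j ∈ mt b (C \ b e), 2 ≤ (b j ∩ (C \ b e)).card := by
    by_contra hcon
    have h3 := sum4 h.sK'
    have h4 : ∑ j ∈ mt b (C \ b e), (b j ∩ (C \ b e)).card ≤ ∑ _j ∈ mt b (C \ b e), 1 := by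
      apply sum_le_sum
      intro j hj
      by_contra h5
      exact hcon ⟨j, hj, by omega⟩
    rw [h3, sum_const, smul_eq_mul, mul_one, h.card3] at h4
    have h5 : (mt b (C \ b e)).card = 8 := h.nb8
    omega
  obtain ⟨j, -, hj2⟩ := h2
  have h3 : ((C \ b e) \ b j).card ≤ 1 := by
    have h4 := card_sdiff_add_card_eq_card (inter_subset_right : b j ∩ (C \ b e) ⊆ C \ b e)
    have e2 : (C \ b e) \ (b j ∩ (C \ b e)) = (C \ b e) \ b j := by
      ext w
      simp only [mem_sdiff, mem_inter]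
      tauto
    rw [e2, h.card3] at h4
    omega
  have h4 : ∃ g, (C \ b e) \ b j ⊆ b g := by
    rcases ((C \ b e) \ b j).eq_empty_or_nonempty with h5 | ⟨w, hw⟩
    · exact ⟨j, by rw [h5]; exact empty_subset _⟩
    · obtain ⟨g, hg⟩ := h.sK'.cb w (mem_sdiff.mp hw).1
      refine ⟨g, fun u hu => ?_⟩
      rw [card_le_one.mp h3 u hu w hw]
      exact hg
  obtain ⟨g, hg⟩ := h4
  have h5 : Cv b (C \ b e) 2 := by
    refine ⟨{j, g}, card_le_two, fun u hu => ?_⟩
    by_cases huj : u ∈ b j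
    · exact ⟨j, mem_insert_self _ _, huj⟩
    · exact ⟨g, mem_insert_of_mem (mem_singleton_self _), hg (mem_sdiff.mpr ⟨hu, huj⟩)⟩
  have h6 := tau_le h5
  omega

theorem a3 {u : α} (hu : u ∈ b e ∩ C) : aK b (C \ b e) u = 3 := by
  have hu2 := mem_inter.mp hu
  have h1 : (univ.filter fun j => u ∈ b j ∧ j ∈ mt b (C \ b e)) =
      ((univ.filter fun j => u ∈ b j).erase e).erase f := by
    ext j
    rw [mem_filter, mem_erase, mem_erase, mem_filter, h.mtE, mem_erase, mem_erase]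
    constructor
    · rintro ⟨h1, h2, h3, h4, h5⟩
      exact ⟨h3, h4, h1, h2⟩
    · rintro ⟨h1, h2, h3, h4⟩
      exact ⟨h3, h4, h1, h2, mem_mt.mpr ⟨u, hu2.2, h4⟩⟩
  have huf : u ∈ b f := by
    have : u ∈ b f ∩ C := by
      rw [← h.tr]
      exact hu
    exact (mem_inter.mp this).1
  have he' : e ∈ univ.filter fun j => u ∈ b j := mem_filter.mpr ⟨mem_univ _, hu2.1⟩
  have hf' : f ∈ (univ.filter fun j => u ∈ b j).erase e :=
    mem_erase.mpr ⟨h.ef.symm, mem_filter.mpr ⟨mem_univ _, huf⟩⟩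
  unfold aK
  rw [h1, card_erase_of_mem hf', card_erase_of_mem he', h.sC.deg u hu2.2]

theorem tv : TV b (C \ b e) (b e ∩ C) := by
  refine ⟨h.card3, dt_card3 h.sC h.hD e h.he, h.nb8, h.tau2, fun u hu => h.a3 hu, ?_⟩
  intro j hj
  have e2 : C \ b e ∪ b e ∩ C = C := by
    ext w
    simp only [mem_union, mem_sdiff, mem_inter]
    tauto
  rw [e2]
  exact dt_card3 h.sC h.hD j (mt_mono sdiff_subset hj)

/-- the other component -/
theorem conC' : Con b (((b i ∩ V) \ {x}) ∪ K) := by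
  have h1 : Con b ((b i ∩ V) \ {x}) := by
    apply con_of_pairs
    intro u hu w hw _
    exact ⟨i, (mem_inter.mp (mem_sdiff.mp hu).1).1, (mem_inter.mp (mem_sdiff.mp hw).1).1⟩
  have h2 := h.mc.col h.h4 h.q4.my
  rw [h.hc, sum_pair h.ne, h.ay] at h2
  obtain ⟨j, hj, hyj⟩ := aK_pos.mp (show 0 < aK b K y by omega)
  obtain ⟨w, hw, hwj⟩ := mem_mt.mp hj
  refine con_union h1 (cps_con h.hK) (x := y) ?_ hyj hw hwj
  rw [mem_sdiff, mem_singleton]
  exact ⟨h.q4.my, h.q4.xy.symm⟩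

theorem memV {w : α} (hw : w ∈ V) : w ∈ b i ∩ V ∨ w ∈ K ∨ w ∈ C := by
  by_cases hwi : w ∈ b i
  · exact Or.inl (mem_inter.mpr ⟨hwi, hw⟩)
  · right
    have h1 : w ∈ V \ b i := mem_sdiff.mpr ⟨hw, hwi⟩
    rw [← cps_union (b := b) (U := V \ b i), h.hc, mem_biUnion] at h1
    obtain ⟨D, hD, hwD⟩ := h1
    rw [mem_insert, mem_singleton] at hD
    rcases hD with rfl | rfl
    · exact Or.inl hwD
    · exact Or.inr hwD

theorem disKC : Disjoint K C := cps_disj h.hK h.hC h.ne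

theorem rest_eq : (V \ b e) \ (C \ b e) = ((b i ∩ V) \ {x}) ∪ K := by
  ext w
  rw [mem_sdiff, mem_sdiff, mem_sdiff, mem_union, mem_sdiff, mem_singleton]
  constructor
  · rintro ⟨⟨hwV, hwe⟩, hwC⟩
    rcases h.memV hwV with h1 | h1 | h1
    · refine Or.inl ⟨h1, ?_⟩
      rintro rfl
      exact hwe h.xe
    · exact Or.inr h1
    · exact absurd ⟨h1, hwe⟩ hwC
  · have hne : ∀ w, w ∈ V → w ≠ x → w ∉ C → w ∉ b e := by
      intro w hwV hwx hwC hwe
      have h1 : w ∈ b e ∩ V := mem_inter.mpr ⟨hwe, hwV⟩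
      rw [h.beV, mem_insert, mem_inter] at h1
      rcases h1 with h1 | h1
      · exact hwx h1
      · exact hwC h1.2
    rintro (⟨h1, h2⟩ | h1)
    · have h3 := mem_inter.mp h1
      have h4 : w ∉ C := notMem_of_cps h.hC h3.1
      exact ⟨⟨h3.2, hne w h3.2 h2 h4⟩, fun h5 => h4 h5.1⟩
    · have h4 : w ∉ C := fun h5 => (disjoint_left.mp h.disKC) h1 h5
      have h5 : w ≠ x := by
        rintro rfl
        exact notMem_of_cps h.hK (mem_inter.mp h.q4.mx).1 h1
      exact ⟨⟨h.KV h1, hne w (h.KV h1) h5 h4⟩, fun h5 => h4 h5.1⟩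

theorem memK' : C \ b e ∈ cps b (V \ b e) := by
  refine mem_cps_of (sdiff_subset_sdiff h.CV (Subset.refl _)) (card_pos.mp (by
    rw [h.card3]; omega)) h.conK' ?_
  intro j u hu w hw huj hwj
  rw [h.rest_eq, mem_union, mem_sdiff, mem_singleton] at hw
  have hjC : j ∈ mt b C := mem_mt.mpr ⟨u, (mem_sdiff.mp hu).1, huj⟩
  have hjE : j ∈ mt b (C \ b e) := mem_mt.mpr ⟨u, hu, huj⟩
  rw [h.mtE, mem_erase, mem_erase] at hjE
  rcases hw with ⟨hw, hwx⟩ | hw
  · rcases h.Bcases hw with rfl | rfl | rfl | rfl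
    · exact hwx rfl
    · exact hjE.1 (h.onlyf hjC hwj)
    · exact h.noz hjC hwj
    · exact h.not_t hjC hwj
  · exact h.ne (cps_unique h.hK h.hC (mem_mt.mpr ⟨w, hw, hwj⟩) hjC)

theorem cps_eq : cps b (V \ b e) = {C \ b e, ((b i ∩ V) \ {x}) ∪ K} := by
  have h1 := cps_rest h.memK'
  rw [h.rest_eq, cps_self h.conC' ((cps_ne h.hK).mono subset_union_right)] at h1
  rw [← insert_erase h.memK', ← h1]

theorem false : False := by
  have hneK : C \ b e ≠ ((b i ∩ V) \ {x}) ∪ K := by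
    intro h1
    obtain ⟨w, hw⟩ := cps_ne h.hK
    have h2 : w ∈ C \ b e := by
      rw [h1]
      exact mem_union_right _ hw
    exact (disjoint_left.mp h.disKC) hw (mem_sdiff.mp h2).1
  refine SPd.false (b := b) (V := V) (i := e) (K := C \ b e) (C := ((b i ∩ V) \ {x}) ∪ K)
    (X := b e ∩ C) (c := x) ⟨h.mc, h.be4, hneK, h.cps_eq, h.beV, ?_, h.tv, ?_⟩
  · intro hx
    exact h.xC (mem_inter.mp hx).2
  · by_contra hcon
    obtain ⟨j, hj, hxj⟩ := aK_pos.mp (show 0 < aK b (C \ b e) x by omega)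
    rw [h.mtE, mem_erase, mem_erase] at hj
    exact hj.2.1 (h.onlye hj.2.2 hxj)

end S2

/-- **a four-block leaves one component** -/
theorem MC.one (h : MC b V) (h4 : (b i ∩ V).card = 4) : (cps b (V \ b i)).card = 1 := by
  have h1 := h.r3 h4
  have h2 := h.r1 h4
  have h3 := h.no3 h4
  by_contra hcon
  obtain ⟨K, C, hne, hc, h5⟩ := h.two h4 (by omega)
  rcases h5 with ⟨X, hX, hT⟩ | ⟨hD, x, y, z, t, hq, hx, hy, hz, ht, hab⟩
  · exact h.no_tv h4 hne hc hX hT
  · obtain ⟨e, he, hxe⟩ := aK_pos.mp (show 0 < aK b C x by omega)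
    obtain ⟨f, hf, hyf⟩ := aK_pos.mp (show 0 < aK b C y by omega)
    exact S2.false ⟨h, h4, hne, hc, hD, hq, hx, hy, hz, ht, he, hf, hxe, hyf, hab⟩

end Pool.Agent.Helper34.C5
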