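import Pool.Agent.Helper34.C5.Bas

/-!
# The types `D`, `T3`, `E`; the induction hypothesis; F1, F3
-/

set_option linter.unusedSectionVars false
set_option autoImplicit false

open Finset
open Pool.Agent.Helper20.C5

namespace Pool.Agent.Helper34.C5

variable {α ι : Type} [DecidableEq α] [DecidableEq ι] [Fintype ι]

/-- type `T3` -/
def T3 (b : ι → Finset α) (U : Finset α) : Prop := U.card = 3 ∧ nb b U = 8 ∧ tau b U = 2

/-- type `E` -/
def E4 (b : ι → Finset α) (U : Finset α) : Prop :=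
  U.card = 10 ∧ nb b U = 17 ∧ tau b U = 5 ∧ n1 b U = 0 ∧
    ∃ i j, (b i ∩ U).card = 4 ∧ (b j ∩ U).card = 4 ∧ ((b j ∩ U) \ b i).card = 1

/-- the statement for systems with less than `n` points -/
def IH4 (n : ℕ) : Prop :=
  ∀ (α ι : Type) [DecidableEq α] [DecidableEq ι] [Fintype ι] (b : ι → Finset α) (U : Finset α),
    U.Nonempty → U.card < n → Sys4 b U → Con b U → 0 ≤ Ps b U ∨ Dt b U ∨ T3 b U ∨ E4 b U

theorem IH4.mono {n m : ℕ} (h : IH4 n) (hm : m ≤ n) : IH4 m := by
  intro α ι _ _ _ b U h1 h2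
  exact h α ι b U h1 (by omega)

/-! ## Double counting -/

theorem sum4 {b : ι → Finset α} {U : Finset α} (h : Sys4 b U) :
    ∑ i ∈ mt b U, (b i ∩ U).card = 5 * U.card := by
  have h1 : ∑ i ∈ mt b U, (b i ∩ U).card = ∑ i, (b i ∩ U).card := by
    unfold Helper20.C5.mt
    rw [sum_filter]
    apply sum_congr rfl
    intro i _
    by_cases h2 : (b i ∩ U).Nonempty
    · rw [if_pos h2]
    · rw [if_neg h2, not_nonempty_iff_eq_empty.mp h2, card_empty]
  rw [h1]
  have h2 : ∀ i, (b i ∩ U).card = ∑ x ∈ U, if x ∈ b i then 1 else 0 := by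
    intro i
    rw [inter_comm, ← filter_mem_eq_inter, card_filter]
  simp_rw [h2]
  rw [sum_comm]
  have h3 : ∀ x ∈ U, (∑ i, if x ∈ b i then 1 else 0) = 5 := by
    intro x hx
    rw [← card_filter]
    exact h.deg x hx
  rw [sum_congr rfl h3, sum_const, smul_eq_mul, mul_comm]

theorem mt_card_pos {b : ι → Finset α} {U : Finset α} {i : ι} :
    i ∈ mt b U ↔ 1 ≤ (b i ∩ U).card := by
  unfold Helper20.C5.mt
  rw [mem_filter]
  exact ⟨fun h => card_pos.mpr h.2, fun h => ⟨mem_univ _, card_pos.mp h⟩⟩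

/-- two points without a common block -/
theorem no_common {b : ι → Finset α} {U : Finset α} (h : Sys4 b U) {x y : α} (hx : x ∈ U)
    (hy : y ∈ U) (hn : ∀ i, x ∈ b i → y ∉ b i) (L : Finset ι) (hL : L ⊆ mt b U)
    (hL2 : ∀ i ∈ L, x ∉ b i ∧ y ∉ b i) : 10 + L.card ≤ nb b U := by
  have h1 := h.deg x hx
  have h2 := h.deg y hy
  have h3 : (univ.filter fun i => x ∈ b i) ∪ (univ.filter fun i => y ∈ b i) ∪ L ⊆ mt b U := by
    intro i hi
    rw [mem_union, mem_union, mem_filter, mem_filter] at hi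
    rcases hi with (hi | hi) | hi
    · exact mem_mt.mpr ⟨x, hx, hi.2⟩
    · exact mem_mt.mpr ⟨y, hy, hi.2⟩
    · exact hL hi
  have h4 := card_le_card h3
  rw [card_union_of_disjoint, card_union_of_disjoint, h1, h2] at h4
  · exact h4
  · rw [disjoint_left]
    intro i hi hi2
    exact hn i (mem_filter.mp hi).2 (mem_filter.mp hi2).2
  · rw [disjoint_left]
    intro i hi hi2
    rw [mem_union, mem_filter, mem_filter] at hi
    rcases hi with hi | hi
    · exact (hL2 i hi2).1 hi.2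
    · exact (hL2 i hi2).2 hi.2

/-! ## Type `D` -/

theorem dt_card3 {b : ι → Finset α} {U : Finset α} (h : Sys4 b U) (hD : Dt b U) :
    ∀ i ∈ mt b U, (b i ∩ U).card = 3 := by
  obtain ⟨h1, h2, h3⟩ := hD
  have hle : ∀ i ∈ mt b U, (b i ∩ U).card ≤ 3 := by
    intro i hi
    by_contra hcon
    have h4 : (b i ∩ U).card = 4 := by
      have := h.sz i
      omega
    have h5 : (U \ b i).card = 2 := by
      have := card_sdiff_add_card_inter U (b i)
      rw [inter_comm] at this
      omega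
    obtain ⟨x, y, hxy, hxy2⟩ := card_eq_two.mp h5
    have hx : x ∈ U \ b i := by
      rw [hxy2]
      exact mem_insert_self _ _
    have hy : y ∈ U \ b i := by
      rw [hxy2]
      exact mem_insert_of_mem (mem_singleton_self _)
    rw [mem_sdiff] at hx hy
    by_cases hn : ∀ j, x ∈ b j → y ∉ b j
    · have h6 := no_common h hx.1 hy.1 hn {i} (singleton_subset_iff.mpr hi) (by
        intro j hj
        rw [mem_singleton.mp hj]
        exact ⟨hx.2, hy.2⟩)
      rw [card_singleton] at h6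
      omega
    · rw [not_forall] at hn
      obtain ⟨j, hj⟩ := hn
      rw [Classical.not_imp, not_not] at hj
      have h6 : Cv b U 2 := by
        refine ⟨{i, j}, card_le_two, fun z hz => ?_⟩
        by_cases hzi : z ∈ b i
        · exact ⟨i, mem_insert_self _ _, hzi⟩
        · have : z ∈ U \ b i := mem_sdiff.mpr ⟨hz, hzi⟩
          rw [hxy2, mem_insert, mem_singleton] at this
          refine ⟨j, mem_insert_of_mem (mem_singleton_self _), ?_⟩
          rcases this with rfl | rfl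
          · exact hj.1
          · exact hj.2
      have := tau_le h6
      omega
  intro i hi
  by_contra hne
  have h4 : (b i ∩ U).card < 3 := lt_of_le_of_ne (hle i hi) hne
  have h5 : ∑ i ∈ mt b U, (b i ∩ U).card < ∑ _i ∈ mt b U, 3 :=
    sum_lt_sum (fun j hj => hle j hj) ⟨i, hi, h4⟩
  rw [sum_const, smul_eq_mul, sum4 h, h1] at h5
  unfold nb at h2
  rw [h2] at h5
  omega

theorem dt_n1 {b : ι → Finset α} {U : Finset α} (h : Sys4 b U) (hD : Dt b U) : n1 b U = 0 := by
  unfold n1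
  rw [card_eq_zero]
  ext i
  rw [mem_filter]
  refine ⟨fun h1 => ?_, fun h => absurd h (notMem_empty i)⟩
  have h2 := dt_card3 h hD i (mt_card_pos.mpr (by omega))
  omega

theorem dt_ps {b : ι → Finset α} {U : Finset α} (h : Sys4 b U) (hD : Dt b U) : Ps b U = -10 := by
  unfold Ps Ph
  rw [dt_n1 h hD, hD.1, hD.2.1, hD.2.2]
  norm_num

/-! ## Type `T3` -/

theorem t3_card {b : ι → Finset α} {U : Finset α} (hT : T3 b U) :
    ∀ i, (b i ∩ U).card ≤ 2 := by
  obtain ⟨h1, -, h3⟩ := hT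
  intro i
  by_contra hcon
  have h4 : U ⊆ b i := by
    have h5 : b i ∩ U = U := eq_of_subset_of_card_le inter_subset_right (by omega)
    rw [← h5]
    exact inter_subset_left
  have := tau_le (cv_block i h4)
  omega

theorem t3_n1 {b : ι → Finset α} {U : Finset α} (h : Sys4 b U) (hT : T3 b U) : n1 b U = 1 := by
  have h1 := sum4 h
  have h2 : ∀ i ∈ mt b U, (b i ∩ U).card + (if (b i ∩ U).card = 1 then 1 else 0) = 2 := by
    intro i hi
    have h3 := t3_card hT i
    have h4 := mt_card_pos.mp hi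
    by_cases h5 : (b i ∩ U).card = 1
    · rw [if_pos h5, h5]
    · rw [if_neg h5]
      omega
  have h3 := sum_congr (rfl : mt b U = mt b U) h2
  rw [sum_add_distrib, sum_const, smul_eq_mul, h1, hT.1, ← card_filter] at h3
  have h4 : (mt b U).card = 8 := hT.2.1
  have h5 : (mt b U).filter (fun i => (b i ∩ U).card = 1) =
      univ.filter fun i => (b i ∩ U).card = 1 := by
    ext i
    rw [mem_filter, mem_filter]
    exact ⟨fun h => ⟨mem_univ _, h.2⟩, fun h => ⟨mt_card_pos.mpr (by omega), h.2⟩⟩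
  rw [h5, h4] at h3
  unfold n1
  omega

theorem t3_ps {b : ι → Finset α} {U : Finset α} (h : Sys4 b U) (hT : T3 b U) : Ps b U = -2 := by
  unfold Ps Ph
  rw [t3_n1 h hT, hT.1, hT.2.1, hT.2.2]
  norm_num

theorem e4_ps {b : ι → Finset α} {U : Finset α} (hE : E4 b U) : Ps b U = -2 := by
  unfold Ps Ph
  rw [hE.2.2.2.1, hE.1, hE.2.1, hE.2.2.1]
  norm_num

/-! ## Lower bounds from the induction hypothesis -/

theorem IH4.ge2 {n : ℕ} (hI : IH4 n) {b : ι → Finset α} {U : Finset α} (hne : U.Nonempty)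
    (hn : U.card < n) (h : Sys4 b U) (hc : Con b U) (hD : ¬ Dt b U) : -2 ≤ Ps b U := by
  rcases hI α ι b U hne hn h hc with h1 | h1 | h1 | h1
  · omega
  · exact absurd h1 hD
  · rw [t3_ps h h1]
  · rw [e4_ps h1]

theorem IH4.ge10 {n : ℕ} (hI : IH4 n) {b : ι → Finset α} {U : Finset α} (hne : U.Nonempty)
    (hn : U.card < n) (h : Sys4 b U) (hc : Con b U) : -10 ≤ Ps b U := by
  by_cases hD : Dt b U
  · rw [dt_ps h hD]
  · have := hI.ge2 hne hn h hc hD
    omega

/-- lower bound for a set which is not connected -/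
theorem IH4.sum_ge {n : ℕ} (hI : IH4 n) {b : ι → Finset α} {U : Finset α}
    (hn : U.card < n) (h : Sys4 b U) (k : ℕ) (hk : (cps b U).card ≤ k) : -10 * (k : ℤ) ≤ Ps b U := by
  rw [Ps_cps h.cb]
  have h1 : ∑ _C ∈ cps b U, (-10 : ℤ) ≤ ∑ C ∈ cps b U, Ps b C := by
    apply sum_le_sum
    intro C hC
    have h2 := cps_sub hC
    exact hI.ge10 (cps_ne hC) ((card_le_card h2).trans_lt hn) (h.mono h2) (cps_con hC)
  rw [sum_const] at h1
  have h2 : ((cps b U).card : ℤ) ≤ (k : ℤ) := by exact_mod_cast hk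
  have h3 : (cps b U).card • (-10 : ℤ) = ((cps b U).card : ℤ) * (-10) := by
    rw [nsmul_eq_mul]
  rw [h3] at h1
  linarith

/-- the same if only some components are negative -/
theorem IH4.sum_ge' {n : ℕ} (hI : IH4 n) {b : ι → Finset α} {U : Finset α}
    (hn : U.card < n) (h : Sys4 b U) (k : ℕ)
    (hk : ((cps b U).filter fun C => Ps b C < 0).card ≤ k) : -10 * (k : ℤ) ≤ Ps b U := by
  classical
  rw [Ps_cps h.cb]
  have h1 : ∑ C ∈ cps b U, (if Ps b C < 0 then (-10 : ℤ) else 0) ≤ ∑ C ∈ cps b U, Ps b C := by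
    apply sum_le_sum
    intro C hC
    have h2 := cps_sub hC
    have h3 := hI.ge10 (cps_ne hC) ((card_le_card h2).trans_lt hn) (h.mono h2) (cps_con hC)
    by_cases h4 : Ps b C < 0
    · rw [if_pos h4]
      exact h3
    · rw [if_neg h4]
      exact not_lt.mp h4
  rw [← sum_filter, sum_const, nsmul_eq_mul] at h1
  have h2 : (((cps b U).filter fun C => Ps b C < 0).card : ℤ) ≤ (k : ℤ) := by exact_mod_cast hk
  linarith

/-! ## F1 -/

theorem touch_card {b : ι → Finset α} {U : Finset α} (h : Sys4 b U) {i : ι} (hi : i ∈ mt b U) :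
    (univ.filter fun j => j ≠ i ∧ j ∈ mt b (b i ∩ U)).card ≤ 4 * (b i ∩ U).card := by
  have h1 : (univ.filter fun j => j ≠ i ∧ j ∈ mt b (b i ∩ U)) ⊆
      (b i ∩ U).biUnion fun x => univ.filter fun j => x ∈ b j ∧ ¬ j = i := by
    intro j hj
    rw [mem_filter] at hj
    obtain ⟨-, hj1, hj2⟩ := hj
    obtain ⟨x, hx, hxj⟩ := mem_mt.mp hj2
    rw [mem_biUnion]
    exact ⟨x, hx, mem_filter.mpr ⟨mem_univ _, hxj, hj1⟩⟩
  refine (card_le_card h1).trans (card_biUnion_le.trans ?_)
  have h2 : ∀ x ∈ b i ∩ U, (univ.filter fun j => x ∈ b j ∧ ¬ j = i).card ≤ 4 := by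
    intro x hx
    rw [mem_inter] at hx
    have h3 := deg_split h hx.2 (fun j => j = i)
    have h4 : 0 < (univ.filter fun j => x ∈ b j ∧ j = i).card :=
      card_pos.mpr ⟨i, mem_filter.mpr ⟨mem_univ _, hx.1, rfl⟩⟩
    omega
  refine (sum_le_sum h2).trans ?_
  rw [sum_const, smul_eq_mul, mul_comm]

theorem f1 {n : ℕ} (hI : IH4 n) {b : ι → Finset α} {U : Finset α} (h : Sys4 b U)
    (hc : Con b U) (hn : U.card ≤ n) {i : ι} (hi : i ∈ mt b U)
    (ht : tau b (U \ b i) = tau b U) : 56 ≤ Ps b U := by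
  have hpos := mt_card_pos.mp hi
  have e1 : U \ (b i ∩ U) = U \ b i := by
    ext x
    simp only [mem_sdiff, mem_inter]
    tauto
  have hlt : (U \ b i).card < U.card := by
    rw [← e1]
    have h1 := card_sdiff_add_card_eq_card (inter_subset_right : b i ∩ U ⊆ U)
    omega
  have h1 : (cps b (U \ b i)).card ≤ 4 * (b i ∩ U).card := by
    refine le_trans ?_ (touch_card h hi)
    apply cps_card_le (Subset.refl _)
    intro C hC
    have hT : (b i ∩ U).Nonempty := card_pos.mp (by omega)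
    obtain ⟨j, hj1, hj2⟩ := att hc hT hC
    refine ⟨j, mem_filter.mpr ⟨mem_univ _, ?_, hj2⟩, hj1⟩
    rintro rfl
    obtain ⟨x, hx, hxj⟩ := mem_mt.mp hj1
    exact (mem_sdiff.mp (cps_sub hC hx)).2 hxj
  have h2 := hI.sum_ge (hlt.trans_le hn) (h.mono sdiff_subset) _ h1
  have h3 := Ps_rem b (inter_subset_right : b i ∩ U ⊆ U)
  rw [e1, ht, sub_self, mul_zero, sub_zero] at h3
  have h4 : i ∈ inn b U (b i ∩ U) := mem_inn.mpr ⟨card_pos.mp (by omega), Subset.refl _⟩
  have h5 : (1 : ℤ) ≤ ((inn b U (b i ∩ U)).card : ℤ) := by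
    exact_mod_cast card_pos.mpr ⟨i, h4⟩
  have h6 : ((in1 b U (b i ∩ U)).card : ℤ) ≤ ((inn b U (b i ∩ U)).card : ℤ) := by
    exact_mod_cast card_le_card in1_sub
  have h7 : (0 : ℤ) ≤ ((nw b U (b i ∩ U)).card : ℤ) := Int.natCast_nonneg _
  have h8 : (1 : ℤ) ≤ ((b i ∩ U).card : ℤ) := by exact_mod_cast hpos
  push_cast at h2
  linarith

theorem tau_sdiff_le {b : ι → Finset α} {U : Finset α} (hc : Cb b U) (i : ι) :
    tau b U ≤ tau b (U \ b i) + 1 := by
  have h1 : Cv b (U ∩ b i) 1 := cv_block i inter_subset_right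
  have h2 := cv_union (tau_cv (hc.mono (sdiff_subset (s := U) (t := b i)))) h1
  rw [sdiff_union_inter] at h2
  exact tau_le h2

/-- below `56` every block is saturated -/
theorem f1' {n : ℕ} (hI : IH4 n) {b : ι → Finset α} {U : Finset α} (h : Sys4 b U)
    (hc : Con b U) (hn : U.card ≤ n) (hP : Ps b U < 56) {i : ι} (hi : i ∈ mt b U) :
    tau b (U \ b i) + 1 = tau b U := by
  have h1 := tau_sdiff_le h.cb i
  have h2 := tau_mono h.cb (sdiff_subset (s := U) (t := b i))
  by_contra hcon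
  have h3 : tau b (U \ b i) = tau b U := by omega
  have := f1 hI h hc hn hi h3
  omega

/-- absorption through a block -/
theorem absb {b : ι → Finset α} {K Y : Finset α} (hc : Cb b K) {i : ι}
    (h : tau b (K \ b i) + 1 = tau b K) (hY : Y ⊆ b i) : Cv b (K ∪ Y) (tau b K) := by
  have h1 : Cv b (K ∩ b i ∪ Y) 1 := cv_block i (union_subset inter_subset_right hY)
  have h2 := cv_union (tau_cv (hc.mono (sdiff_subset (s := K) (t := b i)))) h1
  rw [h, ← union_assoc, sdiff_union_inter] at h2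
  exact h2

/-! ## F3 -/

/-- **F3**, second part -/
theorem f3 {n : ℕ} (hI : IH4 n) {b : ι → Finset α} {V : Finset α} (h : Sys4 b V)
    (hc : Con b V) (hn : V.card ≤ n) {v : α} (hv : v ∈ V) {N : Finset α}
    (hN : N ∈ cps b (V \ {v})) (ha : Cv b (N ∪ {v}) (tau b N)) : Ps b N + 13 ≤ Ps b V := by
  classical
  have hNs := cps_sub hN
  have hNV : N ⊆ V := hNs.trans sdiff_subset
  have hvN : v ∉ N := fun h => (mem_sdiff.mp (hNs h)).2 (mem_singleton_self v)
  have hWV : N ∪ {v} ⊆ V := union_subset hNV (singleton_subset_iff.mpr hv)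
  have hWc : (N ∪ {v}).card = N.card + 1 := by
    rw [card_union_of_disjoint (disjoint_singleton_right.mpr hvN), card_singleton]
  have e1 : V \ (N ∪ {v}) = (V \ {v}) \ N := by
    ext x
    simp only [mem_sdiff, mem_union, mem_singleton]
    tauto
  -- the blocks at `N` are inside `N + v`
  have hin : ∀ i ∈ mt b N, b i ∩ V ⊆ N ∪ {v} := by
    intro i hi x hx
    obtain ⟨y, hy, hyi⟩ := mem_mt.mp hi
    rw [mem_inter] at hx
    rw [mem_union, mem_singleton]
    by_contra hcon
    rw [not_or] at hcon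
    exact cps_sep hN i y hy x (mem_sdiff.mpr ⟨mem_sdiff.mpr ⟨hx.2, by
      rw [mem_singleton]; exact hcon.2⟩, hcon.1⟩) hyi hx.1
  -- the number of the other components
  have hT : (({v} : Finset α) ∩ V).Nonempty := ⟨v, mem_inter.mpr ⟨mem_singleton_self v, hv⟩⟩
  have hTe : ({v} : Finset α) ∩ V = {v} := inter_eq_left.mpr (singleton_subset_iff.mpr hv)
  obtain ⟨i0, hi0, hi0v⟩ := att hc hT hN
  have hi0v' : v ∈ b i0 := by
    rw [hTe] at hi0v
    obtain ⟨y, hy, hyi⟩ := mem_mt.mp hi0v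
    rwa [mem_singleton.mp hy] at hyi
  have h1 : (cps b (V \ (N ∪ {v}))).card ≤ (univ.filter fun i => v ∈ b i ∧ i ∉ mt b N).card := by
    rw [e1, cps_rest hN]
    apply cps_card_le (erase_subset _ _)
    intro C hC
    rw [mem_erase] at hC
    obtain ⟨j, hj1, hj2⟩ := att hc hT hC.2
    rw [hTe] at hj2
    obtain ⟨y, hy, hyj⟩ := mem_mt.mp hj2
    rw [mem_singleton.mp hy] at hyj
    refine ⟨j, mem_filter.mpr ⟨mem_univ _, hyj, fun hjN => ?_⟩, hj1⟩
    exact hC.1 (cps_unique hC.2 hN hj1 hjN)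
  have h2 : (univ.filter fun i => v ∈ b i ∧ i ∉ mt b N).card ≤ 4 := by
    have h3 := deg_split h hv (fun i => i ∈ mt b N)
    have h4 : 0 < (univ.filter fun i => v ∈ b i ∧ i ∈ mt b N).card :=
      card_pos.mpr ⟨i0, mem_filter.mpr ⟨mem_univ _, hi0v', hi0⟩⟩
    omega
  have hlt : (V \ (N ∪ {v})).card < V.card := by
    have h3 := card_sdiff_add_card_eq_card hWV
    omega
  have h3 := hI.sum_ge (hlt.trans_le hn) (h.mono sdiff_subset) 4 (h1.trans h2)
  have h4 := Ps_rem_le h.cb hWV ha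
  -- gain
  have h5 : mt b N ∪ (univ.filter fun i => b i ∩ V = {v}) ⊆ inn b V (N ∪ {v}) := by
    intro i hi
    rw [mem_inn]
    rcases mem_union.mp hi with hi | hi
    · obtain ⟨y, hy, hyi⟩ := mem_mt.mp hi
      exact ⟨⟨y, mem_inter.mpr ⟨hyi, hNV hy⟩⟩, hin i hi⟩
    · rw [mem_filter] at hi
      rw [hi.2]
      exact ⟨singleton_nonempty v, subset_union_right⟩
  have h6 : in1 b V (N ∪ {v}) ⊆ (univ.filter fun i => (b i ∩ N).card = 1) ∪
      (univ.filter fun i => b i ∩ V = {v}) := by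
    intro i hi
    rw [mem_in1] at hi
    obtain ⟨x, hx⟩ := card_eq_one.mp hi.1
    have hxm : x ∈ b i ∩ V := by
      rw [hx]
      exact mem_singleton_self x
    have hxW := hi.2 hxm
    rw [mem_union, mem_filter, mem_filter]
    rcases mem_union.mp hxW with hxN | hxv
    · left
      refine ⟨mem_univ _, ?_⟩
      rw [card_eq_one]
      refine ⟨x, ?_⟩
      ext y
      rw [mem_singleton, mem_inter]
      constructor
      · rintro ⟨h7, h8⟩
        have : y ∈ b i ∩ V := mem_inter.mpr ⟨h7, hNV h8⟩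
        rw [hx] at this
        exact mem_singleton.mp this
      · rintro rfl
        exact ⟨(mem_inter.mp hxm).1, hxN⟩
    · right
      rw [mem_singleton.mp hxv] at hx
      exact ⟨mem_univ _, hx⟩
  have hdis : Disjoint (mt b N) (univ.filter fun i => b i ∩ V = {v}) := by
    rw [disjoint_left]
    intro i hi hi2
    obtain ⟨y, hy, hyi⟩ := mem_mt.mp hi
    rw [mem_filter] at hi2
    have : y ∈ b i ∩ V := mem_inter.mpr ⟨hyi, hNV hy⟩
    rw [hi2.2, mem_singleton] at this
    rw [this] at hy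
    exact hvN hy
  have h7 := card_le_card h5
  rw [card_union_of_disjoint hdis] at h7
  have h8 := (card_le_card h6).trans (card_union_le _ _)
  have h7' : (nb b N : ℤ) + ((univ.filter fun i => b i ∩ V = {v}).card : ℤ) ≤
      ((inn b V (N ∪ {v})).card : ℤ) := by exact_mod_cast h7
  have h8' : ((in1 b V (N ∪ {v})).card : ℤ) ≤ (n1 b N : ℤ) +
      ((univ.filter fun i => b i ∩ V = {v}).card : ℤ) := by exact_mod_cast h8
  have h9 : (0 : ℤ) ≤ ((univ.filter fun i => b i ∩ V = {v}).card : ℤ) := Int.natCast_nonneg _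
  have h10 : (0 : ℤ) ≤ ((nw b V (N ∪ {v})).card : ℤ) := Int.natCast_nonneg _
  rw [hWc] at h4
  push_cast at h3 h4
  unfold Ps Ph at *
  linarith

end Pool.Agent.Helper34.C5
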